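import Mathlib

/-! Fenchel's theorem on the total curvature of closed curves, in any real inner product space. -/

open Real MeasureTheory Set Filter Topology
open scoped RealInnerProductSpace

namespace Pool.Agent.X150.Fenchel

variable {E : Type*} [NormedAddCommGroup E] [InnerProductSpace ℝ E]

theorem inner_deriv_zero {T T' : ℝ → E} (hT : ∀ t, HasDerivAt T (T' t) t)
    (hunit : ∀ t, ‖T t‖ = 1) (t : ℝ) : ⟪T t, T' t⟫ = 0 := by
  have h1 : HasDerivAt (fun t => ⟪T t, T t⟫) (⟪T t, T' t⟫ + ⟪T' t, T t⟫) t :=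
    (hT t).inner ℝ (hT t)
  have h2 : (fun t => ⟪T t, T t⟫) = fun _ => (1 : ℝ) := by
    funext t; rw [real_inner_self_eq_norm_sq, hunit]; norm_num
  rw [h2] at h1
  have h3 := h1.unique (hasDerivAt_const t (1 : ℝ))
  rw [real_inner_comm (T t) (T' t)] at h3
  linarith

theorem inner_deriv_le {T T' : ℝ → E} (hT : ∀ t, HasDerivAt T (T' t) t)
    (hunit : ∀ t, ‖T t‖ = 1) {R : E} (hR : ‖R‖ = 1) (t : ℝ) :
    ⟪R, T' t⟫ ^ 2 ≤ ‖T' t‖ ^ 2 * (1 - ⟪R, T t⟫ ^ 2) := by
  have h0 := inner_deriv_zero hT hunit t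
  have h1 : ⟪R, T' t⟫ = ⟪R - ⟪R, T t⟫ • T t, T' t⟫ := by
    rw [inner_sub_left, inner_smul_left, h0]; simp
  have h2 : ‖R - ⟪R, T t⟫ • T t‖ ^ 2 = 1 - ⟪R, T t⟫ ^ 2 := by
    rw [← real_inner_self_eq_norm_sq, inner_sub_left, inner_sub_right, inner_sub_right,
      inner_smul_left, inner_smul_right, inner_smul_left, inner_smul_right,
      real_inner_self_eq_norm_sq, real_inner_self_eq_norm_sq, hR, hunit,
      real_inner_comm R (T t)]
    simp only [conj_trivial]
    ring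
  rw [← h2, h1]
  have h3 := abs_real_inner_le_norm (R - ⟪R, T t⟫ • T t) (T' t)
  have h4 : |⟪R - ⟪R, T t⟫ • T t, T' t⟫| ^ 2 ≤ (‖R - ⟪R, T t⟫ • T t‖ * ‖T' t‖) ^ 2 :=
    pow_le_pow_left₀ (abs_nonneg _) h3 2
  rw [sq_abs] at h4
  calc _ ≤ _ := h4
    _ = _ := by ring

theorem arcsin_c {T T' : ℝ → E} (hT : ∀ t, HasDerivAt T (T' t) t) (hc : Continuous T')
    (hunit : ∀ t, ‖T t‖ = 1) {R : E} (hR : ‖R‖ = 1) {c : ℝ} (hc0 : 0 < c) (hc1 : c < 1)
    {a b : ℝ} (hab : a ≤ b) :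
    |arcsin (c * ⟪R, T b⟫) - arcsin (c * ⟪R, T a⟫)| ≤ ∫ t in a..b, ‖T' t‖ := by
  set F : ℝ → ℝ := fun t => arcsin (c * ⟪R, T t⟫) with hF
  set G : ℝ → ℝ := fun t => ∫ s in a..t, ‖T' s‖ with hG
  have hnc : Continuous (fun s => ‖T' s‖) := hc.norm
  have hGd : ∀ t, HasDerivAt G (‖T' t‖) t := fun t =>
    intervalIntegral.integral_hasDerivAt_right (hnc.intervalIntegrable _ _)
      (hnc.stronglyMeasurableAtFilter _ _) hnc.continuousAt
  have hh1 : ∀ t, |⟪R, T t⟫| ≤ 1 := fun t => by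
    have := abs_real_inner_le_norm R (T t)
    rw [hR, hunit] at this; linarith
  have hch : ∀ t, |c * ⟪R, T t⟫| < 1 := fun t => by
    rw [abs_mul, abs_of_pos hc0]
    have := hh1 t
    nlinarith [abs_nonneg ⟪R, T t⟫]
  have hFd : ∀ t, HasDerivAt F (1 / √(1 - (c * ⟪R, T t⟫) ^ 2) * (c * ⟪R, T' t⟫)) t := by
    intro t
    have h1 : HasDerivAt (fun t => c * ⟪R, T t⟫) (c * ⟪R, T' t⟫) t := by
      have h2 : HasDerivAt (fun t => ⟪R, T t⟫) (⟪R, T' t⟫ + ⟪(0 : E), T t⟫) t :=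
        (hasDerivAt_const t R).inner ℝ (hT t)
      rw [inner_zero_left, add_zero] at h2
      exact h2.const_mul c
    have h3 := abs_lt.mp (hch t)
    exact (hasDerivAt_arcsin h3.1.ne' h3.2.ne).comp t h1
  have hbound : ∀ t, |1 / √(1 - (c * ⟪R, T t⟫) ^ 2) * (c * ⟪R, T' t⟫)| ≤ ‖T' t‖ := by
    intro t
    have h1 : 0 < 1 - (c * ⟪R, T t⟫) ^ 2 := by
      have := hch t
      have h2 : |c * ⟪R, T t⟫| ^ 2 < 1 := by
        have := abs_nonneg (c * ⟪R, T t⟫)
        nlinarith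
      rw [sq_abs] at h2; linarith
    have h2 : 0 < √(1 - (c * ⟪R, T t⟫) ^ 2) := Real.sqrt_pos.mpr h1
    rw [abs_mul, abs_of_pos (by positivity), one_div, inv_mul_le_iff₀ h2]
    apply abs_le_of_sq_le_sq _ (by positivity)
    rw [mul_pow, mul_pow, Real.sq_sqrt h1.le]
    have h3 := inner_deriv_le hT hunit hR t
    have h4 : c ^ 2 < 1 := by nlinarith
    have h5 : 0 ≤ ‖T' t‖ ^ 2 := sq_nonneg _
    have h6 : 0 ≤ ⟪R, T t⟫ ^ 2 := sq_nonneg _
    calc c ^ 2 * ⟪R, T' t⟫ ^ 2 ≤ c ^ 2 * (‖T' t‖ ^ 2 * (1 - ⟪R, T t⟫ ^ 2)) := by gcongr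
      _ = ‖T' t‖ ^ 2 * (c ^ 2 - (c * ⟪R, T t⟫) ^ 2) := by ring
      _ ≤ ‖T' t‖ ^ 2 * (1 - (c * ⟪R, T t⟫) ^ 2) := by gcongr
      _ = (1 - (c * ⟪R, T t⟫) ^ 2) * ‖T' t‖ ^ 2 := by ring
  have hm1 : Monotone (fun t => G t - F t) := by
    apply monotone_of_deriv_nonneg
    · exact fun t => ((hGd t).sub (hFd t)).differentiableAt
    · intro t
      have hd : HasDerivAt (fun t => G t - F t) _ t := (hGd t).sub (hFd t)
      rw [hd.deriv]
      have := (abs_le.mp (hbound t)).2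
      linarith
  have hm2 : Monotone (fun t => G t + F t) := by
    apply monotone_of_deriv_nonneg
    · exact fun t => ((hGd t).add (hFd t)).differentiableAt
    · intro t
      have hd : HasDerivAt (fun t => G t + F t) _ t := (hGd t).add (hFd t)
      rw [hd.deriv]
      have := (abs_le.mp (hbound t)).1
      linarith
  have h1 := hm1 hab
  have h2 := hm2 hab
  have h0 : G a = 0 := by simp [hG]
  simp only [h0] at h1 h2
  rw [abs_le]
  constructor
  · change -(G b) ≤ F b - F a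
    linarith
  · change F b - F a ≤ G b
    linarith

theorem arcsin_one {T T' : ℝ → E} (hT : ∀ t, HasDerivAt T (T' t) t) (hc : Continuous T')
    (hunit : ∀ t, ‖T t‖ = 1) {R : E} (hR : ‖R‖ = 1) {a b : ℝ} (hab : a ≤ b) :
    |arcsin ⟪R, T b⟫ - arcsin ⟪R, T a⟫| ≤ ∫ t in a..b, ‖T' t‖ := by
  have h1 : Tendsto (fun c : ℝ => |arcsin (c * ⟪R, T b⟫) - arcsin (c * ⟪R, T a⟫)|)
      (𝓝[<] 1) (𝓝 |arcsin (1 * ⟪R, T b⟫) - arcsin (1 * ⟪R, T a⟫)|) := by
    apply Tendsto.mono_left _ nhdsWithin_le_nhds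
    apply Continuous.tendsto
    have := continuous_arcsin
    fun_prop
  rw [one_mul, one_mul] at h1
  apply le_of_tendsto h1
  have h2 : ∀ᶠ c : ℝ in 𝓝[<] 1, c ∈ Ioo (0 : ℝ) 1 := Ioo_mem_nhdsLT one_pos
  filter_upwards [h2] with c hc'
  exact arcsin_c hT hc hunit hR hc'.1 hc'.2 hab

/-- Fenchel's theorem. `γ` is a closed curve with velocity `ρ T`, `|T| = 1`, `ρ > 0`, whose unit
tangent `T` closes up; then `∫ |T'| ≥ 2π`. -/
theorem fenchel {T T' γ : ℝ → E} {ρ : ℝ → ℝ} (hT : ∀ t, HasDerivAt T (T' t) t)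
    (hc : Continuous T') (hunit : ∀ t, ‖T t‖ = 1) {a b : ℝ} (hab : a < b) (hclosed : T a = T b)
    (hγ : ∀ t, HasDerivAt γ (ρ t • T t) t) (hρ : ∀ t, 0 < ρ t) (hγc : γ a = γ b) :
    2 * π ≤ ∫ t in a..b, ‖T' t‖ := by
  by_contra hlt
  push Not at hlt
  set L := ∫ t in a..b, ‖T' t‖ with hL
  have hnc : Continuous (fun s => ‖T' s‖) := hc.norm
  have hTc : Continuous T := continuous_iff_continuousAt.mpr fun t => (hT t).continuousAt
  have hGc : Continuous (fun t => ∫ s in a..t, ‖T' s‖) :=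
    intervalIntegral.continuous_primitive (fun _ _ => hnc.intervalIntegrable _ _) a
  have hL0 : 0 ≤ L := intervalIntegral.integral_nonneg hab.le (fun _ _ => norm_nonneg _)
  obtain ⟨s, hs, hsL⟩ : ∃ s ∈ Icc a b, (∫ t in a..s, ‖T' t‖) = L / 2 := by
    have := intermediate_value_Icc hab.le hGc.continuousOn
    have h1 : L / 2 ∈ Icc (∫ t in a..a, ‖T' t‖) (∫ t in a..b, ‖T' t‖) := by
      rw [intervalIntegral.integral_same]
      constructor <;> linarith
    exact this h1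
  have hadd : (∫ t in a..s, ‖T' t‖) + ∫ t in s..b, ‖T' t‖ = L :=
    intervalIntegral.integral_add_adjacent_intervals (hnc.intervalIntegrable _ _)
      (hnc.intervalIntegrable _ _)
  have hs2 : (∫ t in s..b, ‖T' t‖) = L / 2 := by linarith
  have hpi := Real.pi_pos
  -- P and Q are not antipodal
  have hQP : -1 < ⟪T s, T a⟫ := by
    have h1 := arcsin_one hT hc hunit (hunit s) hs.1
    rw [real_inner_self_eq_norm_sq, hunit, one_pow, Real.arcsin_one, hsL] at h1
    have h2 := (abs_le.mp h1).2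
    by_contra h3
    push Not at h3
    have h4 : arcsin ⟪T s, T a⟫ = -(π / 2) := arcsin_eq_neg_pi_div_two.mpr h3
    rw [h4] at h2
    linarith
  have hkey : ∀ t ∈ Icc a b, ⟪T a + T s, T t⟫ ≠ 0 := by
    intro t ht h0
    have h1 : ⟪T t, T s⟫ = - ⟪T t, T a⟫ := by
      rw [inner_add_left, real_inner_comm, real_inner_comm (T t) (T s)] at h0
      linarith
    have harc1 : arcsin ⟪T t, T t⟫ = π / 2 := by
      rw [real_inner_self_eq_norm_sq, hunit, one_pow, Real.arcsin_one]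
    rcases le_total t s with hts | hts
    · have h2 := arcsin_one hT hc hunit (hunit t) ht.1
      have h3 := arcsin_one hT hc hunit (hunit t) hts
      rw [harc1] at h2 h3
      rw [h1, arcsin_neg] at h3
      have h4 : (∫ x in a..t, ‖T' x‖) + ∫ x in t..s, ‖T' x‖ = L / 2 := by
        rw [intervalIntegral.integral_add_adjacent_intervals (hnc.intervalIntegrable _ _)
          (hnc.intervalIntegrable _ _), hsL]
      have h5 := (abs_le.mp h2).2
      have h6 := (abs_le.mp h3).1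
      linarith
    · have h2 := arcsin_one hT hc hunit (hunit t) hts
      have h3 := arcsin_one hT hc hunit (hunit t) ht.2
      rw [harc1] at h2 h3
      rw [h1, arcsin_neg] at h2
      rw [← hclosed] at h3
      have h4 : (∫ x in s..t, ‖T' x‖) + ∫ x in t..b, ‖T' x‖ = L / 2 := by
        rw [intervalIntegral.integral_add_adjacent_intervals (hnc.intervalIntegrable _ _)
          (hnc.intervalIntegrable _ _), hs2]
      have h5 := (abs_le.mp h2).2
      have h6 := (abs_le.mp h3).1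
      linarith
  have hpos0 : 0 < ⟪T a + T s, T a⟫ := by
    rw [inner_add_left, real_inner_self_eq_norm_sq, hunit]
    linarith
  have hpos : ∀ t ∈ Icc a b, 0 < ⟪T a + T s, T t⟫ := by
    intro t ht
    by_contra hneg
    push Not at hneg
    have hcont : ContinuousOn (fun t => ⟪T a + T s, T t⟫) (Icc a t) :=
      (continuous_const.inner hTc).continuousOn
    have h1 := intermediate_value_Icc' ht.1 hcont
    obtain ⟨x, hx, hx0⟩ := h1 ⟨hneg, hpos0.le⟩
    exact hkey x ⟨hx.1, hx.2.trans ht.2⟩ hx0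
  have hmono : StrictMonoOn (fun t => ⟪T a + T s, γ t⟫) (Icc a b) := by
    have hd : ∀ t, HasDerivAt (fun t => ⟪T a + T s, γ t⟫) (ρ t * ⟪T a + T s, T t⟫) t := by
      intro t
      have h2 : HasDerivAt (fun t => ⟪T a + T s, γ t⟫) (⟪T a + T s, ρ t • T t⟫ +
          ⟪(0 : E), γ t⟫) t := (hasDerivAt_const t _).inner ℝ (hγ t)
      rw [inner_zero_left, add_zero, inner_smul_right] at h2
      exact h2
    apply strictMonoOn_of_deriv_pos (convex_Icc a b)
    · exact fun t _ => (hd t).continuousAt.continuousWithinAt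
    · intro t ht
      rw [interior_Icc] at ht
      rw [(hd t).deriv]
      exact mul_pos (hρ t) (hpos t ⟨ht.1.le, ht.2.le⟩)
  have h1 := hmono (left_mem_Icc.mpr hab.le) (right_mem_Icc.mpr hab.le) hab
  simp only [hγc] at h1
  exact lt_irrefl _ h1

end Pool.Agent.X150.Fenchel
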