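import Mathlib

/-! Definitions for nondegenerate closed curves near multiply traversed circles. -/

open scoped ContDiff

namespace Pool.Agent.X150.NDDefs

/-- A smooth closed curve in `ℝ^n`: a smooth `2π`-periodic map of the line. -/
structure IsSmoothClosed {n : ℕ} (γ : ℝ → EuclideanSpace ℝ (Fin n)) : Prop where
  smooth : ContDiff ℝ ∞ γ
  periodic : Function.Periodic γ (2 * Real.pi)

/-- `γ', γ'', …, γ^(n)` are linearly independent at every point. -/
def Nondegenerate {n : ℕ} (γ : ℝ → EuclideanSpace ℝ (Fin n)) : Prop :=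
  ∀ t, LinearIndependent ℝ (fun i : Fin n => iteratedDeriv ((i : ℕ) + 1) γ t)

/-- The plane unit circle traversed `m` times, `c_m(t) = (cos mt, sin mt, 0, …, 0)`. -/
noncomputable def circ (n m : ℕ) (t : ℝ) : EuclideanSpace ℝ (Fin n) :=
  WithLp.toLp 2 (fun i : Fin n => if (i : ℕ) = 0 then Real.cos (m * t)
    else if (i : ℕ) = 1 then Real.sin (m * t) else 0)

/-- Every `C^∞`-neighbourhood of `c_m` (given by an order `K` and an `ε > 0`) contains a
nondegenerate closed curve in `ℝ^n`. -/
def CanPerturb (n m : ℕ) : Prop :=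
  ∀ (K : ℕ) (ε : ℝ), 0 < ε → ∃ γ : ℝ → EuclideanSpace ℝ (Fin n), IsSmoothClosed γ ∧
    Nondegenerate γ ∧
    ∀ k ≤ K, ∀ t, ‖iteratedDeriv k γ t - iteratedDeriv k (circ n m) t‖ < ε

/-- `μ(n)`: the least `m ≥ 1` such that every `C^∞`-neighbourhood of `c_m` contains a nondegenerate
closed curve in `ℝ^n` (with the convention `0` if there is no such `m`). -/
noncomputable def mu (n : ℕ) : ℕ := sInf {m : ℕ | 1 ≤ m ∧ CanPerturb n m}

end Pool.Agent.X150.NDDefs
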