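import Pool.Agent.X150.NDA
import Pool.Agent.X150.NDDefs

open Real Finset
open scoped ContDiff

namespace Pool.Agent.X150.ND

open Pool.Agent.X150.NDDefs

/-- a continuous linear map commutes with iterated derivatives -/
theorem clm_iteratedDeriv {E F : Type*} [NormedAddCommGroup E] [NormedSpace ℝ E]
    [NormedAddCommGroup F] [NormedSpace ℝ F] (L : E →L[ℝ] F) {f : ℝ → E} (hf : ContDiff ℝ ∞ f)
    (k : ℕ) (t : ℝ) : iteratedDeriv k (fun t => L (f t)) t = L (iteratedDeriv k f t) := by
  induction k generalizing t with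
  | zero => simp
  | succ k ih =>
    rw [iteratedDeriv_succ, iteratedDeriv_succ]
    have h1 : iteratedDeriv k (fun t => L (f t)) = fun t => L (iteratedDeriv k f t) := funext ih
    rw [h1]
    have h2 : Differentiable ℝ (iteratedDeriv k f) :=
      (contDiff_iff_iteratedDeriv.mp hf).2 k (by exact_mod_cast ENat.natCast_lt_top k)
    exact (L.hasFDerivAt.comp_hasDerivAt t (h2 t).hasDerivAt).deriv

theorem iteratedDeriv_contDiff {E : Type*} [NormedAddCommGroup E] [NormedSpace ℝ E]
    {f : ℝ → E} (hf : ContDiff ℝ ∞ f) (k : ℕ) : ContDiff ℝ ∞ (iteratedDeriv k f) := by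
  induction k with
  | zero => simpa using hf
  | succ k ih =>
    rw [iteratedDeriv_succ]
    exact (contDiff_infty_iff_deriv.mp ih).2

theorem iteratedDeriv_periodic {E : Type*} [NormedAddCommGroup E] [NormedSpace ℝ E]
    {f : ℝ → E} {T : ℝ} (hf : Function.Periodic f T) (k : ℕ) :
    Function.Periodic (iteratedDeriv k f) T := by
  intro t
  have h1 : (fun s => f (s + T)) = f := funext hf
  have h2 := congrFun (iteratedDeriv_comp_add_const k f T) t
  rw [h1] at h2
  exact h2.symm

theorem periodic_bounded {E : Type*} [NormedAddCommGroup E]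
    {f : ℝ → E} (hc : Continuous f) (hf : Function.Periodic f (2 * π)) : ∃ B, ∀ t, ‖f t‖ ≤ B := by
  obtain ⟨B, hB⟩ := (isCompact_Icc (a := (0:ℝ)) (b := 2 * π)).exists_bound_of_continuousOn
    hc.continuousOn
  refine ⟨B, fun t => ?_⟩
  obtain ⟨y, hy, hty⟩ := hf.exists_mem_Ico₀ (by positivity) t
  rw [hty]
  exact hB y ⟨hy.1, hy.2.le⟩

/-- velocity form of nondegeneracy implies nondegeneracy -/
theorem nondegenerate_of_ND {n : ℕ} {V : Fin n → ℝ → ℝ} (hV : ND n V)
    {γ : ℝ → EuclideanSpace ℝ (Fin n)} (hγ : ContDiff ℝ ∞ γ)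
    (hd : ∀ j t, HasDerivAt (fun t => γ t j) (V j t) t) : Nondegenerate γ := by
  intro t
  apply linearIndependent_of_top_le_span_of_card_eq_finrank
  swap
  · simp
  rw [top_le_iff, ← Submodule.orthogonal_eq_bot_iff, Submodule.eq_bot_iff]
  intro c hc
  rw [Submodule.mem_orthogonal] at hc
  have hc' : ∀ i : Fin n, inner ℝ (iteratedDeriv ((i : ℕ) + 1) γ t) c = 0 := fun i =>
    hc _ (Submodule.subset_span ⟨i, rfl⟩)
  have h0 : (fun j => c j) = (0 : Fin n → ℝ) := by
    apply hV.2 t
    intro i hi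
    have h1 := hc' ⟨i, hi⟩
    simp only at h1
    rw [iteratedDeriv_succ'] at h1
    have hγ' : ContDiff ℝ ∞ (deriv γ) := (contDiff_infty_iff_deriv.mp hγ).2
    have h2 := clm_iteratedDeriv (innerSL ℝ c) hγ' i t
    have h3 : (fun t => (innerSL ℝ c) (deriv γ t)) = fun t => ∑ j, c j * V j t := by
      funext s
      rw [innerSL_apply_apply, PiLp.inner_apply]
      apply Finset.sum_congr rfl
      intro j _
      have h4 : (deriv γ s) j = V j s := by
        have hdiff : HasDerivAt γ (deriv γ s) s :=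
          ((hγ.differentiable (by simp)) s).hasDerivAt
        have h5 : HasDerivAt (fun s => γ s j) ((deriv γ s) j) s :=
          (EuclideanSpace.proj (𝕜 := ℝ) j).hasFDerivAt.comp_hasDerivAt s hdiff
        exact h5.unique (hd j s)
      rw [h4]
      simp [mul_comm]
    rw [h3, innerSL_apply_apply, real_inner_comm, h1] at h2
    exact h2
  ext j
  exact congrFun h0 j

/-- the perturbed curve in dimension `k + 2` -/
noncomputable def crv {k : ℕ} (f : Fin k → ℝ → ℝ) (ε : ℝ) (t : ℝ) :
    EuclideanSpace ℝ (Fin (k + 2)) :=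
  WithLp.toLp 2 (Fin.cons (cos t) (Fin.cons (sin t) (fun j => ε * f j t)))

noncomputable def pert {k : ℕ} (f : Fin k → ℝ → ℝ) (t : ℝ) :
    EuclideanSpace ℝ (Fin (k + 2)) :=
  WithLp.toLp 2 (Fin.cons 0 (Fin.cons 0 (fun j => f j t)))

theorem crv_eq {k : ℕ} (f : Fin k → ℝ → ℝ) (ε : ℝ) :
    crv f ε = fun t => circ (k + 2) 1 t + ε • pert f t := by
  funext t
  ext j
  refine Fin.cases ?_ (fun j => ?_) j
  · simp [crv, circ, pert]
  · refine Fin.cases ?_ (fun j => ?_) j
    · simp [crv, circ, pert]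
    · simp [crv, circ, pert]

theorem contDiff_circ (n m : ℕ) : ContDiff ℝ ∞ (circ n m) := by
  rw [contDiff_euclidean]
  intro i
  unfold circ
  simp only
  split_ifs
  · fun_prop
  · fun_prop
  · fun_prop

theorem contDiff_pert {k : ℕ} {f : Fin k → ℝ → ℝ} (hf : ∀ j, ContDiff ℝ ∞ (f j)) :
    ContDiff ℝ ∞ (pert f) := by
  rw [contDiff_euclidean]
  intro j
  refine Fin.cases ?_ (fun j => ?_) j
  · simp only [pert, Fin.cons_zero]; fun_prop
  · refine Fin.cases ?_ (fun j => ?_) j
    · simp only [pert, Fin.cons_succ, Fin.cons_zero]; fun_prop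
    · simp only [pert, Fin.cons_succ]; exact hf j

theorem canPerturb_one (k : ℕ) (hk : 2 ≤ k) : CanPerturb (k + 2) 1 := by
  intro K ε hε
  obtain ⟨V, hV⟩ := exists_ND k hk
  choose w hw hwV using fun j => (hV.1 j).solve
  choose f hf hfw using fun j => (hw j).prim
  have hfc : ∀ j, ContDiff ℝ ∞ (f j) := fun j => (hf j).contDiff
  have hpc : ContDiff ℝ ∞ (pert f) := contDiff_pert hfc
  have hpp : Function.Periodic (pert f) (2 * π) := by
    intro t
    ext j
    refine Fin.cases ?_ (fun j => ?_) j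
    · simp [pert]
    · refine Fin.cases ?_ (fun j => ?_) j
      · simp [pert]
      · simp only [pert, Fin.cons_succ]; exact (hf j).periodic t
  -- bounds
  have hB : ∀ k : ℕ, ∃ B, ∀ t, ‖iteratedDeriv k (pert f) t‖ ≤ B := fun k =>
    periodic_bounded (iteratedDeriv_contDiff hpc k).continuous (iteratedDeriv_periodic hpp k)
  choose B hB using hB
  obtain ⟨C, hC⟩ : ∃ C, ∀ k ≤ K, B k ≤ C := by
    refine ⟨∑ k ∈ range (K + 1), |B k|, fun k hk => ?_⟩
    calc B k ≤ |B k| := le_abs_self _
      _ ≤ ∑ k ∈ range (K + 1), |B k| :=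
        Finset.single_le_sum (f := fun k => |B k|) (fun _ _ => abs_nonneg _)
          (Finset.mem_range.mpr (by omega))
  set e : ℝ := ε / (|C| + 1) with he
  have hepos : 0 < e := by positivity
  have hcs : ContDiff ℝ ∞ (crv f e) := by
    rw [crv_eq]
    exact (contDiff_circ _ _).add (hpc.const_smul e)
  refine ⟨crv f e, ⟨hcs, ?_⟩, ?_, ?_⟩
  · intro t
    rw [crv_eq]
    simp only
    rw [hpp t]
    congr 1
    ext j
    simp only [circ, Nat.cast_one, one_mul, cos_add_two_pi, sin_add_two_pi]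
  · apply nondegenerate_of_ND (step hV hw hwV hepos.ne') hcs
    intro j t
    refine Fin.cases ?_ (fun j => ?_) j
    · exact Real.hasDerivAt_cos t
    · refine Fin.cases ?_ (fun j => ?_) j
      · exact Real.hasDerivAt_sin t
      · exact (hfw j t).const_mul e
  · intro k hk t
    have h1 : iteratedDeriv k (crv f e) t - iteratedDeriv k (circ (_ + 2) 1) t =
        e • iteratedDeriv k (pert f) t := by
      rw [crv_eq, iteratedDeriv_fun_add
        ((contDiff_circ _ _).contDiffAt.of_le (by exact_mod_cast le_top))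
        ((hpc.const_smul e).contDiffAt.of_le (by exact_mod_cast le_top)),
        iteratedDeriv_fun_const_smul_field]
      abel
    rw [h1, norm_smul, Real.norm_eq_abs, abs_of_pos hepos]
    have h2 : ‖iteratedDeriv k (pert f) t‖ ≤ |C| := ((hB k t).trans (hC k hk)).trans (le_abs_self C)
    calc e * ‖iteratedDeriv k (pert f) t‖ ≤ e * |C| := by gcongr
      _ < e * (|C| + 1) := by nlinarith
      _ = ε := by rw [he]; field_simp

theorem mu_eq_one (n : ℕ) (hn : 4 ≤ n) : mu n = 1 := by
  obtain ⟨k, rfl⟩ : ∃ k, n = k + 2 := ⟨n - 2, by omega⟩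
  have h1 : (1 : ℕ) ∈ {m : ℕ | 1 ≤ m ∧ CanPerturb (k + 2) m} :=
    ⟨le_rfl, canPerturb_one k (by omega)⟩
  have h2 : mu (k + 2) ≤ 1 := Nat.sInf_le h1
  have h3 : 1 ≤ mu (k + 2) := (Nat.sInf_mem ⟨1, h1⟩).1
  omega

end Pool.Agent.X150.ND
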