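import Pool.Agent.X150.FrenetDefs
import Pool.Agent.X150.Fenchel
import Pool.Agent.X150.NDB

open Real Finset MeasureTheory
open scoped ContDiff RealInnerProductSpace

namespace Pool.Agent.X150.Frenet

open Pool.Agent.X150.NDDefs Pool.Agent.X150.ND InnerProductSpace

variable {n : ℕ} {γ : ℝ → EuclideanSpace ℝ (Fin n)}

theorem gs_contDiff (hs : ContDiff ℝ ∞ γ) (hnd : Nondegenerate γ) (i : Fin n) :
    ContDiff ℝ ∞ (fun t => gramSchmidt ℝ (fun i : Fin n => iteratedDeriv ((i : ℕ) + 1) γ t) i) := by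
  induction i using WellFoundedLT.induction with
  | _ i ih =>
    have h1 : (fun t => gramSchmidt ℝ (fun i : Fin n => iteratedDeriv ((i : ℕ) + 1) γ t) i) =
        fun t => iteratedDeriv ((i : ℕ) + 1) γ t - ∑ j ∈ Iio i,
          (⟪gramSchmidt ℝ (fun i : Fin n => iteratedDeriv ((i : ℕ) + 1) γ t) j,
            iteratedDeriv ((i : ℕ) + 1) γ t⟫ /
            (‖gramSchmidt ℝ (fun i : Fin n => iteratedDeriv ((i : ℕ) + 1) γ t) j‖) ^ 2) •
            gramSchmidt ℝ (fun i : Fin n => iteratedDeriv ((i : ℕ) + 1) γ t) j := by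
      funext t
      have := gramSchmidt_def'' ℝ (fun i : Fin n => iteratedDeriv ((i : ℕ) + 1) γ t) i
      rw [eq_sub_iff_add_eq]
      exact this.symm
    rw [h1]
    apply (iteratedDeriv_contDiff hs _).sub
    apply ContDiff.sum
    intro j hj
    have hj' := ih j (Finset.mem_Iio.mp hj)
    apply ContDiff.fun_smul _ hj'
    apply ContDiff.fun_div
    · exact hj'.inner ℝ (iteratedDeriv_contDiff hs _)
    · exact (hj'.norm ℝ (fun t => gramSchmidt_ne_zero j (hnd t))).pow 2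
    · intro t
      have := norm_pos_iff.mpr (gramSchmidt_ne_zero j (hnd t))
      positivity

theorem e_contDiff (hs : ContDiff ℝ ∞ γ) (hnd : Nondegenerate γ) (i : Fin n) :
    ContDiff ℝ ∞ (fun t => frenet γ t i) := by
  unfold frenet gramSchmidtNormed
  apply ContDiff.fun_smul _ (gs_contDiff hs hnd i)
  exact ((gs_contDiff hs hnd i).norm ℝ (fun t => gramSchmidt_ne_zero i (hnd t))).inv
    (fun t => by
      have := norm_pos_iff.mpr (gramSchmidt_ne_zero i (hnd t))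
      exact this.ne')

theorem e_orth (hnd : Nondegenerate γ) (t : ℝ) : Orthonormal ℝ (frenet γ t) :=
  gramSchmidtNormed_orthonormal (hnd t)

theorem e_tri {i j : Fin n} (hij : i < j) (t : ℝ) :
    ⟪frenet γ t j, iteratedDeriv ((i : ℕ) + 1) γ t⟫ = 0 := by
  unfold frenet gramSchmidtNormed
  rw [inner_smul_left]
  have := gramSchmidt_inv_triangular ℝ (fun i : Fin n => iteratedDeriv ((i : ℕ) + 1) γ t) hij
  rw [this, mul_zero]

theorem e_diag (hnd : Nondegenerate γ) (i : Fin n) (t : ℝ) :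
    ⟪frenet γ t i, iteratedDeriv ((i : ℕ) + 1) γ t⟫ ≠ 0 := by
  set f : Fin n → EuclideanSpace ℝ (Fin n) := fun i : Fin n => iteratedDeriv ((i : ℕ) + 1) γ t
  have h0 := gramSchmidt_ne_zero i (hnd t)
  have h1 : ⟪gramSchmidt ℝ f i, f i⟫ = ‖gramSchmidt ℝ f i‖ ^ 2 := by
    have h2 := gramSchmidt_def'' ℝ f i
    have h3 : ⟪gramSchmidt ℝ f i, f i⟫ = ⟪gramSchmidt ℝ f i, gramSchmidt ℝ f i + ∑ j ∈ Iio i,
      (⟪gramSchmidt ℝ f j, f i⟫ / (‖gramSchmidt ℝ f j‖) ^ 2) • gramSchmidt ℝ f j⟫ :=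
        congrArg (fun v => ⟪gramSchmidt ℝ f i, v⟫) h2
    rw [h3, inner_add_right, inner_sum, real_inner_self_eq_norm_sq]
    rw [Finset.sum_eq_zero, add_zero]
    intro j hj
    rw [inner_smul_right, gramSchmidt_orthogonal ℝ f (Finset.mem_Iio.mp hj).ne', mul_zero]
  have h2 : 0 < ‖gramSchmidt ℝ f i‖ := norm_pos_iff.mpr h0
  change ⟪(‖gramSchmidt ℝ f i‖)⁻¹ • gramSchmidt ℝ f i, f i⟫ ≠ 0
  rw [inner_smul_left, h1]
  simp only [conj_trivial]
  positivity

theorem f_deriv (hs : ContDiff ℝ ∞ γ) (k : ℕ) (t : ℝ) :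
    HasDerivAt (iteratedDeriv k γ) (iteratedDeriv (k + 1) γ t) t := by
  rw [iteratedDeriv_succ]
  exact ((iteratedDeriv_contDiff hs k).differentiable (by simp) t).hasDerivAt

theorem e_deriv (hs : ContDiff ℝ ∞ γ) (hnd : Nondegenerate γ) (i : Fin n) (t : ℝ) :
    HasDerivAt (fun t => frenet γ t i) (deriv (fun t => frenet γ t i) t) t :=
  ((e_contDiff hs hnd i).differentiable (by simp) t).hasDerivAt

/-- antisymmetry -/
theorem antisymm (hs : ContDiff ℝ ∞ γ) (hnd : Nondegenerate γ) (i j : Fin n) (t : ℝ) :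
    ⟪deriv (fun t => frenet γ t i) t, frenet γ t j⟫ =
      - ⟪deriv (fun t => frenet γ t j) t, frenet γ t i⟫ := by
  have h1 : HasDerivAt (fun t => ⟪frenet γ t i, frenet γ t j⟫)
      (⟪frenet γ t i, deriv (fun t => frenet γ t j) t⟫ +
        ⟪deriv (fun t => frenet γ t i) t, frenet γ t j⟫) t :=
    (e_deriv hs hnd i t).inner ℝ (e_deriv hs hnd j t)
  have h2 : (fun t => ⟪frenet γ t i, frenet γ t j⟫) = fun _ => if i = j then (1 : ℝ) else 0 := by
    funext t
    exact orthonormal_iff_ite.mp (e_orth hnd t) i j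
  rw [h2] at h1
  have h3 := h1.unique (hasDerivAt_const t _)
  rw [real_inner_comm (deriv (fun t => frenet γ t j) t)] at h3
  linarith

/-- derivative of a vanishing inner product -/
theorem deriv_tri (hs : ContDiff ℝ ∞ γ) (hnd : Nondegenerate γ) {i j : Fin n} (hij : i < j)
    (t : ℝ) : ⟪deriv (fun t => frenet γ t j) t, iteratedDeriv ((i : ℕ) + 1) γ t⟫ =
      - ⟪frenet γ t j, iteratedDeriv ((i : ℕ) + 2) γ t⟫ := by
  have h1 : HasDerivAt (fun t => ⟪frenet γ t j, iteratedDeriv ((i : ℕ) + 1) γ t⟫)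
      (⟪frenet γ t j, iteratedDeriv ((i : ℕ) + 1 + 1) γ t⟫ +
        ⟪deriv (fun t => frenet γ t j) t, iteratedDeriv ((i : ℕ) + 1) γ t⟫) t :=
    (e_deriv hs hnd j t).inner ℝ (f_deriv hs _ t)
  have h2 : (fun t => ⟪frenet γ t j, iteratedDeriv ((i : ℕ) + 1) γ t⟫) = fun _ => (0 : ℝ) := by
    funext t
    exact e_tri hij t
  rw [h2] at h1
  have h3 := h1.unique (hasDerivAt_const t _)
  linarith

section four

variable {N : ℕ} {γ : ℝ → EuclideanSpace ℝ (Fin (N + 4))}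

abbrev i0 (N : ℕ) : Fin (N + 4) := ⟨0, by omega⟩
abbrev i1 (N : ℕ) : Fin (N + 4) := ⟨1, by omega⟩
abbrev i2 (N : ℕ) : Fin (N + 4) := ⟨2, by omega⟩

theorem dγ_ne (hnd : Nondegenerate γ) (t : ℝ) : deriv γ t ≠ 0 := by
  have := (hnd t).ne_zero (i0 N)
  simp only [zero_add, iteratedDeriv_one] at this
  exact this

theorem e0_eq (t : ℝ) : frenet γ t (i0 N) = ‖deriv γ t‖⁻¹ • deriv γ t := by
  unfold frenet gramSchmidtNormed
  have h : gramSchmidt ℝ (fun i : Fin (N + 4) => iteratedDeriv ((i : ℕ) + 1) γ t) (i0 N) =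
      deriv γ t := by
    have := gramSchmidt_bot ℝ (fun i : Fin (N + 4) => iteratedDeriv ((i : ℕ) + 1) γ t)
    have h2 : (⊥ : Fin (N + 4)) = i0 N := rfl
    rw [h2] at this
    rw [this]
    simp
  rw [h]
  simp

theorem f0_eq (hnd : Nondegenerate γ) (t : ℝ) :
    deriv γ t = ‖deriv γ t‖ • frenet γ t (i0 N) := by
  rw [e0_eq, smul_smul, mul_inv_cancel₀ (norm_ne_zero_iff.mpr (dγ_ne hnd t)), one_smul]

theorem f1_eq (hnd : Nondegenerate γ) (t : ℝ) : ∃ a b : ℝ, iteratedDeriv 2 γ t =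
    a • frenet γ t (i0 N) + b • frenet γ t (i1 N) := by
  set f : Fin (N + 4) → EuclideanSpace ℝ (Fin (N + 4)) :=
    fun i => iteratedDeriv ((i : ℕ) + 1) γ t with hf
  have h1 := gramSchmidt_def'' ℝ f (i1 N)
  have h2 : Finset.Iio (i1 N) = {i0 N} := by
    ext i
    simp only [Finset.mem_Iio, Finset.mem_singleton, Fin.lt_def, Fin.ext_iff]
    omega
  rw [h2, Finset.sum_singleton] at h1
  have hn0 : ‖gramSchmidt ℝ f (i0 N)‖ ≠ 0 := norm_ne_zero_iff.mpr (gramSchmidt_ne_zero _ (hnd t))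
  have hn1 : ‖gramSchmidt ℝ f (i1 N)‖ ≠ 0 := norm_ne_zero_iff.mpr (gramSchmidt_ne_zero _ (hnd t))
  have g0 : gramSchmidt ℝ f (i0 N) = ‖gramSchmidt ℝ f (i0 N)‖ • frenet γ t (i0 N) := by
    change _ = ‖gramSchmidt ℝ f (i0 N)‖ • ((‖gramSchmidt ℝ f (i0 N)‖)⁻¹ • gramSchmidt ℝ f (i0 N))
    rw [smul_smul, mul_inv_cancel₀ hn0, one_smul]
  have g1 : gramSchmidt ℝ f (i1 N) = ‖gramSchmidt ℝ f (i1 N)‖ • frenet γ t (i1 N) := by
    change _ = ‖gramSchmidt ℝ f (i1 N)‖ • ((‖gramSchmidt ℝ f (i1 N)‖)⁻¹ • gramSchmidt ℝ f (i1 N))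
    rw [smul_smul, mul_inv_cancel₀ hn1, one_smul]
  refine ⟨(⟪gramSchmidt ℝ f (i0 N), f (i1 N)⟫ / (‖gramSchmidt ℝ f (i0 N)‖) ^ 2) *
    ‖gramSchmidt ℝ f (i0 N)‖, ‖gramSchmidt ℝ f (i1 N)‖, ?_⟩
  have h3 : iteratedDeriv 2 γ t = f (i1 N) := rfl
  rw [h3, mul_smul, ← g0, ← g1]
  exact h1.trans (add_comm _ _)

/-- the derivative of the unit tangent -/
theorem de0_norm (hs : ContDiff ℝ ∞ γ) (hnd : Nondegenerate γ) (t : ℝ) :
    ‖deriv (fun t => frenet γ t (i0 N)) t‖ =
      |⟪deriv (fun t => frenet γ t (i0 N)) t, frenet γ t (i1 N)⟫| := by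
  -- `r = 1 / |γ'|`
  have hr : Differentiable ℝ (fun t => ‖deriv γ t‖⁻¹) := by
    have hd : ContDiff ℝ ∞ (deriv γ) := (contDiff_infty_iff_deriv.mp hs).2
    have h1 := (hd.norm ℝ (dγ_ne hnd)).inv (fun t => norm_ne_zero_iff.mpr (dγ_ne hnd t))
    exact h1.differentiable (by simp)
  have hf0 : HasDerivAt (deriv γ) (iteratedDeriv 2 γ t) t := by
    have := f_deriv hs 1 t
    rw [iteratedDeriv_one] at this
    exact this
  have h1 : HasDerivAt (fun t => frenet γ t (i0 N))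
      (‖deriv γ t‖⁻¹ • iteratedDeriv 2 γ t + deriv (fun t => ‖deriv γ t‖⁻¹) t • deriv γ t) t := by
    have h2 : (fun t => frenet γ t (i0 N)) = fun t => ‖deriv γ t‖⁻¹ • deriv γ t := by
      funext t; exact e0_eq t
    rw [h2]
    exact (hr t).hasDerivAt.smul hf0
  obtain ⟨a, b, hab⟩ := f1_eq hnd t
  set v := deriv (fun t => frenet γ t (i0 N)) t with hv
  have h2 : v = (‖deriv γ t‖⁻¹ * a + deriv (fun t => ‖deriv γ t‖⁻¹) t * ‖deriv γ t‖) •
      frenet γ t (i0 N) + (‖deriv γ t‖⁻¹ * b) • frenet γ t (i1 N) := by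
    have h5 : deriv (fun t => ‖deriv γ t‖⁻¹) t • deriv γ t =
      deriv (fun t => ‖deriv γ t‖⁻¹) t • (‖deriv γ t‖ • frenet γ t (i0 N)) :=
        congrArg (fun x => deriv (fun t => ‖deriv γ t‖⁻¹) t • x) (f0_eq hnd t)
    rw [hv, h1.deriv, hab, h5]
    module
  set α := ‖deriv γ t‖⁻¹ * a + deriv (fun t => ‖deriv γ t‖⁻¹) t * ‖deriv γ t‖
  set β := ‖deriv γ t‖⁻¹ * b
  have ho := orthonormal_iff_ite.mp (e_orth hnd t)
  have h00 : ⟪frenet γ t (i0 N), frenet γ t (i0 N)⟫ = 1 := by rw [ho]; simp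
  have h11 : ⟪frenet γ t (i1 N), frenet γ t (i1 N)⟫ = 1 := by rw [ho]; simp
  have h01 : ⟪frenet γ t (i0 N), frenet γ t (i1 N)⟫ = 0 := by
    rw [ho, if_neg]; simp [i0, i1]
  have h10 : ⟪frenet γ t (i1 N), frenet γ t (i0 N)⟫ = 0 := by rw [real_inner_comm, h01]
  have hα : α = 0 := by
    have h3 := antisymm hs hnd (i0 N) (i0 N) t
    rw [← hv] at h3
    have h4 : ⟪v, frenet γ t (i0 N)⟫ = α := by
      rw [h2, inner_add_left, inner_smul_left, inner_smul_left, h00, h10]; simp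
    linarith
  rw [hα, zero_smul, zero_add] at h2
  rw [h2, norm_smul, inner_smul_left, h11, (e_orth hnd t).1 (i1 N)]
  simp

/-- the second curvature does not vanish -/
theorem kappa2_ne (hs : ContDiff ℝ ∞ γ) (hnd : Nondegenerate γ) (t : ℝ) :
    ⟪deriv (fun t => frenet γ t (i1 N)) t, frenet γ t (i2 N)⟫ ≠ 0 := by
  have h02 : i0 N < i2 N := by simp [Fin.lt_def]
  have h12 : i1 N < i2 N := by simp [Fin.lt_def]
  have h1 := deriv_tri hs hnd h02 t
  have h2 : ⟪frenet γ t (i2 N), iteratedDeriv 2 γ t⟫ = 0 := e_tri h12 t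
  have h3 := deriv_tri hs hnd h12 t
  have h4 : ⟪frenet γ t (i2 N), iteratedDeriv 3 γ t⟫ ≠ 0 := e_diag hnd (i2 N) t
  simp only [zero_add] at h1
  rw [h2, iteratedDeriv_one, f0_eq hnd t, inner_smul_right] at h1
  have h5 : ⟪deriv (fun t => frenet γ t (i2 N)) t, frenet γ t (i0 N)⟫ = 0 := by
    have := norm_ne_zero_iff.mpr (dγ_ne hnd t)
    rw [neg_zero] at h1
    exact (mul_eq_zero.mp h1).resolve_left this
  obtain ⟨a, b, hab⟩ := f1_eq hnd t
  change ⟪deriv (fun t => frenet γ t (i2 N)) t, iteratedDeriv 2 γ t⟫ =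
    - ⟪frenet γ t (i2 N), iteratedDeriv 3 γ t⟫ at h3
  rw [hab, inner_add_right, inner_smul_right, inner_smul_right, h5, mul_zero, zero_add] at h3
  rw [antisymm hs hnd (i1 N) (i2 N) t]
  intro h6
  rw [neg_eq_zero] at h6
  rw [h6, mul_zero] at h3
  apply h4
  linarith

theorem curvature_cont (hs : ContDiff ℝ ∞ γ) (hnd : Nondegenerate γ) (i : Fin (N + 4 - 1)) :
    Continuous (curvature γ i) := by
  unfold curvature
  have h1 : Continuous (deriv (fun s => frenet γ s ⟨(i : ℕ), by omega⟩)) :=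
    (contDiff_infty_iff_deriv.mp (e_contDiff hs hnd _)).2.continuous
  have h2 : Continuous (fun t => frenet γ t ⟨(i : ℕ) + 1, by omega⟩) :=
    (e_contDiff hs hnd _).continuous
  have h3 : Continuous (fun t => ‖deriv γ t‖) :=
    (contDiff_infty_iff_deriv.mp hs).2.continuous.norm
  exact (h1.inner h2).div h3 (fun t => norm_ne_zero_iff.mpr (dγ_ne hnd t))

theorem frame_length_gt (hc : IsSmoothClosed γ) (hnd : Nondegenerate γ) :
    2 * π < frameLength γ := by
  have hs := hc.smooth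
  have hpi := Real.pi_pos
  have hdc : Continuous (deriv γ) := (contDiff_infty_iff_deriv.mp hs).2.continuous
  -- Fenchel
  have hper : ∀ t, frenet γ (t + 2 * π) = frenet γ t := by
    intro t
    unfold frenet
    congr 1
    funext i
    exact iteratedDeriv_periodic hc.periodic _ t
  have hF : 2 * π ≤ ∫ t in (0 : ℝ)..(2 * π), ‖deriv (fun t => frenet γ t (i0 N)) t‖ := by
    apply Fenchel.fenchel (T := fun t => frenet γ t (i0 N)) (γ := γ) (ρ := fun t => ‖deriv γ t‖)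
    · exact fun t => e_deriv hs hnd (i0 N) t
    · exact (contDiff_infty_iff_deriv.mp (e_contDiff hs hnd _)).2.continuous
    · exact fun t => (e_orth hnd t).1 (i0 N)
    · positivity
    · have := hper 0
      rw [zero_add] at this
      simp only [this]
    · intro t
      rw [← f0_eq hnd t]
      exact ((hs.differentiable (by simp)) t).hasDerivAt
    · exact fun t => norm_pos_iff.mpr (dγ_ne hnd t)
    · have := hc.periodic 0
      rw [zero_add] at this
      exact this.symm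
  refine lt_of_le_of_lt hF ?_
  -- pointwise comparison
  have hpt : ∀ t, ‖deriv (fun t => frenet γ t (i0 N)) t‖ <
      √(∑ i : Fin (N + 4 - 1), curvature γ i t ^ 2) * ‖deriv γ t‖ := by
    intro t
    have hpos : 0 < ‖deriv γ t‖ := norm_pos_iff.mpr (dγ_ne hnd t)
    let j0 : Fin (N + 4 - 1) := ⟨0, by omega⟩
    let j1 : Fin (N + 4 - 1) := ⟨1, by omega⟩
    have hj : j0 ≠ j1 := by
      intro h; have := congrArg Fin.val h; simp [j0, j1] at this
    have hsum : curvature γ j0 t ^ 2 + curvature γ j1 t ^ 2 ≤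
        ∑ i : Fin (N + 4 - 1), curvature γ i t ^ 2 := by
      rw [← Finset.sum_pair (f := fun i => curvature γ i t ^ 2) hj]
      exact Finset.sum_le_sum_of_subset_of_nonneg (Finset.subset_univ _)
        (fun i _ _ => sq_nonneg _)
    have hk0 : ‖deriv (fun t => frenet γ t (i0 N)) t‖ = |curvature γ j0 t| * ‖deriv γ t‖ := by
      rw [de0_norm hs hnd t]
      have : curvature γ j0 t = ⟪deriv (fun t => frenet γ t (i0 N)) t, frenet γ t (i1 N)⟫ /
        ‖deriv γ t‖ := rfl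
      rw [this, abs_div, abs_of_pos hpos, div_mul_cancel₀ _ hpos.ne']
    have hk1 : curvature γ j1 t ≠ 0 := by
      have : curvature γ j1 t = ⟪deriv (fun t => frenet γ t (i1 N)) t, frenet γ t (i2 N)⟫ /
        ‖deriv γ t‖ := rfl
      rw [this]
      exact div_ne_zero (kappa2_ne hs hnd t) hpos.ne'
    rw [hk0]
    apply mul_lt_mul_of_pos_right _ hpos
    rw [← Real.sqrt_sq_eq_abs]
    apply Real.sqrt_lt_sqrt (sq_nonneg _)
    have : 0 < curvature γ j1 t ^ 2 := by positivity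
    linarith
  have hcont1 : Continuous (fun t => ‖deriv (fun t => frenet γ t (i0 N)) t‖) :=
    (contDiff_infty_iff_deriv.mp (e_contDiff hs hnd _)).2.continuous.norm
  have hcont2 : Continuous (fun t => √(∑ i : Fin (N + 4 - 1), curvature γ i t ^ 2) *
      ‖deriv γ t‖) := by
    apply Continuous.mul _ hdc.norm
    apply Continuous.sqrt
    exact continuous_finsetSum _ (fun i _ => (curvature_cont hs hnd i).pow 2)
  exact intervalIntegral.integral_lt_integral_of_continuousOn_of_le_of_exists_lt (by positivity)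
    hcont1.continuousOn hcont2.continuousOn (fun t _ => (hpt t).le)
    ⟨0, ⟨le_rfl, by positivity⟩, hpt 0⟩

end four

end Pool.Agent.X150.Frenet
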