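import Pool.Agent.X150.NDDefs

/-! Definitions: Frenet frame, curvatures and length of the frame. -/

open scoped RealInnerProductSpace

namespace Pool.Agent.X150.NDDefs

/-- The Frenet frame `e_1(t), …, e_n(t)` (here indexed from `0`): Gram-Schmidt orthonormalisation of
`γ'(t), …, γ^(n)(t)`. -/
noncomputable def frenet {n : ℕ} (γ : ℝ → EuclideanSpace ℝ (Fin n)) (t : ℝ) :
    Fin n → EuclideanSpace ℝ (Fin n) :=
  InnerProductSpace.gramSchmidtNormed ℝ (fun i : Fin n => iteratedDeriv ((i : ℕ) + 1) γ t)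

/-- The curvatures `κ_1, …, κ_{n-1}` (here indexed from `0`): `κ_i = ⟪d e_i / d s, e_{i+1}⟫`, where
`s` is arc length, `ds = |γ'(t)| dt`. -/
noncomputable def curvature {n : ℕ} (γ : ℝ → EuclideanSpace ℝ (Fin n)) (i : Fin (n - 1)) (t : ℝ) :
    ℝ :=
  ⟪deriv (fun s => frenet γ s ⟨i, by omega⟩) t, frenet γ t ⟨i + 1, by omega⟩⟫ / ‖deriv γ t‖

/-- The length of the Frenet frame over one period,
`L(E) = ∫ (κ_1^2 + ⋯ + κ_{n-1}^2)^{1/2} ds`. -/
noncomputable def frameLength {n : ℕ} (γ : ℝ → EuclideanSpace ℝ (Fin n)) : ℝ :=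
  ∫ t in (0 : ℝ)..(2 * Real.pi), √(∑ i : Fin (n - 1), curvature γ i t ^ 2) * ‖deriv γ t‖

end Pool.Agent.X150.NDDefs
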