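import Mathlib

/-! Support functions in the plane and angles of sight. -/

open Real Set

namespace Pool.Agent.X150.Iso

abbrev E := EuclideanSpace ℝ (Fin 2)

/-- The angle of sight of `S` at `P`: supremum of the angles `∠ x P y`, `x, y ∈ S`. -/
noncomputable def sight (S : Set E) (P : E) : ℝ :=
  sSup {a : ℝ | ∃ x ∈ S, ∃ y ∈ S, a = EuclideanGeometry.angle x P y}

/-- inner product with the unit vector of direction `θ` -/
noncomputable def ip (x : E) (θ : ℝ) : ℝ := x 0 * cos θ + x 1 * sin θ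

/-- support function -/
noncomputable def h (S : Set E) (θ : ℝ) : ℝ := sSup ((fun x => ip x θ) '' S)

theorem ip_sub (x y : E) (θ : ℝ) : ip (x - y) θ = ip x θ - ip y θ := by
  simp only [ip, PiLp.sub_apply]; ring

theorem ip_add_pi (x : E) (θ : ℝ) : ip x (θ + π) = - ip x θ := by
  simp only [ip, cos_add_pi, sin_add_pi]; ring

theorem ip_periodic (x : E) (θ : ℝ) : ip x (θ + 2 * π) = ip x θ := by
  simp only [ip, cos_add_two_pi, sin_add_two_pi]

theorem ip_add (x : E) (θ δ : ℝ) :
    ip x (θ + δ) = cos δ * ip x θ + sin δ * ip x (θ + π / 2) := by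
  simp only [ip, cos_add, sin_add, cos_add_pi_div_two, sin_add_pi_div_two, cos_pi_div_two,
    sin_pi_div_two]
  ring

theorem ip_cont : Continuous (fun p : ℝ × E => ip p.2 p.1) := by
  unfold ip; fun_prop

theorem norm_sq (x : E) (θ : ℝ) : ‖x‖ ^ 2 = ip x θ ^ 2 + ip x (θ + π / 2) ^ 2 := by
  rw [EuclideanSpace.norm_eq, Real.sq_sqrt (by positivity), Fin.sum_univ_two]
  simp only [ip, Real.norm_eq_abs, sq_abs, cos_add_pi_div_two, sin_add_pi_div_two]
  have := sin_sq_add_cos_sq θ
  linear_combination (-(x 0) ^ 2 - (x 1) ^ 2) * this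

section

variable {S : Set E} (hS : IsCompact S) (hne : S.Nonempty)

include hS in
theorem ip_le_h {x : E} (hx : x ∈ S) (θ : ℝ) : ip x θ ≤ h S θ := by
  apply le_csSup
  · apply (hS.image _).bddAbove
    have := ip_cont
    exact this.comp (Continuous.prodMk continuous_const continuous_id)
  · exact ⟨x, hx, rfl⟩

include hS hne in
theorem exists_h (θ : ℝ) : ∃ x ∈ S, ip x θ = h S θ := by
  have hc : Continuous (fun x => ip x θ) :=
    ip_cont.comp (Continuous.prodMk continuous_const continuous_id)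
  obtain ⟨x, hx, hxm⟩ := hS.exists_isMaxOn hne hc.continuousOn
  refine ⟨x, hx, le_antisymm (ip_le_h hS hx θ) ?_⟩
  apply csSup_le (hne.image _)
  rintro _ ⟨y, hy, rfl⟩
  exact hxm hy

include hS in
theorem h_cont : Continuous (h S) := by
  unfold h
  exact hS.continuous_sSup (f := fun θ x => ip x θ) ip_cont

theorem h_periodic (θ : ℝ) : h S (θ + 2 * π) = h S θ := by
  unfold h
  simp only [ip_periodic]

include hS hne in
theorem h_add_pi (θ : ℝ) : 0 ≤ h S θ + h S (θ + π) := by
  obtain ⟨x, hx⟩ := hne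
  have h1 := ip_le_h hS hx θ
  have h2 := ip_le_h hS hx (θ + π)
  rw [ip_add_pi] at h2
  linarith

end

/-- polar coordinates with base angle `θ0` -/
theorem polar {a b : ℝ} (hab : a ≠ 0 ∨ b ≠ 0) (θ0 : ℝ) :
    ∃ r β : ℝ, 0 < r ∧ 0 ≤ β ∧ β < 2 * π ∧ a = r * cos (θ0 + β) ∧ b = r * sin (θ0 + β) := by
  set z : ℂ := ⟨a, b⟩ with hz
  have hz0 : z ≠ 0 := by
    intro h
    have h1 := congrArg Complex.re h
    have h2 := congrArg Complex.im h
    simp only [hz, Complex.zero_re, Complex.zero_im] at h1 h2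
    rcases hab with h | h
    · exact h h1
    · exact h h2
  have hp : (0 : ℝ) < 2 * π := by positivity
  have hmem := toIcoMod_mem_Ico' hp (Complex.arg z - θ0)
  have hrep := self_sub_toIcoDiv_zsmul hp 0 (Complex.arg z - θ0)
  set β := toIcoMod hp 0 (Complex.arg z - θ0)
  set k := toIcoDiv hp 0 (Complex.arg z - θ0)
  refine ⟨‖z‖, β, norm_pos_iff.mpr hz0, hmem.1, hmem.2, ?_, ?_⟩
  · have h1 : θ0 + β = Complex.arg z - k * (2 * π) := by
      rw [← hrep, zsmul_eq_mul]; ring
    rw [h1, cos_sub_int_mul_two_pi, Complex.norm_mul_cos_arg]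
  · have h1 : θ0 + β = Complex.arg z - k * (2 * π) := by
      rw [← hrep, zsmul_eq_mul]; ring
    rw [h1, sin_sub_int_mul_two_pi, Complex.norm_mul_sin_arg]

theorem polarE {v : E} (hv : v ≠ 0) (θ0 : ℝ) :
    ∃ r β : ℝ, 0 < r ∧ 0 ≤ β ∧ β < 2 * π ∧ ∀ θ, ip v θ = r * cos (θ0 + β - θ) := by
  have hab : v 0 ≠ 0 ∨ v 1 ≠ 0 := by
    by_contra h
    push Not at h
    apply hv
    ext i
    fin_cases i
    · exact h.1
    · exact h.2
  obtain ⟨r, β, hr, h0, h1, ha, hb⟩ := polar hab θ0
  refine ⟨r, β, hr, h0, h1, fun θ => ?_⟩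
  rw [ip, ha, hb, cos_sub]; ring

theorem norm_of_polar {v : E} {r ψ : ℝ} (hr : 0 < r) (hv : ∀ θ, ip v θ = r * cos (ψ - θ)) :
    ‖v‖ = r := by
  have h1 := norm_sq v ψ
  rw [hv, hv, sub_self, cos_zero, show ψ - (ψ + π / 2) = -(π / 2) by ring, cos_neg,
    cos_pi_div_two] at h1
  have h2 : ‖v‖ ^ 2 = r ^ 2 := by rw [h1]; ring
  exact (sq_eq_sq₀ (norm_nonneg v) hr.le).mp h2

theorem angle_of_polar {v w : E} {r s ψ χ : ℝ} (hr : 0 < r) (hs : 0 < s)
    (hv : ∀ θ, ip v θ = r * cos (ψ - θ)) (hw : ∀ θ, ip w θ = s * cos (χ - θ))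
    (hd : |ψ - χ| ≤ π) : InnerProductGeometry.angle v w = |ψ - χ| := by
  unfold InnerProductGeometry.angle
  have hin : inner ℝ v w = r * s * cos (ψ - χ) := by
    have hv0 : v 0 = r * cos ψ := by
      have := hv 0; simp only [ip, cos_zero, sin_zero, sub_zero] at this; linarith
    have hv1 : v 1 = r * sin ψ := by
      have := hv (π / 2)
      simp only [ip, cos_pi_div_two, sin_pi_div_two, cos_sub_pi_div_two] at this; linarith
    have hw0 : w 0 = s * cos χ := by
      have := hw 0; simp only [ip, cos_zero, sin_zero, sub_zero] at this; linarith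
    have hw1 : w 1 = s * sin χ := by
      have := hw (π / 2)
      simp only [ip, cos_pi_div_two, sin_pi_div_two, cos_sub_pi_div_two] at this; linarith
    rw [PiLp.inner_apply, Fin.sum_univ_two, hv0, hv1, hw0, hw1, cos_sub]
    simp only [RCLike.inner_apply, conj_trivial]
    ring
  rw [hin, norm_of_polar hr hv, norm_of_polar hs hw]
  rw [show r * s * cos (ψ - χ) / (r * s) = cos (ψ - χ) by field_simp]
  rw [← cos_abs, arccos_cos (abs_nonneg _) hd]

/-- If `P ∉ S` lies on the support lines with normals `θ` and `θ + δ`, `0 < δ < π`, then `S` is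
seen from `P` under the angle `π - δ`. -/
theorem sight_of_support {S : Set E} (hS : IsCompact S) (hne : S.Nonempty) {P : E} (hP : P ∉ S)
    {θ δ : ℝ} (hδ0 : 0 < δ) (hδπ : δ < π) (h1 : ip P θ = h S θ) (h2 : ip P (θ + δ) = h S (θ + δ)) :
    sight S P = π - δ := by
  have hpol : ∀ x ∈ S, ∃ r β : ℝ, 0 < r ∧ π / 2 + δ ≤ β ∧ β ≤ 3 * π / 2 ∧
      ∀ τ, ip (x - P) τ = r * cos (θ + β - τ) := by
    intro x hx
    have hxP : x - P ≠ 0 := by
      intro h
      rw [sub_eq_zero] at h
      exact hP (h ▸ hx)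
    obtain ⟨r, β, hr, hb0, hb1, hv⟩ := polarE hxP θ
    have e1 : cos β ≤ 0 := by
      have h3 := hv θ
      rw [show θ + β - θ = β by ring, ip_sub, h1] at h3
      have h4 := ip_le_h hS hx θ
      by_contra hneg
      push Not at hneg
      have : 0 < r * cos β := mul_pos hr hneg
      linarith
    have e2 : cos (β - δ) ≤ 0 := by
      have h3 := hv (θ + δ)
      rw [show θ + β - (θ + δ) = β - δ by ring, ip_sub, h2] at h3
      have h4 := ip_le_h hS hx (θ + δ)
      by_contra hneg
      push Not at hneg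
      have : 0 < r * cos (β - δ) := mul_pos hr hneg
      linarith
    have f1 : π / 2 ≤ β := by
      by_contra h
      push Not at h
      have := cos_pos_of_mem_Ioo ⟨by linarith, h⟩
      linarith
    have f2 : β ≤ 3 * π / 2 := by
      by_contra h
      push Not at h
      have h3 : 0 < cos (β - 2 * π) := cos_pos_of_mem_Ioo ⟨by linarith, by linarith⟩
      rw [cos_sub_two_pi] at h3
      linarith
    have f3 : π / 2 + δ ≤ β := by
      by_contra h
      push Not at h
      have := cos_pos_of_mem_Ioo (x := β - δ) ⟨by linarith, by linarith⟩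
      linarith
    exact ⟨r, β, hr, f3, f2, hv⟩
  have hgreat : IsGreatest {a : ℝ | ∃ x ∈ S, ∃ y ∈ S, a = EuclideanGeometry.angle x P y}
      (π - δ) := by
    constructor
    · obtain ⟨x1, hx1, e1⟩ := exists_h hS hne θ
      obtain ⟨x2, hx2, e2⟩ := exists_h hS hne (θ + δ)
      refine ⟨x1, hx1, x2, hx2, ?_⟩
      obtain ⟨r1, β1, hr1, b1, c1, v1⟩ := hpol x1 hx1
      obtain ⟨r2, β2, hr2, b2, c2, v2⟩ := hpol x2 hx2
      have g1 : cos β1 = 0 := by
        have := v1 θ
        rw [ip_sub, e1, h1, show θ + β1 - θ = β1 by ring, sub_self] at this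
        exact (mul_eq_zero.mp this.symm).resolve_left hr1.ne'
      have g2 : cos (β2 - δ) = 0 := by
        have := v2 (θ + δ)
        rw [ip_sub, e2, h2, show θ + β2 - (θ + δ) = β2 - δ by ring, sub_self] at this
        exact (mul_eq_zero.mp this.symm).resolve_left hr2.ne'
      have k1 : β1 = 3 * π / 2 := by
        by_contra hne'
        have : cos β1 < 0 :=
          cos_neg_of_pi_div_two_lt_of_lt (by linarith)
            (by have := lt_of_le_of_ne c1 hne'; linarith)
        linarith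
      have k2 : β2 = π / 2 + δ := by
        by_contra hne'
        have h3 := lt_of_le_of_ne b2 (Ne.symm hne')
        have : cos (β2 - δ) < 0 :=
          cos_neg_of_pi_div_two_lt_of_lt (by linarith) (by linarith)
        linarith
      unfold EuclideanGeometry.angle
      rw [vsub_eq_sub, vsub_eq_sub, angle_of_polar hr1 hr2 v1 v2, k1, k2]
      · rw [abs_of_nonneg] <;> linarith
      · rw [k1, k2, abs_of_nonneg] <;> linarith
    · rintro a ⟨x, hx, y, hy, rfl⟩
      obtain ⟨r1, β1, hr1, b1, c1, v1⟩ := hpol x hx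
      obtain ⟨r2, β2, hr2, b2, c2, v2⟩ := hpol y hy
      have hle : |θ + β1 - (θ + β2)| ≤ π - δ := by
        rw [abs_le]; constructor <;> linarith
      unfold EuclideanGeometry.angle
      rw [vsub_eq_sub, vsub_eq_sub, angle_of_polar hr1 hr2 v1 v2 (by linarith)]
      exact hle
  exact hgreat.csSup_eq

/-- separation -/
theorem exists_sep {S : Set E} (hS : IsCompact S) (hne : S.Nonempty) (hc : Convex ℝ S) {P : E}
    (hP : P ∉ S) : ∃ θ, h S θ < ip P θ := by
  obtain ⟨f, c, hfS, hfP⟩ := geometric_hahn_banach_closed_point hc hS.isClosed hP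
  have hrep : ∀ x : E, f x = f (EuclideanSpace.single 0 1) * x 0 +
      f (EuclideanSpace.single 1 1) * x 1 := by
    intro x
    have hx : x = x 0 • EuclideanSpace.single 0 (1 : ℝ) + x 1 • EuclideanSpace.single 1 (1 : ℝ) := by
      ext i; fin_cases i <;> simp
    conv_lhs => rw [hx]
    rw [map_add, map_smul, map_smul]
    simp only [smul_eq_mul]; ring
  set a := f (EuclideanSpace.single 0 1)
  set b := f (EuclideanSpace.single 1 1)
  have hab : a ≠ 0 ∨ b ≠ 0 := by
    by_contra h
    push Not at h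
    obtain ⟨y, hy⟩ := hne
    have h1 := hfS y hy
    rw [hrep, h.1, h.2] at h1 hfP
    linarith
  obtain ⟨r, β, hr, -, -, ha, hb⟩ := polar hab 0
  rw [zero_add] at ha hb
  have hfx : ∀ x : E, f x = r * ip x β := by
    intro x; rw [hrep, ha, hb]; simp only [ip]; ring
  refine ⟨β, ?_⟩
  obtain ⟨x, hx, hxh⟩ := exists_h hS hne β
  rw [← hxh]
  have h1 := (hfS x hx).trans hfP
  rw [hfx, hfx] at h1
  exact lt_of_mul_lt_mul_left h1 hr.le

/-- Converse: if `P ∉ S` sees `S` under the angle `π - δ` with `0 < δ < π`, then `P` lies on two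
support lines with normals `θ`, `θ + δ`. -/
theorem support_of_sight {S : Set E} (hS : IsCompact S) (hne : S.Nonempty) (hc : Convex ℝ S)
    {P : E} (hP : P ∉ S) {δ : ℝ} (hδ0 : 0 < δ) (hδπ : δ < π) (hs : sight S P = π - δ) :
    ∃ θ, ip P θ = h S θ ∧ ip P (θ + δ) = h S (θ + δ) := by
  obtain ⟨θ0, hθ0⟩ := exists_sep hS hne hc hP
  have hpi := Real.pi_pos
  set k : ℝ → ℝ := fun θ => h S θ - ip P θ with hk
  have hkc : Continuous k := by
    have h1 : Continuous (fun θ => ip P θ) :=
      ip_cont.comp (Continuous.prodMk continuous_id continuous_const)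
    exact (h_cont hS).sub h1
  have hkp : ∀ θ, 0 ≤ k θ + k (θ + π) := by
    intro θ
    have := h_add_pi hS hne θ
    simp only [hk, ip_add_pi]
    linarith
  have hk0 : k θ0 < 0 := by simp only [hk]; linarith
  have hper : ∀ θ, k (θ + 2 * π) = k θ := by
    intro θ; simp only [hk, h_periodic, ip_periodic]
  -- left endpoint
  have hA : ∃ θ1, θ1 < θ0 ∧ θ0 - π ≤ θ1 ∧ k θ1 = 0 ∧ ∀ τ, θ1 < τ → τ ≤ θ0 → k τ < 0 := by
    have hcomp : IsCompact {τ | τ ∈ Icc (θ0 - π) θ0 ∧ 0 ≤ k τ} :=
      isCompact_Icc.inter_right (isClosed_le continuous_const hkc)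
    have hne' : {τ | τ ∈ Icc (θ0 - π) θ0 ∧ 0 ≤ k τ}.Nonempty := by
      refine ⟨θ0 - π, ⟨le_rfl, by linarith⟩, ?_⟩
      have := hkp (θ0 - π)
      rw [sub_add_cancel] at this
      linarith
    obtain ⟨θ1, ⟨⟨h1, h2⟩, h3⟩, hmax⟩ := hcomp.exists_isGreatest hne'
    have hlt : θ1 < θ0 := lt_of_le_of_ne h2 (by rintro rfl; linarith)
    have hneg : ∀ τ, θ1 < τ → τ ≤ θ0 → k τ < 0 := by
      intro τ hτ1 hτ2
      by_contra hge
      push Not at hge
      have := hmax ⟨⟨by linarith, hτ2⟩, hge⟩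
      linarith
    refine ⟨θ1, hlt, h1, le_antisymm ?_ h3, hneg⟩
    apply le_of_tendsto (f := k) (x := nhdsWithin θ1 (Ioi θ1))
      (hkc.continuousAt.continuousWithinAt)
    filter_upwards [Ioo_mem_nhdsGT hlt] with τ hτ
    exact (hneg τ hτ.1 hτ.2.le).le
  have hB : ∃ θ2, θ0 < θ2 ∧ θ2 ≤ θ0 + π ∧ k θ2 = 0 ∧ ∀ τ, θ0 ≤ τ → τ < θ2 → k τ < 0 := by
    have hcomp : IsCompact {τ | τ ∈ Icc θ0 (θ0 + π) ∧ 0 ≤ k τ} :=
      isCompact_Icc.inter_right (isClosed_le continuous_const hkc)
    have hne' : {τ | τ ∈ Icc θ0 (θ0 + π) ∧ 0 ≤ k τ}.Nonempty := by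
      refine ⟨θ0 + π, ⟨by linarith, le_rfl⟩, ?_⟩
      have := hkp θ0
      linarith
    obtain ⟨θ2, ⟨⟨h1, h2⟩, h3⟩, hmin⟩ := hcomp.exists_isLeast hne'
    have hlt : θ0 < θ2 := lt_of_le_of_ne h1 (by rintro rfl; linarith)
    have hneg : ∀ τ, θ0 ≤ τ → τ < θ2 → k τ < 0 := by
      intro τ hτ1 hτ2
      by_contra hge
      push Not at hge
      have := hmin ⟨⟨hτ1, by linarith⟩, hge⟩
      linarith
    refine ⟨θ2, hlt, h2, le_antisymm ?_ h3, hneg⟩
    apply le_of_tendsto (f := k) (x := nhdsWithin θ2 (Iio θ2))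
      (hkc.continuousAt.continuousWithinAt)
    filter_upwards [Ioo_mem_nhdsLT hlt] with τ hτ
    exact (hneg τ hτ.1.le hτ.2).le
  obtain ⟨θ1, a1, a2, a3, a4⟩ := hA
  obtain ⟨θ2, b1, b2, b3, b4⟩ := hB
  have hneg : ∀ τ, θ1 < τ → τ < θ2 → k τ < 0 := by
    intro τ h1 h2
    rcases le_total τ θ0 with h3 | h3
    · exact a4 τ h1 h3
    · exact b4 τ h3 h2
  have hle : θ2 - θ1 ≤ π := by
    by_contra hgt
    push Not at hgt
    -- pick τ slightly bigger than θ1
    obtain ⟨τ, h1, h2⟩ : ∃ τ, θ1 < τ ∧ τ + π < θ2 := ⟨(θ1 + (θ2 - π)) / 2, by linarith, by linarith⟩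
    have h3 := hneg τ h1 (by linarith)
    have h4 := hneg (τ + π) (by linarith) h2
    have := hkp τ
    linarith
  have hP1 : ip P θ1 = h S θ1 := by simp only [hk] at a3; linarith
  have hP2 : ip P θ2 = h S θ2 := by simp only [hk] at b3; linarith
  rcases lt_or_eq_of_le hle with hlt | heq
  · have h1 := sight_of_support hS hne hP (θ := θ1) (δ := θ2 - θ1) (by linarith) hlt hP1
      (by rw [add_sub_cancel]; exact hP2)
    rw [hs] at h1
    have h2 : δ = θ2 - θ1 := by linarith
    exact ⟨θ1, hP1, by rw [h2, add_sub_cancel]; exact hP2⟩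
  · -- degenerate case: `S` lies on a line through `P`
    exfalso
    have hθ2 : θ2 = θ1 + π := by linarith
    have hline : ∀ x ∈ S, ip (x - P) θ1 = 0 := by
      intro x hx
      have h1 := ip_le_h hS hx θ1
      have h2 := ip_le_h hS hx θ2
      rw [← hP2, hθ2, ip_add_pi, ip_add_pi] at h2
      rw [ip_sub]
      linarith
    have hne0 : ∀ x ∈ S, ip (x - P) (θ1 + π / 2) ≠ 0 := by
      intro x hx h0
      have h1 := norm_sq (x - P) θ1
      rw [hline x hx, h0] at h1
      have h2 : ‖x - P‖ = 0 := by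
        have : ‖x - P‖ ^ 2 = 0 := by rw [h1]; norm_num
        exact pow_eq_zero_iff (two_ne_zero) |>.mp this
      rw [norm_eq_zero, sub_eq_zero] at h2
      exact hP (h2 ▸ hx)
    have hvec : ∀ x ∈ S, ∀ θ, ip (x - P) θ =
        ip (x - P) (θ1 + π / 2) * cos (θ1 + π / 2 - θ) := by
      intro x hx θ
      have h1 := ip_add (x - P) θ1 (θ - θ1)
      rw [hline x hx, add_sub_cancel] at h1
      rw [h1, show θ1 + π / 2 - θ = π / 2 - (θ - θ1) by ring, cos_pi_div_two_sub]
      ring
    -- all on the same side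
    have hside : ∀ x ∈ S, ∀ y ∈ S, 0 < ip (x - P) (θ1 + π / 2) → 0 < ip (y - P) (θ1 + π / 2) := by
      intro x hx y hy hx0
      by_contra hy0
      have hy0' : ip (y - P) (θ1 + π / 2) < 0 := lt_of_le_of_ne (not_lt.mp hy0) (hne0 y hy)
      set p := ip (x - P) (θ1 + π / 2)
      set q := ip (y - P) (θ1 + π / 2)
      have hmem : ((-q) / (p - q)) • x + (p / (p - q)) • y ∈ S := by
        apply hc hx hy
        · apply div_nonneg <;> linarith
        · apply div_nonneg <;> linarith
        · have : p - q ≠ 0 := by linarith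
          field_simp
          ring
      have hip : ∀ θ, ip (((-q) / (p - q)) • x + (p / (p - q)) • y - P) θ = 0 := by
        intro θ
        have e1 := hvec x hx θ
        have e2 := hvec y hy θ
        have e3 : ip (((-q) / (p - q)) • x + (p / (p - q)) • y - P) θ =
            ((-q) / (p - q)) * ip (x - P) θ + (p / (p - q)) * ip (y - P) θ := by
          have : p - q ≠ 0 := by linarith
          simp only [ip, PiLp.sub_apply, PiLp.add_apply, PiLp.smul_apply, smul_eq_mul]
          field_simp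
          ring
        rw [e3, e1, e2]
        ring
      have h5 : ((-q) / (p - q)) • x + (p / (p - q)) • y = P := by
        have h6 := norm_sq (((-q) / (p - q)) • x + (p / (p - q)) • y - P) 0
        rw [hip, hip] at h6
        have h7 : ‖((-q) / (p - q)) • x + (p / (p - q)) • y - P‖ = 0 := by
          have : ‖((-q) / (p - q)) • x + (p / (p - q)) • y - P‖ ^ 2 = 0 := by rw [h6]; norm_num
          exact pow_eq_zero_iff (two_ne_zero) |>.mp this
        rwa [norm_eq_zero, sub_eq_zero] at h7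
      exact hP (h5 ▸ hmem)
    have hzero : ∀ x ∈ S, ∀ y ∈ S, EuclideanGeometry.angle x P y = 0 := by
      intro x hx y hy
      unfold EuclideanGeometry.angle
      rw [vsub_eq_sub, vsub_eq_sub]
      rcases lt_or_gt_of_ne (hne0 x hx) with h1 | h1
      · have h2 : ip (y - P) (θ1 + π / 2) < 0 := by
          by_contra h3
          have h4 : 0 < ip (y - P) (θ1 + π / 2) :=
            lt_of_le_of_ne (not_lt.mp h3) (Ne.symm (hne0 y hy))
          have := hside y hy x hx h4
          linarith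
        have h3 := angle_of_polar (v := x - P) (w := y - P) (r := - ip (x - P) (θ1 + π / 2))
          (s := - ip (y - P) (θ1 + π / 2)) (ψ := θ1 + π / 2 + π) (χ := θ1 + π / 2 + π)
          (by linarith) (by linarith)
          (by intro θ
              rw [hvec x hx θ, show θ1 + π / 2 + π - θ = (θ1 + π / 2 - θ) + π by ring, cos_add_pi]
              ring)
          (by intro θ
              rw [hvec y hy θ, show θ1 + π / 2 + π - θ = (θ1 + π / 2 - θ) + π by ring, cos_add_pi]
              ring)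
          (by rw [sub_self, abs_zero]; exact hpi.le)
        rw [h3, sub_self, abs_zero]
      · have h2 := hside x hx y hy h1
        have h3 := angle_of_polar (v := x - P) (w := y - P) (r := ip (x - P) (θ1 + π / 2))
          (s := ip (y - P) (θ1 + π / 2)) (ψ := θ1 + π / 2) (χ := θ1 + π / 2) h1 h2
          (hvec x hx) (hvec y hy) (by rw [sub_self, abs_zero]; exact hpi.le)
        rw [h3, sub_self, abs_zero]
    have h1 : sight S P ≤ 0 := by
      unfold sight
      apply csSup_le
      · obtain ⟨x, hx⟩ := hne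
        exact ⟨_, x, hx, x, hx, rfl⟩
      · rintro a ⟨x, hx, y, hy, rfl⟩
        exact (hzero x hx y hy).le
    rw [hs] at h1
    linarith

end Pool.Agent.X150.Iso
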