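import Pool.Agent.X150.Iso1

/-! Convex sets with two circular isoptics are disks. -/

open Real Set

namespace Pool.Agent.X150.Iso

/-- The isoptic of `S` at angle `α`. -/
def isoptic (S : Set E) (α : ℝ) : Set E := {P | P ∉ S ∧ sight S P = α}

/-- the intersection point of the support lines with normals `θ`, `θ + δ` -/
noncomputable def pt (S : Set E) (δ θ : ℝ) : E :=
  !₂[h S θ * cos θ - (h S (θ + δ) - h S θ * cos δ) / sin δ * sin θ,
     h S θ * sin θ + (h S (θ + δ) - h S θ * cos δ) / sin δ * cos θ]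

section

variable {S : Set E} {δ : ℝ} (hδ0 : 0 < δ) (hδπ : δ < π)

theorem pt_zero (θ : ℝ) : pt S δ θ 0 =
    h S θ * cos θ - (h S (θ + δ) - h S θ * cos δ) / sin δ * sin θ := rfl

theorem pt_one (θ : ℝ) : pt S δ θ 1 =
    h S θ * sin θ + (h S (θ + δ) - h S θ * cos δ) / sin δ * cos θ := rfl

theorem ip_pt (θ : ℝ) : ip (pt S δ θ) θ = h S θ := by
  rw [ip, pt_zero, pt_one]
  linear_combination (h S θ) * sin_sq_add_cos_sq θ

include hδ0 hδπ in
theorem ip_pt' (θ : ℝ) : ip (pt S δ θ) (θ + δ) = h S (θ + δ) := by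
  have hs : sin δ ≠ 0 := (sin_pos_of_pos_of_lt_pi hδ0 hδπ).ne'
  rw [ip, pt_zero, pt_one, cos_add, sin_add]
  have h1 := sin_sq_add_cos_sq θ
  field_simp
  linear_combination (sin δ * h S (θ + δ)) * h1

include hδ0 hδπ in
theorem pt_unique {P : E} {θ : ℝ} (h1 : ip P θ = h S θ) (h2 : ip P (θ + δ) = h S (θ + δ)) :
    P = pt S δ θ := by
  have hs : sin δ ≠ 0 := (sin_pos_of_pos_of_lt_pi hδ0 hδπ).ne'
  have e1 := ip_pt (S := S) (δ := δ) θ
  have e2 := ip_pt' (S := S) hδ0 hδπ θ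
  have e3 : ip (P - pt S δ θ) θ = 0 := by rw [ip_sub, h1, e1, sub_self]
  have e4 : ip (P - pt S δ θ) (θ + δ) = 0 := by rw [ip_sub, h2, e2, sub_self]
  rw [ip_add, e3, mul_zero, zero_add] at e4
  have e5 := (mul_eq_zero.mp e4).resolve_left hs
  have e6 := norm_sq (P - pt S δ θ) θ
  rw [e3, e5] at e6
  have e7 : ‖P - pt S δ θ‖ ^ 2 = 0 := by rw [e6]; norm_num
  have e8 := pow_eq_zero_iff (two_ne_zero) |>.mp e7
  rwa [norm_eq_zero, sub_eq_zero] at e8

theorem pt_cont (hS : IsCompact S) : Continuous (pt S δ) := by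
  have hc := h_cont hS
  unfold pt
  apply (PiLp.continuous_toLp 2 _).comp
  apply continuous_pi
  intro i
  fin_cases i
  all_goals simp
  all_goals fun_prop

end

/-- The data extracted from one circular isoptic: the support function relative to the centre. -/
structure Good (g : ℝ → ℝ) (δ R : ℝ) : Prop where
  fwd : ∀ θ, g (θ + δ) = g (θ - δ)
  pos : ∀ θ, 0 < g (θ + δ) - g θ * cos δ
  ell : ∀ θ, (g (θ + δ) - g θ * cos δ) ^ 2 = (R ^ 2 - g θ ^ 2) * sin δ ^ 2

/-- From a circular isoptic to the functional equation. -/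
theorem good_of_circle {S : Set E} (hS : IsCompact S) (hne : S.Nonempty) (hc : Convex ℝ S)
    {δ : ℝ} (hδ0 : 0 < δ) (hδπ : δ < π) {c : E} {R : ℝ} (hR : 0 < R)
    (hcirc : isoptic S (π - δ) = Metric.sphere c R) : Good (fun θ => h S θ - ip c θ) δ R := by
  have hpi := Real.pi_pos
  have hs : 0 < sin δ := sin_pos_of_pos_of_lt_pi hδ0 hδπ
  -- all points lie on the circle
  have hall : ∀ θ, pt S δ θ ∈ Metric.sphere c R := by
    have hA : IsClosed {θ | pt S δ θ ∈ S} := hS.isClosed.preimage (pt_cont hS)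
    have hB : IsClosed {θ | pt S δ θ ∈ Metric.sphere c R} :=
      Metric.isClosed_sphere.preimage (pt_cont hS)
    have hdisj : ∀ θ, pt S δ θ ∈ S → pt S δ θ ∉ Metric.sphere c R := by
      intro θ h1 h2
      rw [← hcirc] at h2
      exact h2.1 h1
    have hcov : ∀ θ, pt S δ θ ∈ S ∨ pt S δ θ ∈ Metric.sphere c R := by
      intro θ
      by_cases h1 : pt S δ θ ∈ S
      · exact Or.inl h1
      · right
        rw [← hcirc]
        exact ⟨h1, sight_of_support hS hne h1 hδ0 hδπ (ip_pt θ) (ip_pt' hδ0 hδπ θ)⟩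
    have hBclopen : IsClopen {θ | pt S δ θ ∈ Metric.sphere c R} := by
      refine ⟨hB, ?_⟩
      have : {θ | pt S δ θ ∈ Metric.sphere c R} = {θ | pt S δ θ ∈ S}ᶜ := by
        ext θ
        simp only [mem_ofPred_eq, mem_compl_iff]
        constructor
        · intro h1 h2; exact hdisj θ h2 h1
        · intro h1; exact (hcov θ).resolve_left h1
      rw [this]
      exact hA.isOpen_compl
    -- nonempty
    have hne' : {θ | pt S δ θ ∈ Metric.sphere c R}.Nonempty := by
      obtain ⟨P, hP⟩ : (Metric.sphere c R).Nonempty := NormedSpace.sphere_nonempty.mpr hR.le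
      have hP' := hP
      rw [← hcirc] at hP'
      obtain ⟨θ, h1, h2⟩ := support_of_sight hS hne hc hP'.1 hδ0 hδπ hP'.2
      refine ⟨θ, ?_⟩
      have := pt_unique hδ0 hδπ h1 h2
      rw [mem_ofPred_eq, ← this]
      exact hP
    have huniv := hBclopen.eq_univ hne'
    intro θ
    have : θ ∈ {θ | pt S δ θ ∈ Metric.sphere c R} := by rw [huniv]; exact mem_univ θ
    exact this
  have hnotS : ∀ θ, pt S δ θ ∉ S := by
    intro θ h1
    have h2 := hall θ
    rw [← hcirc] at h2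
    exact h2.1 h1
  -- tangential components
  set sp : ℝ → ℝ := fun θ => ip (pt S δ θ - c) (θ + π / 2) with hsp
  set sm : ℝ → ℝ := fun θ => ip (pt S δ (θ - δ) - c) (θ + π / 2) with hsm
  have hptm : ∀ θ, ip (pt S δ (θ - δ)) θ = h S θ := by
    intro θ
    have := ip_pt' (S := S) hδ0 hδπ (θ - δ)
    rwa [sub_add_cancel] at this
  have hspsq : ∀ θ, sp θ ^ 2 = R ^ 2 - (h S θ - ip c θ) ^ 2 := by
    intro θ
    have h1 := norm_sq (pt S δ θ - c) θ
    have h2 := hall θ
    rw [mem_sphere_iff_norm] at h2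
    rw [h2, ip_sub, ip_pt] at h1
    simp only [hsp]; linarith
  have hsmsq : ∀ θ, sm θ ^ 2 = R ^ 2 - (h S θ - ip c θ) ^ 2 := by
    intro θ
    have h1 := norm_sq (pt S δ (θ - δ) - c) θ
    have h2 := hall (θ - δ)
    rw [mem_sphere_iff_norm] at h2
    rw [h2, ip_sub, hptm] at h1
    simp only [hsm]; linarith
  have hlt : ∀ θ, sm θ < sp θ := by
    intro θ
    obtain ⟨y, hy, hyh⟩ := exists_h hS hne θ
    -- y strictly below pt θ
    have h1 : ip (y - c) (θ + π / 2) < sp θ := by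
      have e1 := ip_le_h hS hy (θ + δ)
      rw [← ip_pt' (S := S) hδ0 hδπ θ, ip_add y θ δ, ip_add (pt S δ θ) θ δ, hyh, ip_pt] at e1
      have e2 : sin δ * ip y (θ + π / 2) ≤ sin δ * ip (pt S δ θ) (θ + π / 2) := by linarith
      have e3 := le_of_mul_le_mul_left e2 hs
      have e4 : ip y (θ + π / 2) ≠ ip (pt S δ θ) (θ + π / 2) := by
        intro heq
        apply hnotS θ
        have : y = pt S δ θ := by
          apply pt_unique hδ0 hδπ hyh
          rw [← ip_pt' (S := S) hδ0 hδπ θ, ip_add y θ δ, ip_add (pt S δ θ) θ δ, hyh, ip_pt, heq]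
        rw [← this]; exact hy
      have e5 := lt_of_le_of_ne e3 e4
      simp only [hsp, ip_sub]; linarith
    have h2 : sm θ ≤ ip (y - c) (θ + π / 2) := by
      have e1 := ip_le_h hS hy (θ - δ)
      rw [← ip_pt (S := S) (δ := δ) (θ - δ)] at e1
      have f1 := ip_add y θ (-δ)
      have f2 := ip_add (pt S δ (θ - δ)) θ (-δ)
      rw [← sub_eq_add_neg, sin_neg] at f1 f2
      rw [f1, f2, hyh, hptm] at e1
      have e2 : sin δ * ip (pt S δ (θ - δ)) (θ + π / 2) ≤ sin δ * ip y (θ + π / 2) := by linarith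
      have e3 := le_of_mul_le_mul_left e2 hs
      simp only [hsm, ip_sub]; linarith
    linarith
  have hneg : ∀ θ, sm θ = - sp θ := by
    intro θ
    have h1 : (sp θ - sm θ) * (sp θ + sm θ) = 0 := by
      have := hspsq θ
      have := hsmsq θ
      nlinarith
    have h2 := hlt θ
    have h3 := (mul_eq_zero.mp h1).resolve_left (by linarith)
    linarith
  have hpos : ∀ θ, 0 < sp θ := by
    intro θ
    have := hlt θ
    have := hneg θ
    linarith
  have hplus : ∀ θ, h S (θ + δ) - ip c (θ + δ) = (h S θ - ip c θ) * cos δ + sp θ * sin δ := by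
    intro θ
    have h1 : ip (pt S δ θ - c) (θ + δ) = h S (θ + δ) - ip c (θ + δ) := by
      rw [ip_sub, ip_pt' hδ0 hδπ]
    rw [← h1, ip_add, ip_sub, ip_pt]
    simp only [hsp]; ring
  have hminus : ∀ θ, h S (θ - δ) - ip c (θ - δ) = (h S θ - ip c θ) * cos δ - sm θ * sin δ := by
    intro θ
    have h1 : ip (pt S δ (θ - δ) - c) (θ - δ) = h S (θ - δ) - ip c (θ - δ) := by
      rw [ip_sub, ip_pt]
    have f2 := ip_add (pt S δ (θ - δ) - c) θ (-δ)
    rw [← sub_eq_add_neg, cos_neg, sin_neg, ip_sub _ _ θ, hptm] at f2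
    rw [← h1, f2]
    simp only [hsm]; ring
  refine ⟨?_, ?_, ?_⟩
  · intro θ
    rw [hplus, hminus, hneg]; ring
  · intro θ
    rw [hplus]
    have := mul_pos (hpos θ) hs
    linarith
  · intro θ
    rw [hplus, ← hspsq]; ring

namespace Good

variable {g : ℝ → ℝ} {δ R : ℝ}

theorem periodic (hg : Good g δ R) (θ : ℝ) : g (θ + 2 * δ) = g θ := by
  have := hg.fwd (θ + δ)
  rw [add_sub_cancel_right] at this
  rw [← this]; congr 1; ring

theorem pos' (hg : Good g δ R) (θ : ℝ) : 0 < g θ - g (θ + δ) * cos δ := by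
  have := hg.pos (θ + δ)
  rwa [show θ + δ + δ = θ + 2 * δ by ring, hg.periodic] at this

theorem ell' (hg : Good g δ R) (θ : ℝ) :
    g θ ^ 2 + g (θ + δ) ^ 2 - 2 * (g θ * g (θ + δ)) * cos δ = R ^ 2 * sin δ ^ 2 := by
  have h1 := hg.ell θ
  have h2 := sin_sq_add_cos_sq δ
  linear_combination h1 + (- g θ ^ 2 ) * h2

/-- strictly antitone -/
theorem anti (hg : Good g δ R) {θ τ : ℝ} (hlt : g θ < g τ) : g (τ + δ) < g (θ + δ) := by
  by_contra hle
  push Not at hle
  have e1 := hg.ell' θ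
  have e2 := hg.ell' τ
  have p1 := hg.pos θ
  have p2 := hg.pos' θ
  have p3 := hg.pos τ
  have p4 := hg.pos' τ
  set a := g θ
  set b := g (θ + δ)
  set a' := g τ
  set b' := g (τ + δ)
  have key : (a' - a) * ((a' - b' * cos δ) + (a - b * cos δ)) +
      (b' - b) * ((b' - a' * cos δ) + (b - a * cos δ)) = 0 := by
    linear_combination e2 - e1
  have h1 : 0 < (a' - a) * ((a' - b' * cos δ) + (a - b * cos δ)) :=
    mul_pos (by linarith) (by linarith)
  have h2 : 0 ≤ (b' - b) * ((b' - a' * cos δ) + (b - a * cos δ)) :=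
    mul_nonneg (by linarith) (by linarith)
  linarith

end Good

/-- Two functional equations with different `δ` force `g` to be constant. -/
theorem const_of_two {g : ℝ → ℝ} (hgc : Continuous g) {δ₁ δ₂ R₁ R₂ : ℝ} (hg1 : Good g δ₁ R₁)
    (hg2 : Good g δ₂ R₂) (h01 : 0 < δ₁) (h1π : δ₁ < π) (h02 : 0 < δ₂) (h2π : δ₂ < π)
    (hne : δ₁ ≠ δ₂) : ∃ ρ, ∀ θ, g θ = ρ := by
  -- shift by δ₁ + δ₂
  have hinc : ∀ {θ τ : ℝ}, g θ < g τ → g (θ + (δ₁ + δ₂)) < g (τ + (δ₁ + δ₂)) := by
    intro θ τ hlt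
    have h1 := hg1.anti hlt
    have h2 := hg2.anti h1
    rwa [add_assoc, add_assoc] at h2
  have hper : ∀ θ, g (θ + (δ₁ + δ₂) + (δ₁ + δ₂)) = g θ := by
    intro θ
    rw [show θ + (δ₁ + δ₂) + (δ₁ + δ₂) = (θ + 2 * δ₁) + 2 * δ₂ by ring, hg2.periodic, hg1.periodic]
  have hfix : ∀ θ, g (θ + (δ₁ + δ₂)) = g θ := by
    intro θ
    rcases lt_trichotomy (g θ) (g (θ + (δ₁ + δ₂))) with h | h | h
    · have := hinc h
      rw [hper] at this
      linarith
    · exact h.symm
    · have := hinc h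
      rw [hper] at this
      linarith
  have heq : ∀ θ, g (θ + δ₁) = g (θ + δ₂) := by
    intro θ
    have h1 := hfix (θ - δ₂)
    rw [show θ - δ₂ + (δ₁ + δ₂) = θ + δ₁ by ring] at h1
    rw [h1, ← hg2.fwd]
  have hcos : cos δ₁ ≠ cos δ₂ := by
    intro h
    exact hne (injOn_cos ⟨h01.le, h1π.le⟩ ⟨h02.le, h2π.le⟩ h)
  -- the product and the sum of squares are constant
  obtain ⟨k, hk⟩ : ∃ k, ∀ θ, g θ * g (θ + δ₁) = k := by
    refine ⟨(R₁ ^ 2 * sin δ₁ ^ 2 - R₂ ^ 2 * sin δ₂ ^ 2) / (2 * (cos δ₂ - cos δ₁)), fun θ => ?_⟩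
    have e1 := hg1.ell' θ
    have e2 := hg2.ell' θ
    rw [← heq] at e2
    rw [eq_div_iff (by intro h; apply hcos; linarith)]
    linear_combination e1 - e2
  obtain ⟨K, hK⟩ : ∃ K, ∀ θ, g θ ^ 2 + g (θ + δ₁) ^ 2 = K := by
    refine ⟨R₁ ^ 2 * sin δ₁ ^ 2 + 2 * k * cos δ₁, fun θ => ?_⟩
    have e1 := hg1.ell' θ
    rw [hk] at e1
    linarith
  -- finitely many values
  have hfin : (range g).Finite := by
    -- g is a root of x^4 - K x^2 + k^2
    let p : Polynomial ℝ := Polynomial.X ^ 4 - Polynomial.C K * Polynomial.X ^ 2 +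
      Polynomial.C (k ^ 2)
    have hp : p ≠ 0 := by
      intro h
      have h4 : p.coeff 4 = 1 := by
        simp only [p, Polynomial.coeff_add, Polynomial.coeff_sub, Polynomial.coeff_X_pow,
          Polynomial.coeff_C_mul, Polynomial.coeff_C]
        norm_num
      rw [h] at h4
      simp at h4
    apply Set.Finite.subset (p.roots.toFinset.finite_toSet)
    rintro _ ⟨θ, rfl⟩
    rw [Finset.mem_coe, Multiset.mem_toFinset, Polynomial.mem_roots hp]
    simp only [p, Polynomial.IsRoot, Polynomial.eval_add, Polynomial.eval_sub,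
      Polynomial.eval_pow, Polynomial.eval_X, Polynomial.eval_mul, Polynomial.eval_C]
    have e1 := hk θ
    have e2 := hK θ
    rw [← e1, ← e2]; ring
  have hpre : IsPreconnected (range g) := isPreconnected_range hgc
  have hsub : (range g).Subsingleton := by
    by_contra hns
    rw [Set.not_subsingleton_iff] at hns
    exact hpre.infinite_of_nontrivial hns hfin
  exact ⟨g 0, fun θ => hsub (mem_range_self θ) (mem_range_self 0)⟩

/-- The centres coincide. -/
theorem centre_eq {H : ℝ → ℝ} {δ₁ δ₂ : ℝ} (h01 : 0 < δ₁) (h1π : δ₁ < π)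
    (h02 : 0 < δ₂) (h2π : δ₂ < π) {c₁ c₂ : E}
    (hp1 : ∀ θ, H (θ + 2 * δ₁) - ip c₁ (θ + 2 * δ₁) = H θ - ip c₁ θ)
    (hp2 : ∀ θ, H (θ + 2 * δ₂) - ip c₂ (θ + 2 * δ₂) = H θ - ip c₂ θ) : c₁ = c₂ := by
  -- second difference of `D θ = ip (c₂ - c₁) θ`
  have hD : ∀ θ, ip (c₂ - c₁) (θ + 2 * δ₁ + 2 * δ₂) - ip (c₂ - c₁) (θ + 2 * δ₁) -
      ip (c₂ - c₁) (θ + 2 * δ₂) + ip (c₂ - c₁) θ = 0 := by
    intro θ
    simp only [ip_sub]
    have e1 := hp1 θ
    have e2 := hp1 (θ + 2 * δ₂)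
    have e3 := hp2 θ
    have e4 := hp2 (θ + 2 * δ₁)
    rw [show θ + 2 * δ₂ + 2 * δ₁ = θ + 2 * δ₁ + 2 * δ₂ by ring] at e2
    linarith
  -- `D(θ) = r cos (ψ - θ)` if nonzero
  by_contra hne
  have hv : c₂ - c₁ ≠ 0 := fun h => hne (sub_eq_zero.mp h).symm
  obtain ⟨r, β, hr, -, -, hpol⟩ := polarE hv 0
  have hs1 : sin δ₁ ≠ 0 := (sin_pos_of_pos_of_lt_pi h01 h1π).ne'
  have hs2 : sin δ₂ ≠ 0 := (sin_pos_of_pos_of_lt_pi h02 h2π).ne'
  have hkey : ∀ θ, r * (-4 * sin δ₁ * sin δ₂ * cos (β - θ - δ₁ - δ₂)) = 0 := by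
    intro θ
    have h1 := hD θ
    simp only [hpol, zero_add] at h1
    rw [← h1]
    have e1 : β - (θ + 2 * δ₁ + 2 * δ₂) = (β - θ - δ₁ - δ₂) - (δ₁ + δ₂) := by ring
    have e2 : β - (θ + 2 * δ₁) = (β - θ - δ₁ - δ₂) - (δ₁ - δ₂) := by ring
    have e3 : β - (θ + 2 * δ₂) = (β - θ - δ₁ - δ₂) + (δ₁ - δ₂) := by ring
    have e4 : β - θ = (β - θ - δ₁ - δ₂) + (δ₁ + δ₂) := by ring
    rw [e1, e2, e3]
    conv_rhs => rw [e4]
    rw [show β - θ - δ₁ - δ₂ + (δ₁ + δ₂) - δ₁ - δ₂ = β - θ - δ₁ - δ₂ by ring]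
    generalize β - θ - δ₁ - δ₂ = x
    simp only [cos_add, cos_sub, sin_add, sin_sub]
    ring
  have h1 := hkey (β - δ₁ - δ₂)
  rw [show β - (β - δ₁ - δ₂) - δ₁ - δ₂ = 0 by ring, cos_zero] at h1
  have h2 : r * (-4 * sin δ₁ * sin δ₂ * 1) ≠ 0 := by
    apply mul_ne_zero hr.ne'
    simp only [mul_one]
    exact mul_ne_zero (mul_ne_zero (by norm_num) hs1) hs2
  exact h2 h1

/-- constant support function relative to a centre: a disk -/
theorem ball_of_const {S : Set E} (hS : IsCompact S) (hne : S.Nonempty) (hc : Convex ℝ S) {c : E}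
    {ρ : ℝ} (hρ : ∀ θ, h S θ - ip c θ = ρ) : S = Metric.closedBall c ρ := by
  have hnorm : ∀ x : E, x ≠ c → ∃ θ, ip (x - c) θ = ‖x - c‖ := by
    intro x hx
    have hv : x - c ≠ 0 := sub_ne_zero.mpr hx
    obtain ⟨r, β, hr, -, -, hpol⟩ := polarE hv 0
    refine ⟨β, ?_⟩
    rw [norm_of_polar hr hpol, hpol]; simp
  have hle : ∀ (x : E) θ, ip x θ ≤ ‖x‖ := by
    intro x θ
    have h1 := norm_sq x θ
    have h2 : ip x θ ^ 2 ≤ ‖x‖ ^ 2 := by nlinarith [sq_nonneg (ip x (θ + π / 2))]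
    exact (abs_le_of_sq_le_sq' h2 (norm_nonneg _)).2
  ext x
  rw [Metric.mem_closedBall, dist_eq_norm]
  constructor
  · intro hx
    by_cases hxc : x = c
    · rw [hxc, sub_self, norm_zero]
      have h1 := ip_le_h hS hx 0
      have h2 := hρ 0
      rw [hxc] at h1
      linarith
    · obtain ⟨θ, hθ⟩ := hnorm x hxc
      rw [← hθ, ip_sub, ← hρ θ]
      have := ip_le_h hS hx θ
      linarith
  · intro hx
    by_contra hxS
    obtain ⟨θ, hθ⟩ := exists_sep hS hne hc hxS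
    have h1 := hle (x - c) θ
    rw [ip_sub] at h1
    have h2 := hρ θ
    linarith

theorem h_ball (c : E) {ρ : ℝ} (hρ : 0 < ρ) (θ : ℝ) : h (Metric.closedBall c ρ) θ = ip c θ + ρ := by
  have hS : IsCompact (Metric.closedBall c ρ) := isCompact_closedBall c ρ
  have hne : (Metric.closedBall c ρ).Nonempty := ⟨c, Metric.mem_closedBall_self hρ.le⟩
  have hle : ∀ (x : E) θ, ip x θ ≤ ‖x‖ := by
    intro x θ
    have h1 := norm_sq x θ
    have h2 : ip x θ ^ 2 ≤ ‖x‖ ^ 2 := by nlinarith [sq_nonneg (ip x (θ + π / 2))]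
    exact (abs_le_of_sq_le_sq' h2 (norm_nonneg _)).2
  apply le_antisymm
  · obtain ⟨x, hx, hxh⟩ := exists_h hS hne θ
    rw [← hxh]
    rw [Metric.mem_closedBall, dist_eq_norm] at hx
    have := hle (x - c) θ
    rw [ip_sub] at this
    linarith
  · have hmem : c + ρ • (!₂[cos θ, sin θ] : E) ∈ Metric.closedBall c ρ := by
      rw [Metric.mem_closedBall, dist_eq_norm, add_sub_cancel_left, norm_smul,
        EuclideanSpace.norm_eq, Fin.sum_univ_two]
      simp only [Matrix.cons_val_zero, Matrix.cons_val_one, Real.norm_eq_abs, sq_abs,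
        cos_sq_add_sin_sq, Real.sqrt_one, mul_one]
      rw [abs_of_pos hρ]
    have h1 := ip_le_h hS hmem θ
    have h2 : ip (c + ρ • (!₂[cos θ, sin θ] : E)) θ = ip c θ + ρ := by
      simp only [ip, PiLp.add_apply, PiLp.smul_apply, smul_eq_mul, Matrix.cons_val_zero,
        Matrix.cons_val_one]
      linear_combination ρ * sin_sq_add_cos_sq θ
    rwa [h2] at h1

/-- all isoptics of a disk are circles -/
theorem isoptic_ball (c : E) {ρ : ℝ} (hρ : 0 < ρ) {δ : ℝ} (hδ0 : 0 < δ) (hδπ : δ < π) :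
    isoptic (Metric.closedBall c ρ) (π - δ) = Metric.sphere c (ρ / cos (δ / 2)) := by
  have hS : IsCompact (Metric.closedBall c ρ) := isCompact_closedBall c ρ
  have hne : (Metric.closedBall c ρ).Nonempty := ⟨c, Metric.mem_closedBall_self hρ.le⟩
  have hk : 0 < cos (δ / 2) := cos_pos_of_mem_Ioo ⟨by linarith, by linarith⟩
  have hs : 0 < sin (δ / 2) := sin_pos_of_pos_of_lt_pi (by linarith) (by linarith)
  have hsin : sin δ = 2 * sin (δ / 2) * cos (δ / 2) := by rw [← sin_two_mul]; ring_nf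
  have hcos : cos δ = 1 - 2 * sin (δ / 2) ^ 2 := by
    have h1 := cos_two_mul' (δ / 2)
    have h2 := sin_sq_add_cos_sq (δ / 2)
    rw [show 2 * (δ / 2) = δ by ring] at h1
    linarith
  have hsq := sin_sq_add_cos_sq (δ / 2)
  ext P
  rw [mem_sphere_iff_norm]
  constructor
  · rintro ⟨hP, hsight⟩
    obtain ⟨θ, h1, h2⟩ := support_of_sight hS hne (convex_closedBall c ρ) hP hδ0 hδπ hsight
    rw [h_ball c hρ] at h1 h2
    have e1 : ip (P - c) θ = ρ := by rw [ip_sub]; linarith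
    have e2 : ip (P - c) (θ + δ) = ρ := by rw [ip_sub]; linarith
    rw [ip_add, e1, hsin, hcos] at e2
    set q := ip (P - c) (θ + π / 2)
    have e3 : q = ρ * sin (δ / 2) / cos (δ / 2) := by
      rw [eq_div_iff hk.ne']
      have e4 : (2 * sin (δ / 2)) * (q * cos (δ / 2)) = (2 * sin (δ / 2)) * (ρ * sin (δ / 2)) := by
        linear_combination e2
      exact mul_left_cancel₀ (by positivity) e4
    have e5 := norm_sq (P - c) θ
    rw [e1] at e5
    have e6 : ‖P - c‖ ^ 2 = (ρ / cos (δ / 2)) ^ 2 := by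
      change ‖P - c‖ ^ 2 = ρ ^ 2 + q ^ 2 at e5
      rw [e5, e3]
      field_simp
      linear_combination hsq
    exact (sq_eq_sq₀ (norm_nonneg _) (by positivity)).mp e6
  · intro hP
    have hlt : ρ < ρ / cos (δ / 2) := by
      rw [lt_div_iff₀ hk]
      have : cos (δ / 2) < 1 := by nlinarith
      nlinarith
    have hPS : P ∉ Metric.closedBall c ρ := by
      rw [Metric.mem_closedBall, dist_eq_norm, hP]
      exact not_le.mpr hlt
    refine ⟨hPS, ?_⟩
    have hv : P - c ≠ 0 := by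
      intro h0
      rw [h0, norm_zero] at hP
      linarith
    obtain ⟨r, β, hr, -, -, hpol⟩ := polarE hv 0
    have hrn := norm_of_polar hr hpol
    rw [hP] at hrn
    simp only [zero_add] at hpol
    apply sight_of_support hS hne hPS hδ0 hδπ (θ := β - δ / 2)
    · rw [h_ball c hρ]
      have h1 := hpol (β - δ / 2)
      rw [ip_sub, show β - (β - δ / 2) = δ / 2 by ring, ← hrn] at h1
      have h2 : ρ / cos (δ / 2) * cos (δ / 2) = ρ := by field_simp
      linarith
    · rw [h_ball c hρ]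
      have h1 := hpol (β - δ / 2 + δ)
      rw [ip_sub, show β - (β - δ / 2 + δ) = -(δ / 2) by ring, cos_neg, ← hrn] at h1
      have h2 : ρ / cos (δ / 2) * cos (δ / 2) = ρ := by field_simp
      linarith

end Pool.Agent.X150.Iso
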