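import Mathlib

/-! Trigonometric polynomials without constant term, and the recursion that produces closed
nondegenerate curves near the plane unit circle in dimension `≥ 4`. -/

open Real Finset
open scoped ContDiff

set_option linter.dupNamespace false

namespace Pool.Agent.X150.ND

/-- trigonometric polynomials without constant term -/
def TP (f : ℝ → ℝ) : Prop := ∃ (m : ℕ) (ν : Fin m → ℕ) (a b : Fin m → ℝ), (∀ i, 1 ≤ ν i) ∧
  f = fun t => ∑ i, (a i * cos (ν i * t) + b i * sin (ν i * t))

theorem TP.contDiff {f : ℝ → ℝ} (h : TP f) : ContDiff ℝ ∞ f := by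
  obtain ⟨m, ν, a, b, -, rfl⟩ := h
  fun_prop

theorem TP.periodic {f : ℝ → ℝ} (h : TP f) : Function.Periodic f (2 * π) := by
  obtain ⟨m, ν, a, b, -, rfl⟩ := h
  intro t
  apply Finset.sum_congr rfl
  intro i _
  rw [show (ν i : ℝ) * (t + 2 * π) = ν i * t + ν i * (2 * π) by ring,
    cos_add_nat_mul_two_pi, sin_add_nat_mul_two_pi]

theorem hterm (α β k t : ℝ) : HasDerivAt (fun t => α * cos (k * t) + β * sin (k * t))
    ((β * k) * cos (k * t) + (-(α * k)) * sin (k * t)) t := by
  have h0 : HasDerivAt (fun t => k * t) k t := by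
    simpa using (hasDerivAt_id t).const_mul k
  have h1 : HasDerivAt (fun t => cos (k * t)) (- sin (k * t) * k) t := h0.cos
  have h2 : HasDerivAt (fun t => sin (k * t)) (cos (k * t) * k) t := h0.sin
  have h3 := (h1.const_mul α).add (h2.const_mul β)
  have h4 : α * (- sin (k * t) * k) + β * (cos (k * t) * k) =
      (β * k) * cos (k * t) + (-(α * k)) * sin (k * t) := by ring
  rw [h4] at h3
  exact h3

theorem hsum {m : ℕ} (ν : Fin m → ℝ) (a b : Fin m → ℝ) (t : ℝ) :
    HasDerivAt (fun t => ∑ i, (a i * cos (ν i * t) + b i * sin (ν i * t)))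
    (∑ i, ((b i * ν i) * cos (ν i * t) + (-(a i * ν i)) * sin (ν i * t))) t :=
  HasDerivAt.fun_sum (fun i _ => hterm (a i) (b i) (ν i) t)

/-- primitive of a trigonometric polynomial -/
theorem TP.prim {f : ℝ → ℝ} (h : TP f) : ∃ F, TP F ∧ ∀ t, HasDerivAt F (f t) t := by
  obtain ⟨m, ν, a, b, hν, rfl⟩ := h
  refine ⟨fun t => ∑ i, ((-(b i / ν i)) * cos (ν i * t) + (a i / ν i) * sin (ν i * t)),
    ⟨m, ν, fun i => -(b i / ν i), fun i => a i / ν i, hν, rfl⟩, ?_⟩
  intro t
  have h1 := hsum (fun i => (ν i : ℝ)) (fun i => -(b i / ν i)) (fun i => a i / ν i) t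
  convert h1 using 1
  apply Finset.sum_congr rfl
  intro i _
  have hn : (ν i : ℝ) ≠ 0 := by
    have := hν i
    positivity
  have e1 : a i / ν i * ν i = a i := by field_simp
  have e2 : -(-(b i / ν i) * ν i) = b i := by field_simp
  rw [e1, e2]

/-- solution of `w'' + w = f(2t)` -/
theorem TP.solve {f : ℝ → ℝ} (h : TP f) :
    ∃ w, TP w ∧ ∀ t, deriv (deriv w) t + w t = f (2 * t) := by
  obtain ⟨m, ν, a, b, hν, rfl⟩ := h
  let a' : Fin m → ℝ := fun i => a i / (1 - (2 * (ν i : ℝ)) ^ 2)
  let b' : Fin m → ℝ := fun i => b i / (1 - (2 * (ν i : ℝ)) ^ 2)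
  let ν' : Fin m → ℕ := fun i => 2 * ν i
  refine ⟨fun t => ∑ i, (a' i * cos (ν' i * t) + b' i * sin (ν' i * t)),
    ⟨m, ν', a', b', fun i => by have := hν i; simp only [ν']; omega, rfl⟩, ?_⟩
  have h1 : deriv (fun t => ∑ i, (a' i * cos (ν' i * t) + b' i * sin (ν' i * t))) =
      fun t => ∑ i, ((b' i * ν' i) * cos (ν' i * t) + (-(a' i * ν' i)) * sin (ν' i * t)) := by
    funext t
    exact (hsum (fun i => (ν' i : ℝ)) a' b' t).deriv
  intro t
  rw [h1, (hsum (fun i => (ν' i : ℝ)) (fun i => b' i * ν' i) (fun i => -(a' i * ν' i)) t).deriv,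
    ← Finset.sum_add_distrib]
  apply Finset.sum_congr rfl
  intro i _
  have hne : (1 - (2 * (ν i : ℝ)) ^ 2) ≠ 0 := by
    have h1 : (1 : ℝ) ≤ ν i := by exact_mod_cast hν i
    nlinarith
  have e0 : ((ν' i : ℕ) : ℝ) = 2 * ν i := by simp only [ν']; push_cast; ring
  have ea : a' i * (1 - (2 * (ν i : ℝ)) ^ 2) = a i := div_mul_cancel₀ _ hne
  have eb : b' i * (1 - (2 * (ν i : ℝ)) ^ 2) = b i := div_mul_cancel₀ _ hne
  rw [e0, show 2 * (ν i : ℝ) * t = ν i * (2 * t) by ring, ← ea, ← eb]
  ring

theorem TP.const_mul {f : ℝ → ℝ} (h : TP f) (e : ℝ) : TP (fun t => e * f t) := by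
  obtain ⟨m, ν, a, b, hν, rfl⟩ := h
  refine ⟨m, ν, fun i => e * a i, fun i => e * b i, hν, ?_⟩
  funext t
  rw [Finset.mul_sum]
  apply Finset.sum_congr rfl
  intro i _
  ring

theorem TP_negsin : TP (fun t => - sin t) :=
  ⟨1, fun _ => 1, fun _ => 0, fun _ => -1, fun _ => le_rfl, by funext t; simp⟩

theorem TP_cos : TP (fun t => cos t) :=
  ⟨1, fun _ => 1, fun _ => 1, fun _ => 0, fun _ => le_rfl, by funext t; simp⟩

/-- The nondegeneracy condition for the velocity `V`. -/
def ND (k : ℕ) (V : Fin k → ℝ → ℝ) : Prop := (∀ j, TP (V j)) ∧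
  ∀ (t0 : ℝ) (c : Fin k → ℝ),
    (∀ i < k, iteratedDeriv i (fun t => ∑ j, c j * V j t) t0 = 0) → c = 0

theorem step {k : ℕ} {V : Fin k → ℝ → ℝ} (hV : ND k V) {w : Fin k → ℝ → ℝ}
    (hw : ∀ j, TP (w j)) (hwV : ∀ j t, deriv (deriv (w j)) t + w j t = V j (2 * t)) {ε : ℝ}
    (hε : ε ≠ 0) : ND (k + 2) (Fin.cons (fun t => - sin t)
      (Fin.cons (fun t => cos t) (fun j t => ε * w j t))) := by
  refine ⟨?_, ?_⟩
  · intro j
    refine Fin.cases ?_ (fun j => ?_) j
    · exact TP_negsin
    · refine Fin.cases ?_ (fun j => ?_) j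
      · exact TP_cos
      · exact (hw j).const_mul ε
  · intro t0 c hc
    -- write out the function
    set g : ℝ → ℝ := fun t => c 0 * (- sin t) + (c 1 * cos t + ∑ j : Fin k, c j.succ.succ *
      (ε * w j t)) with hg
    have hsum : (fun t => ∑ j, c j * (Fin.cons (fun t => - sin t)
      (Fin.cons (fun t => cos t) (fun j t => ε * w j t)) : Fin (k + 2) → ℝ → ℝ) j t) = g := by
      funext t
      rw [Fin.sum_univ_succ, Fin.sum_univ_succ]
      rfl
    rw [hsum] at hc
    have hwc : ∀ j, ContDiff ℝ ∞ (w j) := fun j => (hw j).contDiff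
    have hgc : ContDiff ℝ ∞ g := by
      rw [hg]
      fun_prop
    -- apply D^2 + 1
    have hL : ∀ t, deriv (deriv g) t + g t = ε * ∑ j : Fin k, c j.succ.succ * V j (2 * t) := by
      intro t
      have hd : ∀ j t, HasDerivAt (w j) (deriv (w j) t) t := fun j t =>
        ((hwc j).differentiable (by simp)).differentiableAt.hasDerivAt
      have hdd : ∀ j t, HasDerivAt (deriv (w j)) (deriv (deriv (w j)) t) t := fun j t => by
        have : ContDiff ℝ ∞ (deriv (w j)) := (contDiff_infty_iff_deriv.mp (hwc j)).2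
        exact (this.differentiable (by simp)).differentiableAt.hasDerivAt
      have h1 : deriv g = fun t => c 0 * (- cos t) + (c 1 * (- sin t) + ∑ j : Fin k,
          c j.succ.succ * (ε * deriv (w j) t)) := by
        funext t
        apply HasDerivAt.deriv
        apply HasDerivAt.add
        · exact (Real.hasDerivAt_sin t).neg.const_mul _
        · apply HasDerivAt.add
          · exact (Real.hasDerivAt_cos t).const_mul _
          · apply HasDerivAt.fun_sum
            intro j _
            exact ((hd j t).const_mul ε).const_mul _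
      have h2 : HasDerivAt (fun t => c 0 * (- cos t) + (c 1 * (- sin t) + ∑ j : Fin k,
          c j.succ.succ * (ε * deriv (w j) t))) (c 0 * (- (- sin t)) + (c 1 * (- cos t) +
          ∑ j : Fin k, c j.succ.succ * (ε * deriv (deriv (w j)) t))) t := by
        apply HasDerivAt.add
        · exact (Real.hasDerivAt_cos t).neg.const_mul _
        · apply HasDerivAt.add
          · exact (Real.hasDerivAt_sin t).neg.const_mul _
          · apply HasDerivAt.fun_sum
            intro j _
            exact ((hdd j t).const_mul ε).const_mul _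
      rw [h1, h2.deriv, hg]
      simp only
      have h3 : ∑ j : Fin k, c j.succ.succ * (ε * deriv (deriv (w j)) t) +
          ∑ j : Fin k, c j.succ.succ * (ε * w j t) =
          ε * ∑ j : Fin k, c j.succ.succ * V j (2 * t) := by
        rw [← Finset.sum_add_distrib, Finset.mul_sum]
        apply Finset.sum_congr rfl
        intro j _
        rw [← hwV]; ring
      rw [← h3]; ring
    have hVc : ∀ j, ContDiff ℝ ∞ (V j) := fun j => (hV.1 j).contDiff
    have hc' : (fun j : Fin k => c j.succ.succ) = 0 := by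
      apply hV.2 (2 * t0)
      intro i hi
      set G : ℝ → ℝ := fun t => ∑ j : Fin k, c j.succ.succ * V j t with hG
      have hGc : ContDiff ℝ ∞ G := by rw [hG]; fun_prop
      have h1 : iteratedDeriv i (fun t => G (2 * t)) t0 = 2 ^ i * iteratedDeriv i G (2 * t0) := by
        have := iteratedDeriv_comp_const_mul (n := i) (f := G) (hGc.of_le (by exact_mod_cast le_top)) 2
        rw [this]
      have h2 : (fun t => G (2 * t)) = fun t => ε⁻¹ * (deriv (deriv g) t + g t) := by
        funext t
        rw [hL t, ← mul_assoc, inv_mul_cancel₀ hε, one_mul]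
      have h3 : iteratedDeriv i (fun t => G (2 * t)) t0 = 0 := by
        rw [h2]
        have hdg : ContDiff ℝ ∞ (deriv g) := (contDiff_infty_iff_deriv.mp hgc).2
        have hddg : ContDiff ℝ ∞ (deriv (deriv g)) := (contDiff_infty_iff_deriv.mp hdg).2
        rw [iteratedDeriv_const_mul_field, iteratedDeriv_fun_add
          (hddg.contDiffAt.of_le (by exact_mod_cast le_top))
          (hgc.contDiffAt.of_le (by exact_mod_cast le_top))]
        rw [← iteratedDeriv_succ', ← iteratedDeriv_succ', hc (i + 1 + 1) (by omega),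
          hc i (by omega)]
        ring
      rw [h3] at h1
      have h4 : (2 : ℝ) ^ i ≠ 0 := by positivity
      exact (mul_eq_zero.mp h1.symm).resolve_left h4
    have hcj : ∀ j : Fin k, c j.succ.succ = 0 := fun j => congrFun hc' j
    have hg' : g = fun t => c 0 * (- sin t) + c 1 * cos t := by
      rw [hg]; funext t; simp [hcj]
    have h0 := hc 0 (by omega)
    have h1 := hc 1 (by omega)
    rw [iteratedDeriv_zero, hg'] at h0
    rw [iteratedDeriv_one, hg'] at h1
    have hd1 : deriv (fun t => c 0 * (- sin t) + c 1 * cos t) t0 =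
        c 0 * (- cos t0) + c 1 * (- sin t0) := by
      apply HasDerivAt.deriv
      exact ((Real.hasDerivAt_sin t0).neg.const_mul _).add ((Real.hasDerivAt_cos t0).const_mul _)
    rw [hd1] at h1
    simp only at h0
    have hsc := sin_sq_add_cos_sq t0
    have e0 : c 0 = 0 := by
      have : c 0 * (sin t0 ^ 2 + cos t0 ^ 2) = 0 := by
        linear_combination (- sin t0) * h0 - cos t0 * h1
      rwa [hsc, mul_one] at this
    have e1 : c 1 = 0 := by
      have : c 1 * (sin t0 ^ 2 + cos t0 ^ 2) = 0 := by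
        linear_combination (cos t0) * h0 - sin t0 * h1
      rwa [hsc, mul_one] at this
    funext j
    refine Fin.cases ?_ (fun j => ?_) j
    · exact e0
    · refine Fin.cases ?_ (fun j => ?_) j
      · exact e1
      · exact hcj j

theorem base2 : ND 2 (Fin.cons (fun t => - sin t) (Fin.cons (fun t => cos t)
    (fun j : Fin 0 => Fin.elim0 j))) := by
  have h := step (k := 0) (V := fun j => Fin.elim0 j) (w := fun j => Fin.elim0 j) (ε := 1)
    ⟨fun j => Fin.elim0 j, fun _ c _ => by funext j; exact Fin.elim0 j⟩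
    (fun j => Fin.elim0 j) (fun j => Fin.elim0 j) one_ne_zero
  have e : (fun (j : Fin 0) (t : ℝ) => (1 : ℝ) * (Fin.elim0 j : ℝ → ℝ) t) =
      (fun j : Fin 0 => (Fin.elim0 j : ℝ → ℝ)) := by
    funext j; exact Fin.elim0 j
  rw [e] at h
  exact h

/-- the three-dimensional base curve -/
noncomputable def V3 : Fin 3 → ℝ → ℝ :=
  ![fun t => ∑ i : Fin 2, (![1, 1] i * cos ((![1, 2] i : ℕ) * t) + ![0, 0] i *
      sin ((![1, 2] i : ℕ) * t)),
    fun t => ∑ i : Fin 2, (![0, 0] i * cos ((![1, 2] i : ℕ) * t) + ![1, -1] i *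
      sin ((![1, 2] i : ℕ) * t)),
    fun t => ∑ i : Fin 1, (![1] i * cos ((![3] i : ℕ) * t) + ![0] i *
      sin ((![3] i : ℕ) * t))]

theorem V3_0 : V3 0 = fun t => cos t + cos (2 * t) := by
  funext t; simp [V3]

theorem V3_1 : V3 1 = fun t => sin t - sin (2 * t) := by
  funext t; simp [V3]; ring

theorem V3_2 : V3 2 = fun t => cos (3 * t) := by
  funext t; simp [V3]

theorem base3 : ND 3 V3 := by
  refine ⟨?_, ?_⟩
  · intro j
    fin_cases j
    · exact ⟨2, _, _, _, by intro i; fin_cases i <;> simp, rfl⟩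
    · exact ⟨2, _, _, _, by intro i; fin_cases i <;> simp, rfl⟩
    · exact ⟨1, _, _, _, by intro i; fin_cases i; simp, rfl⟩
  · intro t c hc
    have hsum : (fun t => ∑ j, c j * V3 j t) = fun t => c 0 * (cos t + cos (2 * t)) +
        c 1 * (sin t - sin (2 * t)) + c 2 * cos (3 * t) := by
      funext t
      rw [Fin.sum_univ_three, V3_0, V3_1, V3_2]
    rw [hsum] at hc
    have hd1 : deriv (fun t => c 0 * (cos t + cos (2 * t)) +
        c 1 * (sin t - sin (2 * t)) + c 2 * cos (3 * t)) =
        fun t => c 0 * (- sin t - 2 * sin (2 * t)) + c 1 * (cos t - 2 * cos (2 * t)) +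
        c 2 * (- 3 * sin (3 * t)) := by
      funext t
      apply HasDerivAt.deriv
      have h1 := hterm 1 0 1 t
      have h2 := hterm 1 0 2 t
      have h3 := hterm 0 1 1 t
      have h4 := hterm 0 1 2 t
      have h5 := hterm 1 0 3 t
      simp only [one_mul, zero_mul, add_zero, zero_add, neg_zero] at h1 h2 h3 h4 h5
      have h6 := (((h1.add h2).const_mul (c 0)).add ((h3.sub h4).const_mul (c 1))).add
        (h5.const_mul (c 2))
      exact h6.congr_deriv (by ring)
    have hd2 : deriv (fun t => c 0 * (- sin t - 2 * sin (2 * t)) +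
        c 1 * (cos t - 2 * cos (2 * t)) + c 2 * (- 3 * sin (3 * t))) t =
        c 0 * (- cos t - 4 * cos (2 * t)) + c 1 * (- sin t + 4 * sin (2 * t)) +
        c 2 * (- 9 * cos (3 * t)) := by
      apply HasDerivAt.deriv
      have h1 := hterm 0 (-1) 1 t
      have h2 := hterm 0 2 2 t
      have h3 := hterm 1 0 1 t
      have h4 := hterm 2 0 2 t
      have h5 := hterm 0 (-3) 3 t
      simp only [one_mul, zero_mul, add_zero, zero_add, neg_zero, neg_mul] at h1 h2 h3 h4 h5
      have h6 := (((h1.sub h2).const_mul (c 0)).add ((h3.sub h4).const_mul (c 1))).add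
        (h5.const_mul (c 2))
      simp only [neg_mul]
      exact h6.congr_deriv (by ring)
    have E0 := hc 0 (by norm_num)
    have E1 := hc 1 (by norm_num)
    have E2 := hc 2 (by norm_num)
    rw [iteratedDeriv_zero] at E0
    rw [iteratedDeriv_one, hd1] at E1
    rw [iteratedDeriv_succ, iteratedDeriv_one, hd1, hd2] at E2
    simp only at E0 E1
    have hsc := sin_sq_add_cos_sq t
    have hSC := sin_sq_add_cos_sq (3 * t)
    have hc2 : cos (2 * t) = cos (3 * t) * cos t + sin (3 * t) * sin t := by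
      rw [← cos_sub]; ring_nf
    have hs2 : sin (2 * t) = sin (3 * t) * cos t - cos (3 * t) * sin t := by
      rw [← sin_sub]; ring_nf
    rw [hc2, hs2] at E0 E1 E2
    set C := cos (3 * t)
    set S := sin (3 * t)
    set u := c 0 * cos t + c 1 * sin t with hu
    set v := - c 0 * sin t + c 1 * cos t with hv
    have F0 : (1 + C) * u - S * v + C * c 2 = 0 := by rw [hu, hv]; linear_combination E0
    have F1 : - 2 * S * u + (1 - 2 * C) * v - 3 * S * c 2 = 0 := by
      rw [hu, hv]; linear_combination E1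
    have F2 : (- 1 - 4 * C) * u + 4 * S * v - 9 * C * c 2 = 0 := by
      rw [hu, hv]; linear_combination E2
    have hdet : 0 < 9 + 2 * C + 2 * C ^ 2 := by nlinarith [sq_nonneg (C + 1)]
    have hu0 : u = 0 := by
      have : (9 + 2 * C + 2 * C ^ 2) * u = 0 := by
        linear_combination ((1 - 2 * C) * (- 9 * C) + 12 * S ^ 2) * F0 + (- 5 * S * C) * F1 +
          (3 * S ^ 2 - C + 2 * C ^ 2) * F2 - ((9 + 10 * C) * u) * hSC
      exact (mul_eq_zero.mp this).resolve_left hdet.ne'
    have hv0 : v = 0 := by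
      have : (9 + 2 * C + 2 * C ^ 2) * v = 0 := by
        linear_combination (3 * S - 6 * S * C) * F0 + (- 8 * C - 5 * C ^ 2) * F1 +
          (3 * S + S * C) * F2 - ((9 + 10 * C) * v) * hSC
      exact (mul_eq_zero.mp this).resolve_left hdet.ne'
    have h20 : c 2 = 0 := by
      have : (9 + 2 * C + 2 * C ^ 2) * c 2 = 0 := by
        linear_combination (- 8 * S ^ 2 + (1 - 2 * C) * (1 + 4 * C)) * F0 + (- 3 * S) * F1 +
          (1 - C - 2 * C ^ 2 - 2 * S ^ 2) * F2 - ((9 + 10 * C) * c 2) * hSC
      exact (mul_eq_zero.mp this).resolve_left hdet.ne'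
    have h00 : c 0 = 0 := by
      have : c 0 * (sin t ^ 2 + cos t ^ 2) = 0 := by
        linear_combination (cos t) * (hu0) - (sin t) * (hv0)
      rwa [hsc, mul_one] at this
    have h10 : c 1 = 0 := by
      have : c 1 * (sin t ^ 2 + cos t ^ 2) = 0 := by
        linear_combination (sin t) * (hu0) + (cos t) * (hv0)
      rwa [hsc, mul_one] at this
    funext j
    fin_cases j
    · exact h00
    · exact h10
    · exact h20

/-- In every dimension `≥ 2` there is a closed nondegenerate curve (velocity form). -/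
theorem exists_ND (k : ℕ) (hk : 2 ≤ k) : ∃ V : Fin k → ℝ → ℝ, ND k V := by
  induction k using Nat.strong_induction_on with
  | _ k ih =>
    by_cases h2 : k = 2
    · subst h2; exact ⟨_, base2⟩
    · by_cases h3 : k = 3
      · subst h3; exact ⟨_, base3⟩
      · obtain ⟨m, rfl⟩ : ∃ m, k = m + 2 := ⟨k - 2, by omega⟩
        obtain ⟨V, hV⟩ := ih m (by omega) (by omega)
        choose w hw hwV using fun j => (hV.1 j).solve
        exact ⟨_, step hV hw hwV one_ne_zero⟩

end Pool.Agent.X150.ND
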