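import Pool.Agent.X150.PonDefs

open Complex

namespace Pool.Agent.X150.Pon

/-- frame coordinate -/
noncomputable def fr (E : Ellipse) (X : Pl) : ℂ :=
  ⟨Real.sqrt E.p * (X 0 - E.cx) + E.q / Real.sqrt E.p * (X 1 - E.cy),
    Real.sqrt ((E.p * E.r - E.q ^ 2) / E.p) * (X 1 - E.cy)⟩

theorem fr_normSq (E : Ellipse) (X : Pl) : normSq (fr E X) = E.form X := by
  have hp := E.hp
  have hd := E.hd
  have h1 : Real.sqrt E.p ^ 2 = E.p := Real.sq_sqrt hp.le
  have h2 : Real.sqrt ((E.p * E.r - E.q ^ 2) / E.p) ^ 2 = (E.p * E.r - E.q ^ 2) / E.p :=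
    Real.sq_sqrt (by positivity)
  have hs : 0 < Real.sqrt E.p := Real.sqrt_pos.mpr hp
  rw [normSq_apply]
  simp only [fr, Ellipse.form]
  set s := Real.sqrt E.p
  set t := Real.sqrt ((E.p * E.r - E.q ^ 2) / E.p)
  set x := X 0 - E.cx
  set y := X 1 - E.cy
  have e1 : (s * x + E.q / s * y) * (s * x + E.q / s * y) + t * y * (t * y) =
      s ^ 2 * x ^ 2 + 2 * E.q * x * y + E.q ^ 2 / s ^ 2 * y ^ 2 + t ^ 2 * y ^ 2 := by
    field_simp
    ring
  rw [e1, h1, h2]
  field_simp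
  ring

/-- every complex number is a frame coordinate -/
theorem fr_surj (E : Ellipse) (z : ℂ) : ∃ X : Pl, fr E X = z := by
  have hp := E.hp
  have hd := E.hd
  have hs : 0 < Real.sqrt E.p := Real.sqrt_pos.mpr hp
  have ht : 0 < Real.sqrt ((E.p * E.r - E.q ^ 2) / E.p) := Real.sqrt_pos.mpr (by positivity)
  set s := Real.sqrt E.p with hsdef
  set t := Real.sqrt ((E.p * E.r - E.q ^ 2) / E.p) with htdef
  refine ⟨!₂[E.cx + (z.re - E.q / s * (z.im / t)) / s, E.cy + z.im / t], ?_⟩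
  apply Complex.ext
  · simp only [fr, ← hsdef, Matrix.cons_val_zero, Matrix.cons_val_one]
    field_simp
    ring
  · simp only [fr, ← htdef, Matrix.cons_val_one, Matrix.cons_val_zero, Matrix.cons_val_fin_one]
    field_simp
    ring

/-- Any positive definite quadratic form of differences in frame coordinates. -/
theorem conv (E : Ellipse) (p q r : ℝ) (hp' : 0 < p) (hd' : 0 < p * r - q ^ 2) :
    ∃ (h : ℝ) (k : ℂ), 0 < h ∧ normSq k < h ^ 2 ∧ ∀ X Y : Pl,
      p * (X 0 - Y 0) ^ 2 + 2 * q * (X 0 - Y 0) * (X 1 - Y 1) + r * (X 1 - Y 1) ^ 2 =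
        h * normSq (fr E X - fr E Y) + (k * (fr E X - fr E Y) ^ 2).re := by
  have hp := E.hp
  have hd := E.hd
  have hs : 0 < Real.sqrt E.p := Real.sqrt_pos.mpr hp
  have ht : 0 < Real.sqrt ((E.p * E.r - E.q ^ 2) / E.p) := Real.sqrt_pos.mpr (by positivity)
  set s := Real.sqrt E.p with hsdef
  set t := Real.sqrt ((E.p * E.r - E.q ^ 2) / E.p) with htdef
  set a11 : ℝ := p / s ^ 2 with h11
  set a12 : ℝ := -(p * E.q) / (s ^ 3 * t) + q / (s * t) with h12
  set a22 : ℝ := p * E.q ^ 2 / (s ^ 4 * t ^ 2) - 2 * q * E.q / (s ^ 2 * t ^ 2) + r / t ^ 2 with h22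
  have hdet : a11 * a22 - a12 ^ 2 = (p * r - q ^ 2) / (s ^ 2 * t ^ 2) := by
    rw [h11, h12, h22]
    field_simp
    ring
  have hdetpos : 0 < a11 * a22 - a12 ^ 2 := by rw [hdet]; positivity
  have h11pos : 0 < a11 := by positivity
  have h22pos : 0 < a22 := by
    by_contra hneg
    push Not at hneg
    nlinarith [sq_nonneg a12]
  refine ⟨(a11 + a22) / 2, ⟨(a11 - a22) / 2, - a12⟩, by positivity, ?_, ?_⟩
  · rw [normSq_mk]; nlinarith
  · intro X Y
    have e1 : fr E X - fr E Y = ⟨s * (X 0 - Y 0) + E.q / s * (X 1 - Y 1), t * (X 1 - Y 1)⟩ := by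
      apply Complex.ext
      · simp only [fr, sub_re, ← hsdef]; ring
      · simp only [fr, sub_im, ← htdef]; ring
    have e3 : ∀ k w : ℂ, (k * w ^ 2).re = k.re * (w.re * w.re - w.im * w.im) -
        k.im * (w.re * w.im + w.im * w.re) := by
      intro k w
      rw [pow_two w, mul_re, mul_re, mul_im]
    rw [e1, normSq_mk, e3]
    set x := X 0 - Y 0
    set y := X 1 - Y 1
    simp only
    have e2 : (a11 + a22) / 2 * ((s * x + E.q / s * y) * (s * x + E.q / s * y) +
        t * y * (t * y)) + ((a11 - a22) / 2 * ((s * x + E.q / s * y) * (s * x + E.q / s * y) -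
        t * y * (t * y)) - -a12 * ((s * x + E.q / s * y) * (t * y) +
        t * y * (s * x + E.q / s * y))) =
        a11 * (s * x + E.q / s * y) ^ 2 + 2 * a12 * (s * x + E.q / s * y) * (t * y) +
        a22 * (t * y) ^ 2 := by ring
    rw [e2, h11, h12, h22]
    field_simp
    ring

/-- frame coordinates are affine -/
theorem fr_lineMap (E : Ellipse) (A B : Pl) (t : ℝ) :
    fr E (AffineMap.lineMap A B t) = fr E A + t * (fr E B - fr E A) := by
  have h0 : ∀ i, (AffineMap.lineMap A B t : Pl) i = A i + t * (B i - A i) := by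
    intro i
    rw [AffineMap.lineMap_apply]
    simp only [vsub_eq_sub, vadd_eq_add, PiLp.add_apply, PiLp.smul_apply, PiLp.sub_apply,
      smul_eq_mul]
    ring
  apply Complex.ext
  · simp only [fr, h0, add_re, mul_re, sub_re, sub_im, ofReal_re, ofReal_im]; ring
  · simp only [fr, h0, add_im, mul_im, sub_re, sub_im, ofReal_re, ofReal_im]; ring

theorem fr_injective (E : Ellipse) : Function.Injective (fr E) := by
  intro X Y hXY
  have hp := E.hp
  have hd := E.hd
  have hs : 0 < Real.sqrt E.p := Real.sqrt_pos.mpr hp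
  have ht : 0 < Real.sqrt ((E.p * E.r - E.q ^ 2) / E.p) := Real.sqrt_pos.mpr (by positivity)
  have h1 := congrArg Complex.im hXY
  have h0 := congrArg Complex.re hXY
  simp only [fr] at h0 h1
  have e1 : X 1 = Y 1 := by
    have := mul_left_cancel₀ ht.ne' h1
    linarith
  have e0 : X 0 = Y 0 := by
    rw [e1] at h0
    have h2 : Real.sqrt E.p * (X 0 - E.cx) = Real.sqrt E.p * (Y 0 - E.cx) := by linarith
    have := mul_left_cancel₀ hs.ne' h2
    linarith
  ext i
  fin_cases i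
  · exact e0
  · exact e1

/-- Tangency of a line in frame coordinates, discriminant form. -/
theorem tangent_disc (E Ec : Ellipse) {h : ℝ} {k : ℂ} (hh : 0 < h) (hk : normSq k < h ^ 2)
    {z0 : ℂ} (hform : ∀ X, Ec.form X = h * normSq (fr E X - z0) + (k * (fr E X - z0) ^ 2).re)
    {A B : Pl} (hT : IsTangentLine Ec A B) :
    h * normSq (fr E B - fr E A) + (k * (fr E B - fr E A) ^ 2).re =
      (h ^ 2 - normSq k) *
        ((starRingEnd ℂ (fr E A - z0)) * (fr E B - fr E A)).im ^ 2 := by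
  obtain ⟨hne, X, ⟨hX1, hX2⟩, huniq⟩ := hT
  have hηne : fr E B - fr E A ≠ 0 := sub_ne_zero.mpr (fun h' => hne (fr_injective E h').symm)
  set ζ := fr E A - z0 with hζ
  set η := fr E B - fr E A with hη
  set Q : ℂ → ℝ := fun z => h * normSq z + (k * z ^ 2).re with hQ
  set b : ℝ := h * (starRingEnd ℂ ζ * η).re + (k * (ζ * η)).re with hb
  -- expansion
  have hexp : ∀ t : ℝ, Ec.form (AffineMap.lineMap A B t) = Q ζ + 2 * t * b + t ^ 2 * Q η := by
    intro t
    rw [hform, fr_lineMap]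
    have e1 : fr E A + (t : ℂ) * (fr E B - fr E A) - z0 = ζ + t * η := by rw [hζ, hη]; ring
    rw [e1]
    simp only [hQ, hb]
    simp only [normSq_apply, mul_re, mul_im, add_re, add_im, ofReal_re, ofReal_im, conj_re,
      conj_im, sq]
    ring
  -- Q η > 0
  have hQη : 0 < Q η := by
    have h1 : 0 < normSq η := normSq_pos.mpr hηne
    have h2 : |(k * η ^ 2).re| ≤ ‖k‖ * normSq η := by
      calc |(k * η ^ 2).re| ≤ ‖k * η ^ 2‖ := abs_re_le_norm _
        _ = ‖k‖ * normSq η := by rw [norm_mul, norm_pow, ← normSq_eq_norm_sq]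
    have h3 : ‖k‖ < h := by
      have : ‖k‖ ^ 2 < h ^ 2 := by rw [← normSq_eq_norm_sq]; exact hk
      exact lt_of_pow_lt_pow_left₀ 2 hh.le this
    have h4 := (abs_le.mp h2).1
    simp only [hQ]
    nlinarith
  -- the tangent point
  obtain ⟨t0, rfl⟩ := mem_affineSpan_pair_iff_exists_lineMap_eq.mp hX2
  have hroot0 : Q ζ + 2 * t0 * b + t0 ^ 2 * Q η = 1 := by rw [← hexp]; exact hX1
  set t1 : ℝ := - 2 * b / Q η - t0 with ht1
  have hroot1 : Q ζ + 2 * t1 * b + t1 ^ 2 * Q η = 1 := by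
    rw [← hroot0, ht1]
    field_simp
    ring
  have hmem1 : (AffineMap.lineMap A B t1 : Pl) ∈ Ec.curve ∧
      (AffineMap.lineMap A B t1 : Pl) ∈ line[ℝ, A, B] := by
    refine ⟨?_, AffineMap.lineMap_mem_affineSpan_pair t1 A B⟩
    change Ec.form _ = 1
    rw [hexp]; exact hroot1
  have heq := huniq _ hmem1
  have ht : t1 = t0 := by
    have h1 := congrArg (fr E) heq
    rw [fr_lineMap, fr_lineMap] at h1
    have h2 : ((t1 : ℂ) - t0) * (fr E B - fr E A) = 0 := by linear_combination h1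
    have h3 := (mul_eq_zero.mp h2).resolve_right hηne
    have h4 : (t1 : ℂ) = t0 := sub_eq_zero.mp h3
    exact_mod_cast h4
  have hbt : b = - t0 * Q η := by
    have h1 : - 2 * b / Q η = 2 * t0 := by rw [ht1] at ht; linarith
    rw [div_eq_iff hQη.ne'] at h1
    linarith
  have hdisc : Q η * Q ζ - b ^ 2 = Q η := by
    rw [hbt] at hroot0 ⊢
    have : Q ζ - t0 ^ 2 * Q η = 1 := by linarith
    linear_combination (Q η) * this
  have hident : Q η * Q ζ - b ^ 2 = (h ^ 2 - normSq k) * (starRingEnd ℂ ζ * η).im ^ 2 := by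
    simp only [hQ, hb]
    simp only [normSq_apply, mul_re, mul_im, conj_re, conj_im, sq]
    ring
  rw [← hident, hdisc]

/-- The dual form of the tangency condition for a chord of the unit circle. -/
theorem tangent_dual {h : ℝ} {k z0 a b : ℂ} (ha : normSq a = 1) (hb : normSq b = 1) (hab : b ≠ a)
    (hT : h * normSq (b - a) + (k * (b - a) ^ 2).re =
      (h ^ 2 - normSq k) * ((starRingEnd ℂ (a - z0)) * (b - a)).im ^ 2) :
    ((h ^ 2 - normSq k : ℝ) : ℂ) * (a + b - z0 - a * b * starRingEnd ℂ z0) ^ 2 =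
      4 * h * (a * b) - 2 * k * (a * b) ^ 2 - 2 * starRingEnd ℂ k := by
  have ha1 : a * starRingEnd ℂ a = 1 := by rw [mul_conj, ha]; simp
  have hb1 : b * starRingEnd ℂ b = 1 := by rw [mul_conj, hb]; simp
  have ha0 : a ≠ 0 := by rintro rfl; simp at ha
  have hb0 : b ≠ 0 := by rintro rfl; simp at hb
  have hη : b - a ≠ 0 := sub_ne_zero.mpr hab
  -- complexify
  have e1 : ((h * normSq (b - a) + (k * (b - a) ^ 2).re : ℝ) : ℂ) =
      h * ((b - a) * starRingEnd ℂ (b - a)) +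
      (k * (b - a) ^ 2 + starRingEnd ℂ (k * (b - a) ^ 2)) / 2 := by
    push_cast
    rw [mul_conj, add_conj]
    push_cast; ring
  have e2 : ((((starRingEnd ℂ (a - z0)) * (b - a)).im ^ 2 : ℝ) : ℂ) =
      - (starRingEnd ℂ (a - z0) * (b - a) - starRingEnd ℂ (starRingEnd ℂ (a - z0) * (b - a))) ^ 2
        / 4 := by
    rw [sub_conj]
    push_cast
    have : (I : ℂ) ^ 2 = -1 := I_sq
    linear_combination (((((starRingEnd ℂ (a - z0)) * (b - a)).im : ℂ)) ^ 2) * this
  have e3 : ((h * normSq (b - a) + (k * (b - a) ^ 2).re : ℝ) : ℂ) =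
      ((h ^ 2 - normSq k : ℝ) : ℂ) * ((((starRingEnd ℂ (a - z0)) * (b - a)).im ^ 2 : ℝ) : ℂ) := by
    rw [hT]; push_cast; ring
  rw [e1, e2] at e3
  simp only [map_sub, map_mul, map_pow, conj_conj] at e3
  set a' := starRingEnd ℂ a
  set b' := starRingEnd ℂ b
  set z0' := starRingEnd ℂ z0
  set k' := starRingEnd ℂ k
  set D : ℂ := ((h ^ 2 - normSq k : ℝ) : ℂ)
  have hη' : (b' - a') * (a * b) = - (b - a) := by
    linear_combination a * hb1 - b * ha1
  -- multiply `e3` by `4 (ab)^2`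
  have key : (b - a) ^ 2 * (D * (a + b - z0 - a * b * z0') ^ 2 -
      (4 * h * (a * b) - 2 * k * (a * b) ^ 2 - 2 * k')) = 0 := by
    have f1 : (a' - z0') * (b - a) * (a * b) - (a - z0) * ((b' - a') * (a * b)) =
        (b - a) * (a + b - z0 - a * b * z0') := by
      rw [hη']
      linear_combination (b * (b - a)) * ha1
    have f2 : (4 * (a * b) ^ 2) * (h * ((b - a) * (b' - a')) +
        (k * (b - a) ^ 2 + k' * (b' - a') ^ 2) / 2) =
        - 4 * h * (a * b) * (b - a) ^ 2 + 2 * k * (a * b) ^ 2 * (b - a) ^ 2 +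
        2 * k' * (b - a) ^ 2 := by
      linear_combination (4 * h * (a * b) * (b - a)) * hη' +
        (2 * k' * ((b' - a') * (a * b) - (b - a))) * hη'
    have f3 : (4 * (a * b) ^ 2) * (D * (-((a' - z0') * (b - a) - (a - z0) * (b' - a')) ^ 2 / 4)) =
        - D * ((b - a) * (a + b - z0 - a * b * z0')) ^ 2 := by
      rw [← f1]; ring
    have f4 : (4 * (a * b) ^ 2) * (h * ((b - a) * (b' - a')) +
        (k * (b - a) ^ 2 + k' * (b' - a') ^ 2) / 2) =
        (4 * (a * b) ^ 2) * (D * (-((a' - z0') * (b - a) - (a - z0) * (b' - a')) ^ 2 / 4)) := by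
      rw [e3]
    rw [f2, f3] at f4
    linear_combination f4
  have h1 := (mul_eq_zero.mp key).resolve_left (pow_ne_zero 2 hη)
  exact sub_eq_zero.mp h1

/-- Vieta for quartics with three known roots. -/
theorem vieta {L A K C D z1 z2 z3 : ℂ} (h12 : z1 ≠ z2) (h23 : z2 ≠ z3) (h31 : z3 ≠ z1)
    (h1 : L * z1 ^ 4 - A * z1 ^ 3 + K * z1 ^ 2 - C * z1 + D = 0)
    (h2 : L * z2 ^ 4 - A * z2 ^ 3 + K * z2 ^ 2 - C * z2 + D = 0)
    (h3 : L * z3 ^ 4 - A * z3 ^ 3 + K * z3 ^ 2 - C * z3 + D = 0) :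
    D = z1 * z2 * z3 * (A - L * (z1 + z2 + z3)) ∧
    K = L * (z1 * z2 + z2 * z3 + z3 * z1) + (z1 + z2 + z3) * (A - L * (z1 + z2 + z3)) := by
  have hV : (z1 - z2) * (z2 - z3) * (z3 - z1) ≠ 0 :=
    mul_ne_zero (mul_ne_zero (sub_ne_zero.mpr h12) (sub_ne_zero.mpr h23)) (sub_ne_zero.mpr h31)
  constructor
  · apply mul_left_cancel₀ hV
    linear_combination (-(z2 * z3 * (z2 - z3))) * h1 - (z3 * z1 * (z3 - z1)) * h2 -
      (z1 * z2 * (z1 - z2)) * h3
  · apply mul_left_cancel₀ hV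
    linear_combination (-(z2 - z3)) * h1 - (z3 - z1) * h2 - (z1 - z2) * h3

end Pool.Agent.X150.Pon
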