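import Pool.Agent.X150.Pon1

open Complex

namespace Pool.Agent.X150.Pon

/-- Sum of the vertices in the frame. -/
theorem e1_formula {h : ℝ} {k z0 z1 z2 z3 : ℂ} (hk : normSq k < h ^ 2)
    (n1 : normSq z1 = 1) (n2 : normSq z2 = 1) (n3 : normSq z3 = 1)
    (h12 : z1 ≠ z2) (h23 : z2 ≠ z3) (h31 : z3 ≠ z1)
    (t12 : ((h ^ 2 - normSq k : ℝ) : ℂ) * (z1 + z2 - z0 - z1 * z2 * starRingEnd ℂ z0) ^ 2 =
      4 * h * (z1 * z2) - 2 * k * (z1 * z2) ^ 2 - 2 * starRingEnd ℂ k)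
    (t23 : ((h ^ 2 - normSq k : ℝ) : ℂ) * (z2 + z3 - z0 - z2 * z3 * starRingEnd ℂ z0) ^ 2 =
      4 * h * (z2 * z3) - 2 * k * (z2 * z3) ^ 2 - 2 * starRingEnd ℂ k)
    (t31 : ((h ^ 2 - normSq k : ℝ) : ℂ) * (z3 + z1 - z0 - z3 * z1 * starRingEnd ℂ z0) ^ 2 =
      4 * h * (z3 * z1) - 2 * k * (z3 * z1) ^ 2 - 2 * starRingEnd ℂ k) :
    z1 + z2 + z3 = 2 * z0 +
      (starRingEnd ℂ z0 ^ 2 + 2 * k / ((h ^ 2 - normSq k : ℝ) : ℂ)) * (z1 * z2 * z3) := by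
  have hD : ((h ^ 2 - normSq k : ℝ) : ℂ) ≠ 0 := by
    rw [Ne, ofReal_eq_zero]; linarith
  have a1 : z1 ≠ 0 := by rintro rfl; simp at n1
  have a2 : z2 ≠ 0 := by rintro rfl; simp at n2
  have a3 : z3 ≠ 0 := by rintro rfl; simp at n3
  set D : ℂ := ((h ^ 2 - normSq k : ℝ) : ℂ)
  set c := starRingEnd ℂ z0
  set k' := starRingEnd ℂ k
  set e1 := z1 + z2 + z3 with he1
  set e3 := z1 * z2 * z3 with he3
  have q1 : D * z1 ^ 4 - (2 * D * (e1 - z0)) * z1 ^ 3 +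
      (D * ((e1 - z0) ^ 2 + 2 * e3 * c) + 2 * k') * z1 ^ 2 -
      (2 * D * (e1 - z0) * e3 * c + 4 * h * e3) * z1 + (D * e3 ^ 2 * c ^ 2 + 2 * k * e3 ^ 2) = 0 := by
    rw [he1, he3]
    linear_combination (z1 ^ 2) * t23
  have q2 : D * z2 ^ 4 - (2 * D * (e1 - z0)) * z2 ^ 3 +
      (D * ((e1 - z0) ^ 2 + 2 * e3 * c) + 2 * k') * z2 ^ 2 -
      (2 * D * (e1 - z0) * e3 * c + 4 * h * e3) * z2 + (D * e3 ^ 2 * c ^ 2 + 2 * k * e3 ^ 2) = 0 := by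
    rw [he1, he3]
    linear_combination (z2 ^ 2) * t31
  have q3 : D * z3 ^ 4 - (2 * D * (e1 - z0)) * z3 ^ 3 +
      (D * ((e1 - z0) ^ 2 + 2 * e3 * c) + 2 * k') * z3 ^ 2 -
      (2 * D * (e1 - z0) * e3 * c + 4 * h * e3) * z3 + (D * e3 ^ 2 * c ^ 2 + 2 * k * e3 ^ 2) = 0 := by
    rw [he1, he3]
    linear_combination (z3 ^ 2) * t12
  have hv := (vieta h12 h23 h31 q1 q2 q3).1
  have he30 : e3 ≠ 0 := mul_ne_zero (mul_ne_zero a1 a2) a3
  rw [← he1, ← he3] at hv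
  have h1 : D * e3 * c ^ 2 + 2 * k * e3 = D * e1 - 2 * D * z0 := by
    apply mul_left_cancel₀ he30
    linear_combination hv
  field_simp
  linear_combination -h1

/-- circle through the three vertices in the frame -/
theorem circle_formula {κ0 r : ℝ} {κ1 o z1 z2 z3 : ℂ}
    (n1 : normSq z1 = 1) (n2 : normSq z2 = 1) (n3 : normSq z3 = 1)
    (h12 : z1 ≠ z2) (h23 : z2 ≠ z3) (h31 : z3 ≠ z1)
    (c1 : κ0 * normSq (z1 - o) + (κ1 * (z1 - o) ^ 2).re = r ^ 2)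
    (c2 : κ0 * normSq (z2 - o) + (κ1 * (z2 - o) ^ 2).re = r ^ 2)
    (c3 : κ0 * normSq (z3 - o) + (κ1 * (z3 - o) ^ 2).re = r ^ 2) :
    (κ0 * starRingEnd ℂ o + κ1 * o = κ1 / 2 * (z1 + z2 + z3) +
      starRingEnd ℂ κ1 / 2 * starRingEnd ℂ (z1 * z2 * z3)) ∧
    ((κ0 : ℂ) + κ0 * (o * starRingEnd ℂ o) + (κ1 * o ^ 2 + starRingEnd ℂ (κ1 * o ^ 2)) / 2 - r ^ 2 =
      κ1 / 2 * (z1 * z2 + z2 * z3 + z3 * z1) +
      (z1 + z2 + z3) * (starRingEnd ℂ κ1 / 2 * starRingEnd ℂ (z1 * z2 * z3))) := by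
  have cpx : ∀ z : ℂ, normSq z = 1 → κ0 * normSq (z - o) + (κ1 * (z - o) ^ 2).re = r ^ 2 →
      κ1 / 2 * z ^ 4 - (κ0 * starRingEnd ℂ o + κ1 * o) * z ^ 3 +
      ((κ0 : ℂ) + κ0 * (o * starRingEnd ℂ o) + (κ1 * o ^ 2 + starRingEnd ℂ (κ1 * o ^ 2)) / 2 - r ^ 2)
        * z ^ 2 - (κ0 * o + starRingEnd ℂ κ1 * starRingEnd ℂ o) * z + starRingEnd ℂ κ1 / 2 = 0 := by
    intro z hz hc
    have hz1 : z * starRingEnd ℂ z = 1 := by rw [mul_conj, hz]; simp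
    have e1 : ((κ0 * normSq (z - o) + (κ1 * (z - o) ^ 2).re : ℝ) : ℂ) =
        κ0 * ((z - o) * starRingEnd ℂ (z - o)) +
        (κ1 * (z - o) ^ 2 + starRingEnd ℂ (κ1 * (z - o) ^ 2)) / 2 := by
      push_cast
      rw [mul_conj, add_conj]
      push_cast; ring
    have e2 : ((κ0 * normSq (z - o) + (κ1 * (z - o) ^ 2).re : ℝ) : ℂ) = ((r ^ 2 : ℝ) : ℂ) := by
      rw [hc]
    rw [e1] at e2
    simp only [map_sub, map_mul, map_pow, ofReal_pow] at e2 ⊢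
    set z' := starRingEnd ℂ z
    set o' := starRingEnd ℂ o
    set κ1' := starRingEnd ℂ κ1
    linear_combination z ^ 2 * e2 + (-κ0 * z ^ 2 + κ0 * o * z + κ1' * o' * z -
      κ1' / 2 * (z * z' + 1)) * hz1
  have q1 := cpx z1 n1 c1
  have q2 := cpx z2 n2 c2
  have q3 := cpx z3 n3 c3
  obtain ⟨hA, hK⟩ := vieta h12 h23 h31 q1 q2 q3
  have hz1 : z1 * starRingEnd ℂ z1 = 1 := by rw [mul_conj, n1]; simp
  have hz2 : z2 * starRingEnd ℂ z2 = 1 := by rw [mul_conj, n2]; simp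
  have hz3 : z3 * starRingEnd ℂ z3 = 1 := by rw [mul_conj, n3]; simp
  have he3 : z1 * z2 * z3 * starRingEnd ℂ (z1 * z2 * z3) = 1 := by
    simp only [map_mul]
    linear_combination (z2 * starRingEnd ℂ z2 * z3 * starRingEnd ℂ z3) * hz1 +
      (z3 * starRingEnd ℂ z3) * hz2 + hz3
  set e3 := z1 * z2 * z3
  have hw : κ0 * starRingEnd ℂ o + κ1 * o - κ1 / 2 * (z1 + z2 + z3) =
      starRingEnd ℂ κ1 / 2 * starRingEnd ℂ e3 := by
    rw [hA]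
    linear_combination (-(κ0 * starRingEnd ℂ o + κ1 * o - κ1 / 2 * (z1 + z2 + z3))) * he3
  constructor
  · linear_combination hw
  · rw [hK, hw]

/-- The constant power. -/
theorem power_formula {κ0 r : ℝ} {κ1 o z0 m z1 z2 z3 ζ : ℂ}
    (n1 : normSq z1 = 1) (n2 : normSq z2 = 1) (n3 : normSq z3 = 1)
    (h12 : z1 ≠ z2) (h23 : z2 ≠ z3) (h31 : z3 ≠ z1)
    (c1 : κ0 * normSq (z1 - o) + (κ1 * (z1 - o) ^ 2).re = r ^ 2)
    (c2 : κ0 * normSq (z2 - o) + (κ1 * (z2 - o) ^ 2).re = r ^ 2)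
    (c3 : κ0 * normSq (z3 - o) + (κ1 * (z3 - o) ^ 2).re = r ^ 2)
    (he : z1 + z2 + z3 = 2 * z0 + m * (z1 * z2 * z3))
    (hζ : starRingEnd ℂ ζ + m * ζ = 2 * starRingEnd ℂ z0) :
    κ0 * normSq (ζ - o) + (κ1 * (ζ - o) ^ 2).re - r ^ 2 =
      (κ0 * (ζ * starRingEnd ℂ ζ) + κ1 / 2 * ζ ^ 2 + starRingEnd ℂ κ1 / 2 * starRingEnd ℂ ζ ^ 2 -
        κ1 * z0 * ζ - starRingEnd ℂ κ1 * starRingEnd ℂ z0 * starRingEnd ℂ ζ +
        κ1 / 2 * starRingEnd ℂ m + starRingEnd ℂ κ1 / 2 * m - κ0).re := by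
  obtain ⟨hX, hK⟩ := circle_formula n1 n2 n3 h12 h23 h31 c1 c2 c3
  have hz1 : z1 * starRingEnd ℂ z1 = 1 := by rw [mul_conj, n1]; simp
  have hz2 : z2 * starRingEnd ℂ z2 = 1 := by rw [mul_conj, n2]; simp
  have hz3 : z3 * starRingEnd ℂ z3 = 1 := by rw [mul_conj, n3]; simp
  have he3 : z1 * z2 * z3 * starRingEnd ℂ (z1 * z2 * z3) = 1 := by
    simp only [map_mul]
    linear_combination (z2 * starRingEnd ℂ z2 * z3 * starRingEnd ℂ z3) * hz1 +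
      (z3 * starRingEnd ℂ z3) * hz2 + hz3
  have he2 : z1 * z2 + z2 * z3 + z3 * z1 = starRingEnd ℂ (z1 + z2 + z3) * (z1 * z2 * z3) := by
    simp only [map_add]
    linear_combination (-(z2 * z3)) * hz1 - (z1 * z3) * hz2 - (z1 * z2) * hz3
  set e3 := z1 * z2 * z3
  rw [he2] at hK
  rw [he] at hX hK
  simp only [map_add, map_mul, map_pow, map_ofNat] at hK hζ
  have hXc := congrArg (starRingEnd ℂ) hX
  simp only [map_add, map_mul, map_div₀, map_ofNat, conj_conj, conj_ofReal] at hXc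
  have hζc := congrArg (starRingEnd ℂ) hζ
  simp only [map_add, map_mul, map_ofNat, conj_conj] at hζc
  have e1 : ((κ0 * normSq (ζ - o) + (κ1 * (ζ - o) ^ 2).re - r ^ 2 : ℝ) : ℂ) =
        κ0 * ((ζ - o) * starRingEnd ℂ (ζ - o)) +
        (κ1 * (ζ - o) ^ 2 + starRingEnd ℂ (κ1 * (ζ - o) ^ 2)) / 2 - r ^ 2 := by
      push_cast
      rw [mul_conj, add_conj]
      push_cast; ring
  simp only [map_sub, map_mul, map_pow] at e1
  set ζ' := starRingEnd ℂ ζ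
  set o' := starRingEnd ℂ o
  set κ1' := starRingEnd ℂ κ1
  set c := starRingEnd ℂ z0
  set m' := starRingEnd ℂ m
  set l' := starRingEnd ℂ e3
  have key : ((κ0 * normSq (ζ - o) + (κ1 * (ζ - o) ^ 2).re - r ^ 2 : ℝ) : ℂ) =
      κ0 * (ζ * ζ') + κ1 / 2 * ζ ^ 2 + κ1' / 2 * ζ' ^ 2 - κ1 * z0 * ζ - κ1' * c * ζ' +
        κ1 / 2 * m' + κ1' / 2 * m - κ0 := by
    rw [e1]
    linear_combination (-ζ) * hX - ζ' * hXc + hK + (-(κ1 * e3) / 2) * hζ -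
      (κ1' * l' / 2) * hζc + (κ1 * m' / 2 + κ1' * m / 2) * he3
  have := congrArg Complex.re key
  rw [ofReal_re] at this
  exact this

/-- `|m| < 1` -/
theorem m_lt_one {h : ℝ} {k z0 : ℂ} (hh : 0 < h) (hk : normSq k < h ^ 2)
    (hin : ∀ z : ℂ, h * normSq (z - z0) + (k * (z - z0) ^ 2).re = 1 → normSq z < 1) :
    ‖starRingEnd ℂ z0 ^ 2 + 2 * k / ((h ^ 2 - normSq k : ℝ) : ℂ)‖ < 1 := by
  have hkh : ‖k‖ < h := by
    have : ‖k‖ ^ 2 < h ^ 2 := by rw [← normSq_eq_norm_sq]; exact hk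
    exact lt_of_pow_lt_pow_left₀ 2 hh.le this
  have hk0 := norm_nonneg k
  -- choose s unimodular with -conj k = |k| s²
  obtain ⟨s, hs1, hs2⟩ : ∃ s : ℂ, ‖s‖ = 1 ∧ - starRingEnd ℂ k = ‖k‖ * s ^ 2 := by
    refine ⟨exp ((arg (- starRingEnd ℂ k) / 2 : ℝ) * I), ?_, ?_⟩
    · exact norm_exp_ofReal_mul_I _
    · rw [← Complex.exp_nat_mul]
      have h1 := norm_mul_exp_arg_mul_I (- starRingEnd ℂ k)
      rw [norm_neg, norm_conj] at h1
      conv_lhs => rw [← h1]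
      congr 2
      push_cast; ring
  have hs3 : normSq s = 1 := by rw [normSq_eq_norm_sq, hs1]; norm_num
  have hss : s * starRingEnd ℂ s = 1 := by rw [mul_conj, hs3]; simp
  have hks : k * s ^ 2 = - (‖k‖ : ℂ) := by
    have h1 := congrArg (starRingEnd ℂ) hs2
    simp only [map_neg, conj_conj, map_mul, conj_ofReal, map_pow] at h1
    have h2 : k = - (‖k‖ * starRingEnd ℂ s ^ 2) := by rw [← h1]; ring
    calc k * s ^ 2 = - (‖k‖ * starRingEnd ℂ s ^ 2) * s ^ 2 := by rw [← h2]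
      _ = - (‖k‖ : ℂ) * (s * starRingEnd ℂ s) ^ 2 := by ring
      _ = - (‖k‖ : ℂ) := by rw [hss]; ring
  set v : ℝ := 1 / Real.sqrt (h - ‖k‖) with hv
  have hvpos : 0 < v := by
    have : 0 < Real.sqrt (h - ‖k‖) := Real.sqrt_pos.mpr (by linarith)
    positivity
  have hv2 : v ^ 2 * (h - ‖k‖) = 1 := by
    rw [hv, div_pow, Real.sq_sqrt (by linarith)]
    have : h - ‖k‖ ≠ 0 := by linarith
    field_simp
  have hpt : ∀ σ : ℝ, σ ^ 2 = 1 → normSq (z0 + σ * (v * s)) < 1 := by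
    intro σ hσ
    apply hin
    have e1 : z0 + σ * (v * s) - z0 = ((σ * v : ℝ) : ℂ) * s := by push_cast; ring
    rw [e1, normSq_mul, normSq_ofReal, hs3]
    have e2 : k * (((σ * v : ℝ) : ℂ) * s) ^ 2 = (((σ * v) ^ 2 * (- ‖k‖) : ℝ) : ℂ) := by
      push_cast
      calc k * ((σ : ℂ) * v * s) ^ 2 = (k * s ^ 2) * (σ * v) ^ 2 := by ring
        _ = _ := by rw [hks]; ring
    rw [e2, ofReal_re]
    linear_combination (v ^ 2 * (h - ‖k‖)) * hσ + hv2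
  have hplus := hpt 1 (by norm_num)
  have hminus := hpt (-1) (by norm_num)
  rw [normSq_eq_norm_sq] at hplus hminus
  have hP : ‖z0 + ((1 : ℝ) : ℂ) * (v * s)‖ < 1 := by
    have := norm_nonneg (z0 + ((1 : ℝ) : ℂ) * (v * s))
    nlinarith
  have hM : ‖z0 + ((-1 : ℝ) : ℂ) * (v * s)‖ < 1 := by
    have := norm_nonneg (z0 + ((-1 : ℝ) : ℂ) * (v * s))
    nlinarith
  -- t
  set t : ℝ := Real.sqrt (2 * ‖k‖ / (h + ‖k‖)) with ht
  have ht0 : 0 ≤ t := Real.sqrt_nonneg _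
  have htsq : t ^ 2 = 2 * ‖k‖ / (h + ‖k‖) := Real.sq_sqrt (by positivity)
  have ht1 : t ≤ 1 := by
    rw [ht, Real.sqrt_le_one]
    rw [div_le_one (by positivity)]
    linarith
  have hconv : ∀ σ : ℝ, |σ| ≤ 1 → ‖z0 + (σ : ℂ) * (v * s)‖ < 1 := by
    intro σ hσ
    have hσ' := abs_le.mp hσ
    have e1 : z0 + (σ : ℂ) * (v * s) = (((1 + σ) / 2 : ℝ) : ℂ) * (z0 + ((1 : ℝ) : ℂ) * (v * s)) +
        (((1 - σ) / 2 : ℝ) : ℂ) * (z0 + ((-1 : ℝ) : ℂ) * (v * s)) := by push_cast; ring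
    rw [e1]
    calc _ ≤ ‖(((1 + σ) / 2 : ℝ) : ℂ) * (z0 + ((1 : ℝ) : ℂ) * (v * s))‖ +
          ‖(((1 - σ) / 2 : ℝ) : ℂ) * (z0 + ((-1 : ℝ) : ℂ) * (v * s))‖ := norm_add_le _ _
      _ = (1 + σ) / 2 * ‖z0 + ((1 : ℝ) : ℂ) * (v * s)‖ +
          (1 - σ) / 2 * ‖z0 + ((-1 : ℝ) : ℂ) * (v * s)‖ := by
        rw [norm_mul, norm_mul, norm_real, norm_real, Real.norm_eq_abs, Real.norm_eq_abs,
          abs_of_nonneg (by linarith), abs_of_nonneg (by linarith)]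
      _ < 1 := by
        rcases le_total σ 0 with h0 | h0
        · nlinarith
        · nlinarith
  have h1 := hconv t (by rw [abs_of_nonneg ht0]; exact ht1)
  have h2 := hconv (-t) (by rw [abs_neg, abs_of_nonneg ht0]; exact ht1)
  -- factor
  have hΔ : (h ^ 2 - normSq k) = (h - ‖k‖) * (h + ‖k‖) := by rw [normSq_eq_norm_sq]; ring
  have hfac : starRingEnd ℂ (starRingEnd ℂ z0 ^ 2 + 2 * k / ((h ^ 2 - normSq k : ℝ) : ℂ)) =
      (z0 + (t : ℂ) * (v * s)) * (z0 + ((-t : ℝ) : ℂ) * (v * s)) := by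
    simp only [map_add, map_pow, conj_conj, map_div₀, map_mul, map_ofNat, conj_ofReal]
    have hc : starRingEnd ℂ k = - (‖k‖ * s ^ 2) := by rw [← hs2]; ring
    rw [hc, hΔ]
    have e1 : (z0 + (t : ℂ) * (v * s)) * (z0 + ((-t : ℝ) : ℂ) * (v * s)) =
        z0 ^ 2 - ((t ^ 2 * v ^ 2 : ℝ) : ℂ) * s ^ 2 := by push_cast; ring
    have e2 : t ^ 2 * v ^ 2 = 2 * ‖k‖ / ((h - ‖k‖) * (h + ‖k‖)) := by
      rw [htsq]
      have h3 : h - ‖k‖ ≠ 0 := by linarith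
      have h4 : h + ‖k‖ ≠ 0 := by positivity
      rw [div_mul_eq_mul_div, div_eq_div_iff h4 (mul_ne_zero h3 h4)]
      linear_combination (2 * ‖k‖ * (h + ‖k‖)) * hv2
    rw [e1, e2]
    push_cast
    ring
  have h3 : ‖starRingEnd ℂ (starRingEnd ℂ z0 ^ 2 + 2 * k / ((h ^ 2 - normSq k : ℝ) : ℂ))‖ < 1 := by
    rw [hfac, norm_mul]
    have a := norm_nonneg (z0 + (t : ℂ) * (v * s))
    have b := norm_nonneg (z0 + ((-t : ℝ) : ℂ) * (v * s))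
    nlinarith
  rwa [norm_conj] at h3

/-- **Q1**: existence of the point with constant power with respect to the circumcircles. -/
theorem exists_power_point (E Ec : Ellipse) (hin : StrictlyInside Ec E) :
    ∃ (P : Pl) (κ : ℝ), ∀ A B C : Pl, IsPonceletTriangle E Ec A B C →
      ∀ (O : Pl) (r : ℝ), CircleThrough O r A B C → power P O r = κ := by
  obtain ⟨h, k, hh, hk, hform⟩ := conv E Ec.p Ec.q Ec.r Ec.hp Ec.hd
  obtain ⟨κ0, κ1, hκ0, hκ1, hmet⟩ := conv E 1 0 1 one_pos (by norm_num)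
  set ctr : Pl := !₂[Ec.cx, Ec.cy] with hctr
  set z0 := fr E ctr with hz0
  have hform' : ∀ X, Ec.form X = h * normSq (fr E X - z0) + (k * (fr E X - z0) ^ 2).re := by
    intro X
    rw [hz0, ← hform]
    simp [Ellipse.form, hctr]
  have hmet' : ∀ X Y, dist X Y ^ 2 = κ0 * normSq (fr E X - fr E Y) +
      (κ1 * (fr E X - fr E Y) ^ 2).re := by
    intro X Y
    rw [← hmet, EuclideanSpace.dist_eq, Real.sq_sqrt (by positivity), Fin.sum_univ_two,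
      Real.dist_eq, Real.dist_eq, sq_abs, sq_abs]
    ring
  set m := starRingEnd ℂ z0 ^ 2 + 2 * k / ((h ^ 2 - normSq k : ℝ) : ℂ) with hm
  have hm1 : ‖m‖ < 1 := by
    apply m_lt_one hh hk
    intro z hz
    obtain ⟨X, rfl⟩ := fr_surj E z
    rw [← hform'] at hz
    rw [fr_normSq]
    exact hin X hz
  have hmm : (1 - m * starRingEnd ℂ m : ℂ) ≠ 0 := by
    rw [mul_conj, normSq_eq_norm_sq]
    have h1 : (1 - ‖m‖ ^ 2 : ℝ) ≠ 0 := by
      have := norm_nonneg m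
      nlinarith
    intro h2
    apply h1
    exact_mod_cast h2
  set ζ := 2 * (z0 - starRingEnd ℂ m * starRingEnd ℂ z0) / (1 - m * starRingEnd ℂ m) with hζdef
  have hζ : starRingEnd ℂ ζ + m * ζ = 2 * starRingEnd ℂ z0 := by
    have hc : starRingEnd ℂ (1 - m * starRingEnd ℂ m) = 1 - m * starRingEnd ℂ m := by
      simp only [map_sub, map_one, map_mul, conj_conj]; ring
    rw [hζdef, map_div₀, hc]
    simp only [map_mul, map_sub, map_ofNat, conj_conj]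
    field_simp
    ring
  obtain ⟨P, hP⟩ := fr_surj E ζ
  refine ⟨P, (κ0 * (ζ * starRingEnd ℂ ζ) + κ1 / 2 * ζ ^ 2 +
    starRingEnd ℂ κ1 / 2 * starRingEnd ℂ ζ ^ 2 -
    κ1 * z0 * ζ - starRingEnd ℂ κ1 * starRingEnd ℂ z0 * starRingEnd ℂ ζ +
    κ1 / 2 * starRingEnd ℂ m + starRingEnd ℂ κ1 / 2 * m - κ0).re, ?_⟩
  intro A B C hT O r hO
  obtain ⟨-, hA, hB, hC⟩ := hO
  have n1 : normSq (fr E A) = 1 := by rw [fr_normSq]; exact hT.hA
  have n2 : normSq (fr E B) = 1 := by rw [fr_normSq]; exact hT.hB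
  have n3 : normSq (fr E C) = 1 := by rw [fr_normSq]; exact hT.hC
  have h12 : fr E A ≠ fr E B := fun h' => hT.hAB.1 (fr_injective E h')
  have h23 : fr E B ≠ fr E C := fun h' => hT.hBC.1 (fr_injective E h')
  have h31 : fr E C ≠ fr E A := fun h' => hT.hCA.1 (fr_injective E h')
  have t12 := tangent_dual n1 n2 h12.symm (tangent_disc E Ec hh hk hform' hT.hAB)
  have t23 := tangent_dual n2 n3 h23.symm (tangent_disc E Ec hh hk hform' hT.hBC)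
  have t31 := tangent_dual n3 n1 h31.symm (tangent_disc E Ec hh hk hform' hT.hCA)
  have he := e1_formula hk n1 n2 n3 h12 h23 h31 t12 t23 t31
  have c1 : κ0 * normSq (fr E A - fr E O) + (κ1 * (fr E A - fr E O) ^ 2).re = r ^ 2 := by
    rw [← hmet', hA]
  have c2 : κ0 * normSq (fr E B - fr E O) + (κ1 * (fr E B - fr E O) ^ 2).re = r ^ 2 := by
    rw [← hmet', hB]
  have c3 : κ0 * normSq (fr E C - fr E O) + (κ1 * (fr E C - fr E O) ^ 2).re = r ^ 2 := by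
    rw [← hmet', hC]
  have hfin := power_formula n1 n2 n3 h12 h23 h31 c1 c2 c3 he hζ
  unfold power
  rw [hmet', hP]
  exact hfin

end Pool.Agent.X150.Pon
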