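import Mathlib

/-! Definitions: pairs of ellipses in the Euclidean plane and Poncelet triangles. -/

namespace Pool.Agent.X150.Pon

/-- The Euclidean plane. -/
abbrev Pl := EuclideanSpace ℝ (Fin 2)

/-- An ellipse `{X : p (x - cx)^2 + 2 q (x - cx) (y - cy) + r (y - cy)^2 = 1}` with positive
definite matrix `(p q; q r)` and centre `(cx, cy)`. -/
structure Ellipse where
  cx : ℝ
  cy : ℝ
  p : ℝ
  q : ℝ
  r : ℝ
  hp : 0 < p
  hd : 0 < p * r - q ^ 2

/-- The quadratic function defining the ellipse; it is `< 1` inside and `= 1` on the ellipse. -/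
def Ellipse.form (ε : Ellipse) (X : Pl) : ℝ :=
  ε.p * (X 0 - ε.cx) ^ 2 + 2 * ε.q * (X 0 - ε.cx) * (X 1 - ε.cy) + ε.r * (X 1 - ε.cy) ^ 2

/-- The points of the ellipse. -/
def Ellipse.curve (ε : Ellipse) : Set Pl := {X | ε.form X = 1}

/-- `Ec` lies strictly inside `E`. -/
def StrictlyInside (Ec E : Ellipse) : Prop := ∀ X ∈ Ec.curve, E.form X < 1

/-- The line through the distinct points `A`, `B` is tangent to the ellipse: it meets it in exactly
one point. -/
def IsTangentLine (ε : Ellipse) (A B : Pl) : Prop :=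
  A ≠ B ∧ ∃! X, X ∈ ε.curve ∧ X ∈ line[ℝ, A, B]

/-- A triangle with its vertices on `E` and its sides tangent to `Ec`. -/
structure IsPonceletTriangle (E Ec : Ellipse) (A B C : Pl) : Prop where
  hA : A ∈ E.curve
  hB : B ∈ E.curve
  hC : C ∈ E.curve
  hAB : IsTangentLine Ec A B
  hBC : IsTangentLine Ec B C
  hCA : IsTangentLine Ec C A

/-- The centres of the two ellipses differ. -/
def NonConcentric (E Ec : Ellipse) : Prop := ¬ (E.cx = Ec.cx ∧ E.cy = Ec.cy)

/-- `(u, v) ≠ 0` is the direction of an axis of the ellipse: an eigenvector of its matrix. -/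
def Ellipse.IsAxisDirection (ε : Ellipse) (u v : ℝ) : Prop :=
  ¬ (u = 0 ∧ v = 0) ∧ ∃ k : ℝ, ε.p * u + ε.q * v = k * u ∧ ε.q * u + ε.r * v = k * v

/-- No axis of `Ec` is parallel to an axis of `E`. -/
def NonAxisAligned (E Ec : Ellipse) : Prop :=
  ¬ ∃ u v : ℝ, E.IsAxisDirection u v ∧ Ec.IsAxisDirection u v

/-- The power of the point `P` with respect to the circle with centre `O` and radius `r`. -/
noncomputable def power (P O : Pl) (r : ℝ) : ℝ := dist P O ^ 2 - r ^ 2

/-- The circle with centre `O` and radius `r ≥ 0` passes through `A`, `B`, `C`. -/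
def CircleThrough (O : Pl) (r : ℝ) (A B C : Pl) : Prop :=
  0 ≤ r ∧ dist A O = r ∧ dist B O = r ∧ dist C O = r

/-- The Euler circle of the triangle `ABC`: the circle through the midpoints of its sides. -/
def IsEulerCircle (O : Pl) (r : ℝ) (A B C : Pl) : Prop :=
  CircleThrough O r (midpoint ℝ A B) (midpoint ℝ B C) (midpoint ℝ C A)

end Pool.Agent.X150.Pon
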