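import Mathlib

set_option linter.unusedSectionVars false
set_option linter.unusedVariables false

namespace Pool.Agent.X150.SIG

open Finset

variable {V : Type*}

structure TreeData (G : SimpleGraph V) where
  rk : V → ℕ
  inj : Function.Injective rk
  root : V
  p : V → V
  proot : p root = root
  padj : ∀ x, x ≠ root → G.Adj x (p x)
  plt : ∀ x, x ≠ root → rk (p x) < rk x
  pmin : ∀ x, x ≠ root → ∀ y, G.Adj x y → rk (p x) ≤ rk y

theorem exists_treeData [Fintype V] [DecidableEq V] (G : SimpleGraph V) (hG : G.Connected) :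
    Nonempty (TreeData G) := by
  classical
  obtain ⟨root⟩ := hG.nonempty
  set n := Fintype.card V with hn
  let e : V ≃ Fin n := Fintype.equivFin V
  let rk : V → ℕ := fun v => G.dist root v * n + (e v : ℕ)
  have hinj : Function.Injective rk := by
    intro a b hab
    have ha : (e a : ℕ) < n := (e a).2
    have hb : (e b : ℕ) < n := (e b).2
    have h1 : rk a % n = rk b % n := by rw [hab]
    simp only [rk] at h1
    have h2 : (G.dist root a * n + (e a : ℕ)) % n = (e a : ℕ) := by
      rw [Nat.mul_comm, Nat.mul_add_mod, Nat.mod_eq_of_lt ha]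
    have h3 : (G.dist root b * n + (e b : ℕ)) % n = (e b : ℕ) := by
      rw [Nat.mul_comm, Nat.mul_add_mod, Nat.mod_eq_of_lt hb]
    have h4 : (e a : ℕ) = e b := by rw [← h2, ← h3]; exact h1
    exact e.injective (Fin.ext h4)
  have hex : ∀ x, x ≠ root → ∃ y, G.Adj x y ∧ rk y < rk x := by
    intro x hx
    have hreach : G.Reachable root x := hG.preconnected root x
    have hpos : 0 < G.dist root x := hreach.pos_dist_of_ne (Ne.symm hx)
    obtain ⟨w, hw⟩ := hreach.exists_walk_length_eq_dist
    -- reverse the walk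
    have : ∃ y, G.Adj x y ∧ G.dist root y < G.dist root x := by
      cases hr : w.reverse with
      | nil => exact absurd rfl hx
      | cons h q =>
        rename_i v
        refine ⟨v, h, ?_⟩
        have h1 : G.dist root v ≤ q.reverse.length := SimpleGraph.dist_le _
        have h2 : w.reverse.length = q.length + 1 := by rw [hr]; simp
        rw [SimpleGraph.Walk.length_reverse] at h1 h2
        omega
    obtain ⟨y, hy, hd⟩ := this
    refine ⟨y, hy, ?_⟩
    have h1 : (e y : ℕ) < n := (e y).2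
    have : (G.dist root y + 1) * n ≤ G.dist root x * n := Nat.mul_le_mul_right _ hd
    simp only [rk]
    nlinarith
  have hmin : ∀ x, x ≠ root → ∃ y, G.Adj x y ∧ rk y < rk x ∧ ∀ z, G.Adj x z → rk y ≤ rk z := by
    intro x hx
    obtain ⟨y0, hy0, hlt0⟩ := hex x hx
    obtain ⟨y, hy, hm⟩ := Finset.exists_min_image (Finset.univ.filter (fun z => G.Adj x z)) rk
      ⟨y0, by simp [hy0]⟩
    simp only [Finset.mem_filter, Finset.mem_univ, true_and] at hy hm
    exact ⟨y, hy, lt_of_le_of_lt (hm y0 hy0) hlt0, hm⟩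
  choose! f hf using hmin
  refine ⟨⟨rk, hinj, root, fun x => if x = root then root else f x, by simp, ?_, ?_, ?_⟩⟩
  · intro x hx; simp only [hx, if_false]; exact (hf x hx).1
  · intro x hx; simp only [hx, if_false]; exact (hf x hx).2.1
  · intro x hx; simp only [hx, if_false]; exact (hf x hx).2.2

namespace TreeData

variable {G : SimpleGraph V} (T : TreeData G)

def Anc (k x : V) : Prop := ∃ m : ℕ, T.p^[m] x = k

theorem anc_refl (x : V) : T.Anc x x := ⟨0, rfl⟩

theorem rk_p_le (x : V) : T.rk (T.p x) ≤ T.rk x := by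
  by_cases h : x = T.root
  · rw [h, T.proot]
  · exact (T.plt x h).le

theorem anc_p (x : V) : T.Anc (T.p x) x := ⟨1, rfl⟩

theorem anc_trans {a b c : V} (h1 : T.Anc a b) (h2 : T.Anc b c) : T.Anc a c := by
  obtain ⟨m, hm⟩ := h1
  obtain ⟨l, hl⟩ := h2
  refine ⟨m + l, ?_⟩
  rw [Function.iterate_add_apply, hl, hm]

theorem rk_iter_le (x : V) (m : ℕ) : T.rk (T.p^[m] x) ≤ T.rk x := by
  induction m with
  | zero => simp
  | succ m ih =>
    rw [Function.iterate_succ_apply']
    exact (T.rk_p_le _).trans ih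

theorem anc_rk_le {k x : V} (h : T.Anc k x) : T.rk k ≤ T.rk x := by
  obtain ⟨m, rfl⟩ := h
  exact T.rk_iter_le x m

theorem anc_rk_lt {k x : V} (h : T.Anc k x) (hne : k ≠ x) : T.rk k < T.rk x :=
  lt_of_le_of_ne (T.anc_rk_le h) (fun h' => hne (T.inj h'))

theorem anc_of_ne {k x : V} (h : T.Anc k x) (hne : k ≠ x) : T.Anc k (T.p x) := by
  obtain ⟨m, hm⟩ := h
  cases m with
  | zero => exact absurd hm.symm hne
  | succ m => exact ⟨m, by rw [← hm, Function.iterate_succ_apply]⟩

theorem anc_iff (k x : V) : T.Anc k x ↔ k = x ∨ T.Anc k (T.p x) := by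
  constructor
  · intro h
    by_cases hk : k = x
    · exact Or.inl hk
    · exact Or.inr (T.anc_of_ne h hk)
  · rintro (h | h)
    · rw [h]; exact T.anc_refl x
    · exact T.anc_trans h (T.anc_p x)

theorem anc_comparable {k l x : V} (hk : T.Anc k x) (hl : T.Anc l x) : T.Anc k l ∨ T.Anc l k := by
  obtain ⟨m, rfl⟩ := hk
  obtain ⟨m', rfl⟩ := hl
  rcases le_total m m' with h | h
  · right
    refine ⟨m' - m, ?_⟩
    rw [← Function.iterate_add_apply]; congr 1; rw [Nat.sub_add_cancel h]
  · left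
    refine ⟨m - m', ?_⟩
    rw [← Function.iterate_add_apply]; congr 1; rw [Nat.sub_add_cancel h]

theorem anc_root {k : V} (h : T.Anc k T.root) : k = T.root := by
  obtain ⟨m, rfl⟩ := h
  induction m with
  | zero => rfl
  | succ m ih => rw [Function.iterate_succ_apply, T.proot]; exact ih

theorem ne_root_of_anc {k x : V} (h : T.Anc k x) (hne : k ≠ x) : x ≠ T.root := by
  rintro rfl
  exact hne (T.anc_root h)

theorem exists_child {x y : V} (h : T.Anc x y) (hne : x ≠ y) :
    ∃ c, T.p c = x ∧ c ≠ T.root ∧ T.Anc c y := by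
  obtain ⟨m, hm⟩ := h
  induction m generalizing y with
  | zero => exact absurd hm.symm hne
  | succ m ih =>
    rw [Function.iterate_succ_apply] at hm
    by_cases h1 : x = T.p y
    · refine ⟨y, h1.symm, ?_, T.anc_refl y⟩
      rintro rfl
      rw [T.proot] at h1
      exact hne h1
    · obtain ⟨c, hc1, hc2, hc3⟩ := ih h1 hm
      exact ⟨c, hc1, hc2, T.anc_trans hc3 (T.anc_p y)⟩

/-- non-tree edges -/
def N (k l : V) : Prop := G.Adj k l ∧ T.p k ≠ l ∧ T.p l ≠ k

theorem N_symm {k l : V} (h : T.N k l) : T.N l k := ⟨h.1.symm, h.2.2, h.2.1⟩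

theorem N_not_anc {k l : V} (h : T.N k l) : ¬ T.Anc k l := by
  intro ha
  have hne : k ≠ l := h.1.ne
  have hl : l ≠ T.root := T.ne_root_of_anc ha hne
  have h1 := T.anc_of_ne ha hne
  have h2 := T.anc_rk_lt h1 (Ne.symm h.2.2)
  have h3 := T.pmin l hl k h.1.symm
  omega

theorem N_not_both {k l x : V} (h : T.N k l) (hk : T.Anc k x) : ¬ T.Anc l x := by
  intro hl
  rcases T.anc_comparable hk hl with h1 | h1
  · exact T.N_not_anc h h1
  · exact T.N_not_anc (T.N_symm h) h1

/-- the lower endpoint of a non-tree edge dominates every proper ancestor of the upper one -/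
theorem N_rk {i j k : V} (h : T.N i j) (hk : T.Anc k j) (hkj : k ≠ j) : T.rk k < T.rk i := by
  have hj : j ≠ T.root := T.ne_root_of_anc hk hkj
  have h1 := T.anc_of_ne hk hkj
  have h2 := T.anc_rk_le h1
  have h3 := T.pmin j hj i h.1.symm
  have h4 : T.rk (T.p j) ≠ T.rk i := fun h' => h.2.2 (T.inj h')
  omega

section metric

variable [Fintype V] [DecidableEq V]

open Classical in
noncomputable def I (k x : V) : ℝ := if T.Anc k x then 1 else 0

theorem I_of {k x : V} (h : T.Anc k x) : T.I k x = 1 := by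
  unfold I; rw [if_pos h]

theorem I_of_not {k x : V} (h : ¬ T.Anc k x) : T.I k x = 0 := by
  unfold I; rw [if_neg h]

theorem I_nonneg (k x : V) : 0 ≤ T.I k x := by
  unfold I; split_ifs <;> norm_num

theorem I_le_one (k x : V) : T.I k x ≤ 1 := by
  unfold I; split_ifs <;> norm_num

noncomputable def nn (_T : TreeData G) : ℝ := (Fintype.card V : ℝ)

noncomputable def R (k : V) : ℝ := ((T.nn) ^ 3 + 1) ^ (T.rk k)

theorem nn_pos : 1 ≤ T.nn := by
  unfold nn
  have : 0 < Fintype.card V := Fintype.card_pos_iff.mpr ⟨T.root⟩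
  exact_mod_cast this

theorem R_pos (k : V) : 0 < T.R k := by
  have := T.nn_pos
  unfold R; positivity

theorem R_lt {k l : V} (h : T.rk k < T.rk l) : T.nn ^ 3 * T.R k < T.R l := by
  have h1 := T.nn_pos
  have hb : (1 : ℝ) ≤ T.nn ^ 3 + 1 := by
    have : 0 ≤ T.nn ^ 3 := by positivity
    linarith
  have h2 : (T.nn ^ 3 + 1) ^ (T.rk k + 1) ≤ (T.nn ^ 3 + 1) ^ (T.rk l) := pow_le_pow_right₀ hb h
  have h3 : T.nn ^ 3 * (T.nn ^ 3 + 1) ^ (T.rk k) < (T.nn ^ 3 + 1) ^ (T.rk k + 1) := by
    rw [pow_succ (T.nn ^ 3 + 1) (T.rk k)]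
    have : 0 < (T.nn ^ 3 + 1) ^ (T.rk k) := by positivity
    have h5 : (T.nn ^ 3 + 1) ^ (T.rk k) * (T.nn ^ 3 + 1) =
      T.nn ^ 3 * (T.nn ^ 3 + 1) ^ (T.rk k) + (T.nn ^ 3 + 1) ^ (T.rk k) := by ring
    rw [h5]; linarith
  unfold R
  linarith

theorem R_mono {k l : V} (h : T.rk k ≤ T.rk l) : T.R k ≤ T.R l := by
  have h1 := T.nn_pos
  have hb : (1 : ℝ) ≤ T.nn ^ 3 + 1 := by
    have : 0 ≤ T.nn ^ 3 := by positivity
    linarith
  exact pow_le_pow_right₀ hb h

open Classical in
noncomputable def a (k l : V) : ℝ :=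
  if T.N k l then min (T.R k) (T.R l) / (2 * T.nn ^ 2) else 0

theorem a_symm (k l : V) : T.a k l = T.a l k := by
  unfold a
  by_cases h : T.N k l
  · rw [if_pos h, if_pos (T.N_symm h), min_comm]
  · rw [if_neg h, if_neg (fun h' => h (T.N_symm h'))]

theorem a_nonneg (k l : V) : 0 ≤ T.a k l := by
  unfold a
  split_ifs
  · have := T.R_pos k
    have := T.R_pos l
    have := T.nn_pos
    positivity
  · exact le_refl _

theorem a_le_left (k l : V) : 2 * T.a k l ≤ T.R k / T.nn ^ 2 := by
  have h1 := T.nn_pos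
  have h2 := T.R_pos k
  unfold a
  split_ifs
  · rw [show 2 * (min (T.R k) (T.R l) / (2 * T.nn ^ 2)) = min (T.R k) (T.R l) / T.nn ^ 2 by
      field_simp]
    gcongr
    exact min_le_left _ _
  · have : 0 ≤ T.R k / T.nn ^ 2 := by positivity
    linarith

theorem a_le_right (k l : V) : 2 * T.a k l ≤ T.R l / T.nn ^ 2 := by
  rw [T.a_symm]; exact T.a_le_left l k

theorem a_not {k l : V} (h : ¬ T.N k l) : T.a k l = 0 := by
  unfold a; rw [if_neg h]

noncomputable def w (k : V) : ℝ := T.R k - ∑ l, T.a k l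

theorem w_pos (k : V) : 0 < T.w k := by
  have h1 := T.nn_pos
  have h2 := T.R_pos k
  have h3 : ∑ l, T.a k l ≤ ∑ _l : V, T.R k / (2 * T.nn ^ 2) := by
    apply Finset.sum_le_sum
    intro l _
    have := T.a_le_left k l
    rw [show T.R k / (2 * T.nn ^ 2) = (T.R k / T.nn ^ 2) / 2 by field_simp]
    linarith
  rw [Finset.sum_const, nsmul_eq_mul, Finset.card_univ] at h3
  have h4 : ((Fintype.card V : ℕ) : ℝ) * (T.R k / (2 * T.nn ^ 2)) = T.R k / (2 * T.nn) := by
    change T.nn * _ = _
    field_simp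
  rw [h4] at h3
  have h5 : T.R k / (2 * T.nn) < T.R k := by
    rw [div_lt_iff₀ (by positivity)]
    nlinarith
  unfold w
  linarith

/-- the metric -/
noncomputable def d (x y : V) : ℝ :=
  ∑ k, T.R k * |T.I k x - T.I k y| - 2 * ∑ k, ∑ l, T.a k l * (T.I k x * T.I l y)

/-- the embedding -/
noncomputable def X (x : V) : (V ⊕ (V × V)) → ℝ
  | Sum.inl k => T.w k * T.I k x
  | Sum.inr kl => T.a kl.1 kl.2 / 2 * (T.I kl.1 x + T.I kl.2 x)

theorem key (k l x y : V) :
    |T.a k l / 2 * (T.I k x + T.I l x) - T.a k l / 2 * (T.I k y + T.I l y)| =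
      T.a k l / 2 * |T.I k x - T.I k y| + T.a k l / 2 * |T.I l x - T.I l y|
        - T.a k l * (T.I k x * T.I l y) - T.a k l * (T.I l x * T.I k y) := by
  by_cases h : T.N k l
  · have ha := T.a_nonneg k l
    rw [← mul_sub, abs_mul, abs_of_nonneg (by linarith : 0 ≤ T.a k l / 2)]
    by_cases h1 : T.Anc k x <;> by_cases h2 : T.Anc l x <;> by_cases h3 : T.Anc k y <;>
      by_cases h4 : T.Anc l y
    all_goals first
      | exact absurd h2 (T.N_not_both h h1)
      | exact absurd h4 (T.N_not_both h h3)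
      | (simp only [T.I_of, T.I_of_not, h1, h2, h3, h4, not_false_eq_true]; norm_num)
  · rw [T.a_not h]; simp

theorem sum_abs (x y : V) : ∑ c, |T.X x c - T.X y c| = T.d x y := by
  rw [Fintype.sum_sum_type, Fintype.sum_prod_type]
  simp only [X]
  have h1 : ∀ k, |T.w k * T.I k x - T.w k * T.I k y| =
      T.R k * |T.I k x - T.I k y| - ∑ l, T.a k l * |T.I k x - T.I k y| := by
    intro k
    rw [← mul_sub, abs_mul, abs_of_pos (T.w_pos k), ← Finset.sum_mul]
    unfold w; ring
  simp only [h1, T.key]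
  simp only [Finset.sum_sub_distrib, Finset.sum_add_distrib]
  have h2 : ∑ k, ∑ l, T.a k l / 2 * |T.I l x - T.I l y| =
      ∑ k, ∑ l, T.a k l / 2 * |T.I k x - T.I k y| := by
    rw [Finset.sum_comm]
    apply Finset.sum_congr rfl; intro k _
    apply Finset.sum_congr rfl; intro l _
    rw [T.a_symm]
  have h3 : ∑ k, ∑ l, T.a k l * (T.I l x * T.I k y) =
      ∑ k, ∑ l, T.a k l * (T.I k x * T.I l y) := by
    rw [Finset.sum_comm]
    apply Finset.sum_congr rfl; intro k _
    apply Finset.sum_congr rfl; intro l _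
    rw [T.a_symm]
  have h4 : ∑ k, ∑ l, T.a k l * |T.I k x - T.I k y| =
      2 * ∑ k, ∑ l, T.a k l / 2 * |T.I k x - T.I k y| := by
    rw [Finset.mul_sum]
    apply Finset.sum_congr rfl; intro k _
    rw [Finset.mul_sum]
    apply Finset.sum_congr rfl; intro l _
    ring
  rw [h2, h3, h4]
  unfold d
  ring

/-! ### estimates -/

theorem d_symm (x y : V) : T.d x y = T.d y x := by
  rw [← T.sum_abs, ← T.sum_abs]
  exact Finset.sum_congr rfl (fun c _ => abs_sub_comm _ _)

theorem d_self (x : V) : T.d x x = 0 := by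
  rw [← T.sum_abs]; simp

theorem d_triangle (x y z : V) : T.d x z ≤ T.d x y + T.d y z := by
  rw [← T.sum_abs, ← T.sum_abs, ← T.sum_abs, ← Finset.sum_add_distrib]
  exact Finset.sum_le_sum (fun c _ => abs_sub_le _ _ _)

/-- terms of the reduction -/
theorem term_zero_of_anc {x y : V} (h : T.Anc x y) (k l : V) :
    T.a k l * (T.I k x * T.I l y) = 0 := by
  by_cases h1 : T.N k l
  · by_cases hk : T.Anc k x
    · have hk' := T.anc_trans hk h
      have hl := T.N_not_both h1 hk'
      rw [T.I_of_not hl]; ring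
    · rw [T.I_of_not hk]; ring
  · rw [T.a_not h1]; ring

theorem d_of_anc {x y : V} (h : T.Anc x y) :
    T.d x y = ∑ k, T.R k * |T.I k x - T.I k y| := by
  unfold d
  have : ∑ k, ∑ l, T.a k l * (T.I k x * T.I l y) = 0 :=
    Finset.sum_eq_zero (fun k _ => Finset.sum_eq_zero (fun l _ => T.term_zero_of_anc h k l))
  rw [this]; ring

theorem abs_I_anc_p {x : V} (hx : x ≠ T.root) (k : V) :
    T.R k * |T.I k (T.p x) - T.I k x| = if k = x then T.R x else 0 := by
  split_ifs with h
  · subst h
    have h1 : ¬ T.Anc k (T.p k) := by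
      intro h
      have := T.anc_rk_le h
      have := T.plt k hx
      omega
    rw [T.I_of_not h1, T.I_of (T.anc_refl k)]; norm_num
  · by_cases h1 : T.Anc k x
    · rw [T.I_of h1, T.I_of (T.anc_of_ne h1 h)]; norm_num
    · have h2 : ¬ T.Anc k (T.p x) := fun h' => h1 (T.anc_trans h' (T.anc_p x))
      rw [T.I_of_not h1, T.I_of_not h2]; norm_num

theorem d_parent {x : V} (hx : x ≠ T.root) : T.d (T.p x) x = T.R x := by
  rw [T.d_of_anc (T.anc_p x), Finset.sum_congr rfl (fun k _ => T.abs_I_anc_p hx k)]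
  simp

/-- ancestor case: lower bound through a child -/
theorem d_anc_lower {x y c : V} (h : T.Anc x y) (hc : T.p c = x) (hcr : c ≠ T.root)
    (hcy : T.Anc c y) (hne : c ≠ y) : T.R c + T.R y ≤ T.d x y := by
  rw [T.d_of_anc h]
  have hcx : ¬ T.Anc c x := by
    intro h'
    have := T.anc_rk_le h'
    have := T.plt c hcr
    rw [hc] at this
    omega
  have hyx : ¬ T.Anc y x := by
    intro h'
    exact hcx (T.anc_trans hcy h')
  have h1 : ∑ k ∈ ({c, y} : Finset V), T.R k * |T.I k x - T.I k y| ≤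
      ∑ k, T.R k * |T.I k x - T.I k y| := by
    apply Finset.sum_le_sum_of_subset_of_nonneg (Finset.subset_univ _)
    intro k _ _
    have := T.R_pos k
    positivity
  rw [Finset.sum_pair hne, T.I_of_not hcx, T.I_of hcy, T.I_of_not hyx,
    T.I_of (T.anc_refl y)] at h1
  norm_num at h1
  exact h1

/-- the sum of all `R k |I k x - I k y|` except over `x`, `y` -/
noncomputable def e (x y : V) : ℝ :=
  ∑ k ∈ (Finset.univ.erase x).erase y, T.R k * |T.I k x - T.I k y|

theorem e_nonneg (x y : V) : 0 ≤ T.e x y := by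
  unfold e
  apply Finset.sum_nonneg
  intro k _
  have := T.R_pos k
  positivity

theorem sum_split {x y : V} (hxy : ¬ T.Anc x y) (hyx : ¬ T.Anc y x) :
    ∑ k, T.R k * |T.I k x - T.I k y| = T.R x + T.R y + T.e x y := by
  have hne : y ≠ x := by rintro rfl; exact hxy (T.anc_refl _)
  unfold e
  rw [← Finset.add_sum_erase Finset.univ _ (Finset.mem_univ x),
    ← Finset.add_sum_erase (Finset.univ.erase x) _ (Finset.mem_erase.mpr ⟨hne, Finset.mem_univ y⟩)]
  rw [T.I_of_not hxy, T.I_of (T.anc_refl x), T.I_of_not hyx, T.I_of (T.anc_refl y)]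
  norm_num
  ring

theorem le_e {x y k : V} (hkx : k ≠ x) (hky : k ≠ y) (h : |T.I k x - T.I k y| = 1) :
    T.R k ≤ T.e x y := by
  unfold e
  have h1 : T.R k * |T.I k x - T.I k y| ≤
      ∑ k ∈ (Finset.univ.erase x).erase y, T.R k * |T.I k x - T.I k y| := by
    apply Finset.single_le_sum (f := fun k => T.R k * |T.I k x - T.I k y|)
    · intro k _
      have := T.R_pos k
      positivity
    · simp [hkx, hky]
  rw [h, mul_one] at h1
  exact h1

theorem sum_le_of_terms {f : V → V → ℝ} {C : ℝ} (h : ∀ k l, 2 * f k l ≤ C / T.nn ^ 2) :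
    2 * ∑ k, ∑ l, f k l ≤ C := by
  have h1 := T.nn_pos
  have h2 : ∑ k : V, ∑ l : V, 2 * f k l ≤ ∑ _k : V, ∑ _l : V, C / T.nn ^ 2 :=
    Finset.sum_le_sum (fun k _ => Finset.sum_le_sum (fun l _ => h k l))
  have h3 : ∑ _k : V, ∑ _l : V, C / T.nn ^ 2 = C := by
    simp only [Finset.sum_const, nsmul_eq_mul, Finset.card_univ]
    change T.nn * (T.nn * (C / T.nn ^ 2)) = C
    field_simp
  rw [h3] at h2
  simp only [← Finset.mul_sum] at h2
  exact h2

/-- the far case -/
theorem d_far {x y : V} (hxy : ¬ T.Anc x y) (hyx : ¬ T.Anc y x) (hadj : ¬ G.Adj x y) :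
    T.R x + T.R y ≤ T.d x y := by
  unfold d
  rw [T.sum_split hxy hyx]
  have hn := T.nn_pos
  have h0 : 0 ≤ T.e x y / T.nn ^ 2 := by
    have := T.e_nonneg x y
    positivity
  have h1 : 2 * ∑ k, ∑ l, T.a k l * (T.I k x * T.I l y) ≤ T.e x y := by
    apply T.sum_le_of_terms
    intro k l
    by_cases hN : T.N k l
    · by_cases hk : T.Anc k x
      · by_cases hl : T.Anc l y
        · rw [T.I_of hk, T.I_of hl, mul_one, mul_one]
          have hky : ¬ T.Anc k y := fun h => T.N_not_both hN h hl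
          have hlx : ¬ T.Anc l x := T.N_not_both hN hk
          by_cases hkx : k = x
          · have hly : l ≠ y := by
              rintro rfl
              exact hadj (hkx ▸ hN.1)
            have hlx' : l ≠ x := by
              rintro rfl; exact hlx (T.anc_refl _)
            have := T.le_e hlx' hly (by rw [T.I_of_not hlx, T.I_of hl]; norm_num)
            refine (T.a_le_right k l).trans ?_
            gcongr
          · have hky' : k ≠ y := by
              rintro rfl; exact hky (T.anc_refl _)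
            have := T.le_e hkx hky' (by rw [T.I_of_not hky, T.I_of hk]; norm_num)
            refine (T.a_le_left k l).trans ?_
            gcongr
        · rw [T.I_of_not hl]; linarith
      · rw [T.I_of_not hk]; linarith
    · rw [T.a_not hN]; linarith
  linarith

theorem e_lt {x y : V} (hN : T.N x y) (hlt : T.rk x < T.rk y) : T.e x y < T.R x / T.nn ^ 2 := by
  have hn := T.nn_pos
  have hRx := T.R_pos x
  have h0 : ∀ k ∈ (Finset.univ.erase x).erase y,
      T.R k * |T.I k x - T.I k y| < T.R x / T.nn ^ 3 := by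
    intro k hk
    simp only [Finset.mem_erase, Finset.mem_univ, and_true, ne_eq] at hk
    by_cases h1 : T.Anc k x ∨ T.Anc k y
    · have hrk : T.rk k < T.rk x := by
        rcases h1 with h1 | h1
        · exact T.anc_rk_lt h1 hk.2
        · exact T.N_rk hN h1 hk.1
      have h2 := T.R_lt hrk
      have h3 : T.R k < T.R x / T.nn ^ 3 := by
        rw [lt_div_iff₀ (by positivity)]; linarith
      have h4 : |T.I k x - T.I k y| ≤ 1 := by
        rw [abs_le]
        have := T.I_nonneg k x
        have := T.I_nonneg k y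
        have := T.I_le_one k x
        have := T.I_le_one k y
        constructor <;> linarith
      have h5 := T.R_pos k
      nlinarith [abs_nonneg (T.I k x - T.I k y)]
    · push Not at h1
      rw [T.I_of_not h1.1, T.I_of_not h1.2]
      simp only [sub_zero, abs_zero, mul_zero]
      positivity
  have hne : x ≠ y := hN.1.ne
  by_cases hemp : ((Finset.univ.erase x).erase y).Nonempty
  · have h1 := Finset.sum_lt_sum_of_nonempty hemp h0
    rw [Finset.sum_const, nsmul_eq_mul] at h1
    have h2 : (((Finset.univ.erase x).erase y).card : ℝ) ≤ T.nn := by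
      unfold nn
      exact_mod_cast Finset.card_le_univ _
    have h3 : (((Finset.univ.erase x).erase y).card : ℝ) * (T.R x / T.nn ^ 3) ≤
        T.nn * (T.R x / T.nn ^ 3) := by
      gcongr
    have h4 : T.nn * (T.R x / T.nn ^ 3) = T.R x / T.nn ^ 2 := by field_simp
    unfold e
    linarith
  · rw [Finset.not_nonempty_iff_eq_empty] at hemp
    unfold e
    rw [hemp, Finset.sum_empty]
    positivity

theorem d_near_lt {x y : V} (hN : T.N x y) (hlt : T.rk x < T.rk y) :
    T.d x y < T.R x + T.R y := by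
  have hxy := T.N_not_anc hN
  have hyx := T.N_not_anc (T.N_symm hN)
  have he := T.e_lt hN hlt
  have hn := T.nn_pos
  unfold d
  rw [T.sum_split hxy hyx]
  have h1 : T.a x y ≤ ∑ k, ∑ l, T.a k l * (T.I k x * T.I l y) := by
    have h2 : T.a x y = T.a x y * (T.I x x * T.I y y) := by
      rw [T.I_of (T.anc_refl x), T.I_of (T.anc_refl y)]; ring
    have hnn : ∀ k l, 0 ≤ T.a k l * (T.I k x * T.I l y) := fun k l =>
      mul_nonneg (T.a_nonneg k l) (mul_nonneg (T.I_nonneg _ _) (T.I_nonneg _ _))
    have h3 : T.a x y * (T.I x x * T.I y y) ≤ ∑ l, T.a x l * (T.I x x * T.I l y) :=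
      Finset.single_le_sum (f := fun l => T.a x l * (T.I x x * T.I l y))
        (fun l _ => hnn x l) (Finset.mem_univ y)
    have h4 : ∑ l, T.a x l * (T.I x x * T.I l y) ≤ ∑ k, ∑ l, T.a k l * (T.I k x * T.I l y) :=
      Finset.single_le_sum (f := fun k => ∑ l, T.a k l * (T.I k x * T.I l y))
        (fun k _ => Finset.sum_nonneg (fun l _ => hnn k l)) (Finset.mem_univ x)
    linarith
  have h2 : 2 * T.a x y = T.R x / T.nn ^ 2 := by
    unfold a
    rw [if_pos hN, min_eq_left (T.R_mono hlt.le)]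
    field_simp
  linarith

theorem d_near_ge {x y : V} (hN : T.N x y) (hlt : T.rk x < T.rk y) :
    T.R y ≤ T.d x y := by
  have hxy := T.N_not_anc hN
  have hyx := T.N_not_anc (T.N_symm hN)
  have he := T.e_nonneg x y
  have hn := T.nn_pos
  have hRx := T.R_pos x
  unfold d
  rw [T.sum_split hxy hyx]
  have h1 : 2 * ∑ k, ∑ l, T.a k l * (T.I k x * T.I l y) ≤ T.R x := by
    apply T.sum_le_of_terms
    intro k l
    have h0 : 0 ≤ T.R x / T.nn ^ 2 := by positivity
    by_cases hk : T.Anc k x
    · have h2 : T.R k ≤ T.R x := T.R_mono (T.anc_rk_le hk)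
      have h3 := T.a_le_left k l
      have h4 : T.I k x * T.I l y ≤ 1 := by
        have := T.I_nonneg k x
        have := T.I_nonneg l y
        have := T.I_le_one k x
        have := T.I_le_one l y
        nlinarith
      have h5 : T.a k l * (T.I k x * T.I l y) ≤ T.a k l := by
        have := T.a_nonneg k l
        nlinarith
      have h6 : T.R k / T.nn ^ 2 ≤ T.R x / T.nn ^ 2 := by gcongr
      linarith
    · rw [T.I_of_not hk]; linarith
  linarith

end metric

end TreeData

end Pool.Agent.X150.SIG
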